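import Mathlib

set_option autoImplicit false

/- module Sieve (Selberg sieve library of helper24) -/
section
/-!
# Selberg's sieve (upper bound) and a logarithmic lower bound for the sieve sum
-/

open Finset Nat ArithmeticFunction
open scoped ArithmeticFunction.Moebius ArithmeticFunction.zeta

namespace Pool.Agent.Lib.MP_dde2f1_nt.Sieve

variable (s : BoundingSieve)

/-- the Selberg sum -/
noncomputable def SS (z : ℕ) : ℝ :=
  ∑ l ∈ (s.prodPrimes.divisors).filter (· ≤ z), s.selbergTerms l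

/-- the optimal weights -/
noncomputable def ww (z : ℕ) (d : ℕ) : ℝ :=
  if d ∣ s.prodPrimes then
    (μ d : ℝ) * (s.nu d)⁻¹ * (SS s z)⁻¹ *
      ∑ e ∈ (s.prodPrimes.divisors).filter (fun e => d ∣ e ∧ e ≤ z), s.selbergTerms e
  else 0

lemma SS_pos (z : ℕ) (hz : 1 ≤ z) : 0 < SS s z := by
  unfold SS
  apply Finset.sum_pos
  · intro l hl
    rw [Finset.mem_filter, Nat.mem_divisors] at hl
    exact BoundingSieve.selbergTerms_pos hl.1.1
  · exact ⟨1, Finset.mem_filter.2 ⟨Nat.mem_divisors.2 ⟨one_dvd _, BoundingSieve.prodPrimes_ne_zero⟩, hz⟩⟩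

lemma ww_one (z : ℕ) (hz : 1 ≤ z) : ww s z 1 = 1 := by
  unfold ww
  rw [if_pos (one_dvd _)]
  have h1 : (s.prodPrimes.divisors).filter (fun e => 1 ∣ e ∧ e ≤ z) =
      (s.prodPrimes.divisors).filter (· ≤ z) := by
    apply Finset.filter_congr
    intro e _
    simp
  rw [h1]
  have h2 : s.nu 1 = 1 := s.nu_mult.map_one
  rw [h2, ArithmeticFunction.moebius_apply_one]
  have := (SS_pos s z hz).ne'
  have h3 : ∑ e ∈ (s.prodPrimes.divisors).filter (· ≤ z), s.selbergTerms e = SS s z := rfl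
  rw [h3]
  field_simp
  simp

/-- `∑_{l ∣ d ∣ e} μ(d) = μ(l) [e = l]` for squarefree `e` -/
lemma sum_moebius_between (l e : ℕ) (he : Squarefree e) :
    ∑ d ∈ e.divisors.filter (fun d => l ∣ d), (μ d : ℝ) = if e = l then (μ l : ℝ) else 0 := by
  by_cases hle : l ∣ e
  · obtain ⟨m, rfl⟩ := hle
    have hcop : Nat.Coprime l m := Nat.coprime_of_squarefree_mul he
    have hl0 : l ≠ 0 := by rintro rfl; simp at he
    have hm0 : m ≠ 0 := by rintro rfl; simp at he
    have h1 : (l * m).divisors.filter (fun d => l ∣ d) = m.divisors.image (fun k => l * k) := by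
      ext d
      rw [Finset.mem_filter, Nat.mem_divisors, Finset.mem_image]
      constructor
      · rintro ⟨⟨h1, h2⟩, ⟨k, rfl⟩⟩
        refine ⟨k, Nat.mem_divisors.2 ⟨?_, hm0⟩, rfl⟩
        exact (Nat.mul_dvd_mul_iff_left (Nat.pos_of_ne_zero hl0)).1 h1
      · rintro ⟨k, hk, rfl⟩
        exact ⟨⟨Nat.mul_dvd_mul_left l (Nat.dvd_of_mem_divisors hk), mul_ne_zero hl0 hm0⟩,
          dvd_mul_right l k⟩
    rw [h1, Finset.sum_image (by
      intro a _ b _ hab
      exact Nat.eq_of_mul_eq_mul_left (Nat.pos_of_ne_zero hl0) hab)]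
    have h2 : ∀ k ∈ m.divisors, (μ (l * k) : ℝ) = (μ l : ℝ) * (μ k : ℝ) := by
      intro k hk
      have hc : Nat.Coprime l k := Nat.Coprime.coprime_dvd_right (Nat.dvd_of_mem_divisors hk) hcop
      rw [ArithmeticFunction.isMultiplicative_moebius.map_mul_of_coprime hc]
      push_cast
      rfl
    rw [Finset.sum_congr rfl h2, ← Finset.mul_sum]
    have h3 : ∑ k ∈ m.divisors, (μ k : ℝ) = if m = 1 then 1 else 0 := by
      have h4 : (μ * ζ : ArithmeticFunction ℤ) m = (1 : ArithmeticFunction ℤ) m := by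
        rw [ArithmeticFunction.moebius_mul_coe_zeta]
      rw [ArithmeticFunction.coe_mul_zeta_apply, ArithmeticFunction.one_apply] at h4
      exact_mod_cast h4
    rw [h3]
    by_cases hm1 : m = 1
    · subst hm1; simp
    · rw [if_neg hm1, if_neg, mul_zero]
      intro hcon
      apply hm1
      have : l * m = l * 1 := by rw [hcon, mul_one]
      exact Nat.eq_of_mul_eq_mul_left (Nat.pos_of_ne_zero hl0) this
  · have h1 : e.divisors.filter (fun d => l ∣ d) = ∅ := by
      rw [Finset.filter_eq_empty_iff]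
      intro d hd hld
      exact hle (hld.trans (Nat.dvd_of_mem_divisors hd))
    rw [h1, Finset.sum_empty, if_neg]
    rintro rfl
    exact hle dvd_rfl


/-- the diagonal variables of the optimal weights -/
lemma yy (z : ℕ) (l : ℕ) (hl : l ∈ s.prodPrimes.divisors) :
    (∑ d ∈ s.prodPrimes.divisors, if l ∣ d then s.nu d * ww s z d else 0) =
      if l ≤ z then (μ l : ℝ) * s.selbergTerms l * (SS s z)⁻¹ else 0 := by
  have hP0 : s.prodPrimes ≠ 0 := BoundingSieve.prodPrimes_ne_zero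
  -- expand
  have h1 : ∀ d ∈ s.prodPrimes.divisors, (if l ∣ d then s.nu d * ww s z d else 0) =
      ∑ e ∈ (s.prodPrimes.divisors).filter (· ≤ z),
        (SS s z)⁻¹ * s.selbergTerms e * (if (l ∣ d ∧ d ∣ e) then (μ d : ℝ) else 0) := by
    intro d hd
    have hdP := Nat.dvd_of_mem_divisors hd
    have hnu : s.nu d ≠ 0 := BoundingSieve.nu_ne_zero hdP
    by_cases hld : l ∣ d
    · rw [if_pos hld]
      unfold ww
      rw [if_pos hdP]
      have h2 : (s.prodPrimes.divisors).filter (fun e => d ∣ e ∧ e ≤ z) =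
          ((s.prodPrimes.divisors).filter (· ≤ z)).filter (fun e => d ∣ e) := by
        rw [Finset.filter_filter]
        apply Finset.filter_congr
        intro e _
        exact and_comm
      rw [h2, Finset.sum_filter, Finset.mul_sum, Finset.mul_sum]
      apply Finset.sum_congr rfl
      intro e _
      by_cases hde : d ∣ e
      · rw [if_pos hde, if_pos ⟨hld, hde⟩]
        field_simp
      · rw [if_neg hde, if_neg (fun h => hde h.2)]
        ring
    · rw [if_neg hld]
      symm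
      apply Finset.sum_eq_zero
      intro e _
      rw [if_neg (fun h => hld h.1), mul_zero]
  rw [Finset.sum_congr rfl h1, Finset.sum_comm]
  have h2 : ∀ e ∈ (s.prodPrimes.divisors).filter (· ≤ z),
      ∑ d ∈ s.prodPrimes.divisors,
        (SS s z)⁻¹ * s.selbergTerms e * (if (l ∣ d ∧ d ∣ e) then (μ d : ℝ) else 0) =
      if e = l then (SS s z)⁻¹ * s.selbergTerms l * (μ l : ℝ) else 0 := by
    intro e he
    rw [Finset.mem_filter] at he
    have heP := Nat.dvd_of_mem_divisors he.1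
    have hesq : Squarefree e := Squarefree.squarefree_of_dvd heP s.prodPrimes_squarefree
    rw [← Finset.mul_sum]
    have h3 : ∑ d ∈ s.prodPrimes.divisors, (if (l ∣ d ∧ d ∣ e) then (μ d : ℝ) else 0) =
        ∑ d ∈ e.divisors.filter (fun d => l ∣ d), (μ d : ℝ) := by
      rw [← Finset.sum_filter]
      apply Finset.sum_congr _ (fun _ _ => rfl)
      ext d
      rw [Finset.mem_filter, Finset.mem_filter, Nat.mem_divisors, Nat.mem_divisors]
      constructor
      · rintro ⟨⟨_, _⟩, h2, h3⟩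
        exact ⟨⟨h3, fun h0 => by subst h0; simp at hesq⟩, h2⟩
      · rintro ⟨⟨h1, _⟩, h2⟩
        exact ⟨⟨h1.trans heP, hP0⟩, h2, h1⟩
    rw [h3, sum_moebius_between l e hesq]
    by_cases hel : e = l
    · rw [if_pos hel, if_pos hel, hel]
    · rw [if_neg hel, if_neg hel, mul_zero]
  rw [Finset.sum_congr rfl h2, Finset.sum_ite_eq']
  by_cases hlz : l ≤ z
  · rw [if_pos (Finset.mem_filter.2 ⟨hl, hlz⟩), if_pos hlz]
    ring
  · have hnot : l ∉ (s.prodPrimes.divisors).filter (· ≤ z) :=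
      fun h => hlz (Finset.mem_filter.1 h).2
    rw [if_neg hnot, if_neg hlz]

/-- the main sum for the optimal weights -/
lemma mainSum_eq (z : ℕ) (hz : 1 ≤ z) :
    s.mainSum (BoundingSieve.lambdaSquared (ww s z)) = (SS s z)⁻¹ := by
  rw [BoundingSieve.mainSum_lambdaSquared_eq_sum_mul_sum_sq]
  have h1 : ∀ l ∈ s.prodPrimes.divisors, (s.selbergTerms l)⁻¹ *
      (∑ d ∈ s.prodPrimes.divisors, if l ∣ d then s.nu d * ww s z d else 0) ^ 2 =
      if l ≤ z then s.selbergTerms l * ((SS s z)⁻¹) ^ 2 else 0 := by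
    intro l hl
    rw [yy s z l hl]
    by_cases hlz : l ≤ z
    · rw [if_pos hlz, if_pos hlz]
      have hlP := Nat.dvd_of_mem_divisors hl
      have hlsq : Squarefree l := Squarefree.squarefree_of_dvd hlP s.prodPrimes_squarefree
      have hg : s.selbergTerms l ≠ 0 := (BoundingSieve.selbergTerms_pos hlP).ne'
      have hmu : ((μ l : ℝ)) ^ 2 = 1 := by
        have := ArithmeticFunction.moebius_sq_eq_one_of_squarefree hlsq
        exact_mod_cast this
      rw [mul_pow, mul_pow, hmu]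
      field_simp
    · rw [if_neg hlz, if_neg hlz]
      simp
  rw [Finset.sum_congr rfl h1, ← Finset.sum_filter, ← Finset.sum_mul]
  have h2 : ∑ l ∈ (s.prodPrimes.divisors).filter (· ≤ z), s.selbergTerms l = SS s z := rfl
  rw [h2]
  have := (SS_pos s z hz).ne'
  field_simp

lemma ww_zero_of_lt (z d : ℕ) (hd : z < d) : ww s z d = 0 := by
  unfold ww
  split_ifs with h
  · have h1 : (s.prodPrimes.divisors).filter (fun e => d ∣ e ∧ e ≤ z) = ∅ := by
      rw [Finset.filter_eq_empty_iff]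
      rintro e he ⟨h2, h3⟩
      have he0 : 0 < e := Nat.pos_of_mem_divisors he
      have := Nat.le_of_dvd he0 h2
      omega
    rw [h1, Finset.sum_empty, mul_zero]
  · rfl

lemma ww_abs_le_one (z d : ℕ) (hz : 1 ≤ z) : |ww s z d| ≤ 1 := by
  unfold ww
  split_ifs with hdP
  swap
  · simp
  have hP0 : s.prodPrimes ≠ 0 := BoundingSieve.prodPrimes_ne_zero
  have hS := SS_pos s z hz
  have hnu : 0 < s.nu d := BoundingSieve.nu_pos_of_dvd_prodPrimes hdP
  have hdsq : Squarefree d := Squarefree.squarefree_of_dvd hdP s.prodPrimes_squarefree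
  have hd0 : 0 < d := Nat.pos_of_ne_zero (ne_zero_of_dvd_ne_zero hP0 hdP)
  set E := (s.prodPrimes.divisors).filter (fun e => d ∣ e ∧ e ≤ z) with hE
  have hgpos : ∀ e, e ∣ s.prodPrimes → 0 < s.selbergTerms e :=
    fun e he => BoundingSieve.selbergTerms_pos he
  have hEnn : 0 ≤ ∑ e ∈ E, s.selbergTerms e := by
    apply Finset.sum_nonneg
    intro e he
    rw [hE, Finset.mem_filter] at he
    exact (hgpos e (Nat.dvd_of_mem_divisors he.1)).le
  -- the key inequality
  have key : (s.nu d)⁻¹ * ∑ e ∈ E, s.selbergTerms e ≤ SS s z := by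
    have h1 := BoundingSieve.sum_divisors_selbergTerms_eq_selbergTerms_mul_nu_inv (s := s) hdP
    have hgd := hgpos d hdP
    have h2 : (s.nu d)⁻¹ = (s.selbergTerms d)⁻¹ *
        ∑ k ∈ d.divisors, s.selbergTerms k := by
      have h3 : ∑ k ∈ d.divisors, s.selbergTerms k =
          ∑ l ∈ s.prodPrimes.divisors, if l ∣ d then s.selbergTerms l else 0 := by
        rw [← Finset.sum_filter, Nat.divisors_filter_dvd_of_dvd hP0 hdP]
      rw [h3, h1]
      field_simp
    rw [h2]
    -- rewrite as a sum over pairs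
    have h4 : (s.selbergTerms d)⁻¹ * (∑ k ∈ d.divisors, s.selbergTerms k) *
        ∑ e ∈ E, s.selbergTerms e =
        ∑ q ∈ d.divisors ×ˢ E, s.selbergTerms (q.1 * (q.2 / d)) := by
      rw [Finset.sum_product, mul_assoc, Finset.sum_mul, Finset.mul_sum]
      apply Finset.sum_congr rfl
      intro k hk
      rw [Finset.mul_sum, Finset.mul_sum]
      apply Finset.sum_congr rfl
      intro e he
      rw [hE, Finset.mem_filter] at he
      obtain ⟨he1, ⟨m, rfl⟩, he3⟩ := he
      have heP := Nat.dvd_of_mem_divisors he1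
      have hesq : Squarefree (d * m) := Squarefree.squarefree_of_dvd heP s.prodPrimes_squarefree
      have hcop : Nat.Coprime d m := Nat.coprime_of_squarefree_mul hesq
      have hkm : Nat.Coprime k m :=
        Nat.Coprime.coprime_dvd_left (Nat.dvd_of_mem_divisors hk) hcop
      have hdiv : d * m / d = m := Nat.mul_div_cancel_left m hd0
      show (s.selbergTerms d)⁻¹ * (s.selbergTerms k * s.selbergTerms (d * m)) =
        s.selbergTerms (k * (d * m / d))
      rw [hdiv, BoundingSieve.selbergTerms_isMultiplicative.map_mul_of_coprime hcop,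
        BoundingSieve.selbergTerms_isMultiplicative.map_mul_of_coprime hkm]
      field_simp
    rw [h4]
    have hinj : Set.InjOn (fun q : ℕ × ℕ => q.1 * (q.2 / d)) (d.divisors ×ˢ E : Finset (ℕ × ℕ)) := by
      rintro ⟨k, e⟩ hke ⟨k', e'⟩ hke' heq
      rw [Finset.mem_coe, Finset.mem_product, hE, Finset.mem_filter] at hke hke'
      obtain ⟨hk, he1, ⟨m, hm⟩, he3⟩ := hke
      obtain ⟨hk', he1', ⟨m', hm'⟩, he3'⟩ := hke'
      simp only at hk he1 hm he3 hk' he1' hm' he3' heq
      subst hm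
      subst hm'
      rw [Nat.mul_div_cancel_left m hd0, Nat.mul_div_cancel_left m' hd0] at heq
      have hcop : Nat.Coprime d m := Nat.coprime_of_squarefree_mul
        (Squarefree.squarefree_of_dvd (Nat.dvd_of_mem_divisors he1) s.prodPrimes_squarefree)
      have hcop' : Nat.Coprime d m' := Nat.coprime_of_squarefree_mul
        (Squarefree.squarefree_of_dvd (Nat.dvd_of_mem_divisors he1') s.prodPrimes_squarefree)
      have hkd := Nat.dvd_of_mem_divisors hk
      have hkd' := Nat.dvd_of_mem_divisors hk'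
      have h5 : k ∣ k' := by
        have : k ∣ k' * m' := heq ▸ dvd_mul_right k m
        exact (Nat.Coprime.coprime_dvd_left hkd hcop').dvd_of_dvd_mul_right this
      have h6 : k' ∣ k := by
        have : k' ∣ k * m := heq.symm ▸ dvd_mul_right k' m'
        exact (Nat.Coprime.coprime_dvd_left hkd' hcop).dvd_of_dvd_mul_right this
      have h7 : k = k' := Nat.dvd_antisymm h5 h6
      subst h7
      have hk0 : 0 < k := Nat.pos_of_mem_divisors hk
      have h8 : m = m' := Nat.eq_of_mul_eq_mul_left hk0 heq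
      rw [h8]
    rw [← Finset.sum_image (f := fun n => s.selbergTerms n) hinj]
    unfold SS
    apply Finset.sum_le_sum_of_subset_of_nonneg
    · intro n hn
      rw [Finset.mem_image] at hn
      obtain ⟨⟨k, e⟩, hke, rfl⟩ := hn
      rw [Finset.mem_product, hE, Finset.mem_filter] at hke
      obtain ⟨hk, he1, ⟨m, hm⟩, he3⟩ := hke
      simp only at hk he1 hm he3 ⊢
      subst hm
      rw [Nat.mul_div_cancel_left m hd0, Finset.mem_filter, Nat.mem_divisors]
      have hkd := Nat.dvd_of_mem_divisors hk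
      have h5 : k * m ∣ d * m := Nat.mul_dvd_mul_right hkd m
      have he0 : 0 < d * m := Nat.pos_of_mem_divisors he1
      exact ⟨⟨h5.trans (Nat.dvd_of_mem_divisors he1), hP0⟩, (Nat.le_of_dvd he0 h5).trans he3⟩
    · intro n hn _
      rw [Finset.mem_filter] at hn
      exact (hgpos n (Nat.dvd_of_mem_divisors hn.1)).le
  have hmu : |(μ d : ℝ)| ≤ 1 := by
    have := ArithmeticFunction.abs_moebius_le_one (n := d)
    exact_mod_cast this
  rw [show (μ d : ℝ) * (s.nu d)⁻¹ * (SS s z)⁻¹ * ∑ e ∈ E, s.selbergTerms e =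
    (μ d : ℝ) * (((s.nu d)⁻¹ * ∑ e ∈ E, s.selbergTerms e) * (SS s z)⁻¹) by ring, abs_mul]
  have h5 : |((s.nu d)⁻¹ * ∑ e ∈ E, s.selbergTerms e) * (SS s z)⁻¹| ≤ 1 := by
    rw [abs_of_nonneg (by positivity), ← div_eq_mul_inv, div_le_one hS]
    exact key
  calc |(μ d : ℝ)| * _ ≤ 1 * 1 := mul_le_mul hmu h5 (abs_nonneg _) zero_le_one
    _ = 1 := one_mul _

/-- the error sum for the optimal weights -/
lemma errSum_le (z : ℕ) (hz : 1 ≤ z) :
    s.errSum (BoundingSieve.lambdaSquared (ww s z)) ≤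
      ∑ d₁ ∈ (s.prodPrimes.divisors).filter (· ≤ z),
        ∑ d₂ ∈ (s.prodPrimes.divisors).filter (· ≤ z), |s.rem (Nat.lcm d₁ d₂)| := by
  unfold BoundingSieve.errSum
  have hP0 : s.prodPrimes ≠ 0 := BoundingSieve.prodPrimes_ne_zero
  have h1 : ∀ d ∈ s.prodPrimes.divisors,
      |BoundingSieve.lambdaSquared (ww s z) d| * |s.rem d| ≤
      ∑ d₁ ∈ (s.prodPrimes.divisors).filter (· ≤ z),
        ∑ d₂ ∈ (s.prodPrimes.divisors).filter (· ≤ z),
          if d = Nat.lcm d₁ d₂ then |s.rem d| else 0 := by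
    intro d hd
    have hdP := Nat.dvd_of_mem_divisors hd
    unfold BoundingSieve.lambdaSquared
    have h2 : |∑ d1 ∈ d.divisors, ∑ d2 ∈ d.divisors,
        (if d = Nat.lcm d1 d2 then ww s z d1 * ww s z d2 else 0)| ≤
        ∑ d1 ∈ d.divisors, ∑ d2 ∈ d.divisors,
          |if d = Nat.lcm d1 d2 then ww s z d1 * ww s z d2 else 0| := by
      refine (Finset.abs_sum_le_sum_abs _ _).trans ?_
      apply Finset.sum_le_sum
      intro d1 _
      exact Finset.abs_sum_le_sum_abs _ _
    have h3 : ∑ d1 ∈ d.divisors, ∑ d2 ∈ d.divisors,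
          |if d = Nat.lcm d1 d2 then ww s z d1 * ww s z d2 else 0| ≤
        ∑ d₁ ∈ (s.prodPrimes.divisors).filter (· ≤ z),
          ∑ d₂ ∈ (s.prodPrimes.divisors).filter (· ≤ z),
            if d = Nat.lcm d₁ d₂ then (1 : ℝ) else 0 := by
      have hterm : ∀ d1 d2 : ℕ,
          |if d = Nat.lcm d1 d2 then ww s z d1 * ww s z d2 else 0| ≤
            if (d1 ≤ z ∧ d2 ≤ z) then (if d = Nat.lcm d1 d2 then (1 : ℝ) else 0) else 0 := by
        intro d1 d2
        by_cases h : d = Nat.lcm d1 d2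
        · rw [if_pos h, if_pos h, abs_mul]
          by_cases hz12 : d1 ≤ z ∧ d2 ≤ z
          · rw [if_pos hz12]
            calc |ww s z d1| * |ww s z d2| ≤ 1 * 1 :=
                  mul_le_mul (ww_abs_le_one s z d1 hz) (ww_abs_le_one s z d2 hz)
                    (abs_nonneg _) zero_le_one
              _ = 1 := one_mul _
          · rw [if_neg hz12]
            rcases not_and_or.1 hz12 with h' | h'
            · rw [ww_zero_of_lt s z d1 (by omega)]; simp
            · rw [ww_zero_of_lt s z d2 (by omega)]; simp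
        · rw [if_neg h, if_neg h]; simp
      have hdsub : d.divisors ⊆ s.prodPrimes.divisors := Nat.divisors_subset_of_dvd hP0 hdP
      calc ∑ d1 ∈ d.divisors, ∑ d2 ∈ d.divisors,
            |if d = Nat.lcm d1 d2 then ww s z d1 * ww s z d2 else 0|
          ≤ ∑ d1 ∈ d.divisors, ∑ d2 ∈ d.divisors,
            (if (d1 ≤ z ∧ d2 ≤ z) then (if d = Nat.lcm d1 d2 then (1 : ℝ) else 0) else 0) := by
            apply Finset.sum_le_sum; intro d1 _
            apply Finset.sum_le_sum; intro d2 _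
            exact hterm d1 d2
        _ ≤ ∑ d1 ∈ s.prodPrimes.divisors, ∑ d2 ∈ s.prodPrimes.divisors,
            (if (d1 ≤ z ∧ d2 ≤ z) then (if d = Nat.lcm d1 d2 then (1 : ℝ) else 0) else 0) := by
            have hnn : ∀ d1 d2 : ℕ, (0 : ℝ) ≤
                (if (d1 ≤ z ∧ d2 ≤ z) then (if d = Nat.lcm d1 d2 then (1 : ℝ) else 0) else 0) := by
              intro d1 d2
              split_ifs <;> norm_num
            refine (Finset.sum_le_sum_of_subset_of_nonneg hdsub (fun d1 _ _ =>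
              Finset.sum_nonneg (fun d2 _ => hnn d1 d2))).trans ?_
            apply Finset.sum_le_sum; intro d1 _
            exact Finset.sum_le_sum_of_subset_of_nonneg hdsub (fun d2 _ _ => hnn d1 d2)
        _ = _ := by
            rw [Finset.sum_filter]
            apply Finset.sum_congr rfl
            intro d1 _
            by_cases h1 : d1 ≤ z
            · rw [if_pos h1, Finset.sum_filter]
              apply Finset.sum_congr rfl
              intro d2 _
              by_cases h2 : d2 ≤ z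
              · rw [if_pos ⟨h1, h2⟩, if_pos h2]
              · rw [if_neg (fun h => h2 h.2), if_neg h2]
            · rw [if_neg h1]
              apply Finset.sum_eq_zero
              intro d2 _
              rw [if_neg (fun h => h1 h.1)]
    calc _ ≤ (∑ d₁ ∈ (s.prodPrimes.divisors).filter (· ≤ z),
          ∑ d₂ ∈ (s.prodPrimes.divisors).filter (· ≤ z),
            if d = Nat.lcm d₁ d₂ then (1 : ℝ) else 0) * |s.rem d| :=
          mul_le_mul_of_nonneg_right (h2.trans h3) (abs_nonneg _)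
      _ = _ := by
          rw [Finset.sum_mul]
          apply Finset.sum_congr rfl; intro d1 _
          rw [Finset.sum_mul]
          apply Finset.sum_congr rfl; intro d2 _
          rw [ite_mul, one_mul, zero_mul]
  refine (Finset.sum_le_sum h1).trans ?_
  rw [Finset.sum_comm]
  apply Finset.sum_le_sum
  intro d1 hd1
  rw [Finset.sum_comm]
  apply Finset.sum_le_sum
  intro d2 hd2
  rw [Finset.mem_filter] at hd1 hd2
  have hlcm : Nat.lcm d1 d2 ∈ s.prodPrimes.divisors :=
    Nat.mem_divisors.2 ⟨Nat.lcm_dvd (Nat.dvd_of_mem_divisors hd1.1)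
      (Nat.dvd_of_mem_divisors hd2.1), hP0⟩
  have h4 : ∀ d ∈ s.prodPrimes.divisors, (if d = Nat.lcm d1 d2 then |s.rem d| else 0) =
      if d = Nat.lcm d1 d2 then |s.rem (Nat.lcm d1 d2)| else 0 := by
    intro d _
    by_cases h : d = Nat.lcm d1 d2
    · rw [if_pos h, if_pos h, h]
    · rw [if_neg h, if_neg h]
  rw [Finset.sum_congr rfl h4, Finset.sum_ite_eq', if_pos hlcm]

/-- **Selberg's upper bound sieve** -/
theorem selberg (z : ℕ) (hz : 1 ≤ z) :
    s.siftedSum ≤ s.totalMass * (SS s z)⁻¹ +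
      ∑ d₁ ∈ (s.prodPrimes.divisors).filter (· ≤ z),
        ∑ d₂ ∈ (s.prodPrimes.divisors).filter (· ≤ z), |s.rem (Nat.lcm d₁ d₂)| := by
  have h1 := BoundingSieve.siftedSum_le_mainSum_errSum_of_upperMoebius (s := s)
    (BoundingSieve.lambdaSquared (ww s z)) (BoundingSieve.upperMoebius_lambdaSquared _ (ww_one s z hz))
  rw [mainSum_eq s z hz] at h1
  linarith [errSum_le s z hz]


end Pool.Agent.Lib.MP_dde2f1_nt.Sieve
end

/- module SieveSum (Selberg sieve library of helper24) -/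
section
/-!
# `log N ≤ (k/φ(k)) ∑ 1/φ(a)` over squarefree `a ≤ N` coprime to `k`
-/

open Finset

namespace Pool.Agent.Lib.MP_dde2f1_nt.Sieve


/-- the part of the radical of `n` that is coprime to `k` -/
def rk (k n : ℕ) : ℕ := ∏ p ∈ n.primeFactors \ k.primeFactors, p

/-- reciprocal as a monoid hom -/
noncomputable def invHom : ℕ →* ℝ where
  toFun n := (n : ℝ)⁻¹
  map_one' := by simp
  map_mul' a b := by push_cast; rw [mul_inv]

/-- `n / φ(n)` as a product -/
lemma inv_ratio (n : ℕ) (hn : 0 < n) :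
    ∏ p ∈ n.primeFactors, (1 - (p : ℝ)⁻¹)⁻¹ = (n : ℝ) / n.totient := by
  have h := Nat.totient_eq_mul_prod_factors n
  have h' : (n.totient : ℝ) = n * ∏ p ∈ n.primeFactors, (1 - (p : ℝ)⁻¹) := by
    have := congrArg (fun q : ℚ => (q : ℝ)) h
    push_cast at this
    exact this
  rw [h', Finset.prod_inv_distrib]
  have hn' : (n : ℝ) ≠ 0 := by positivity
  have hp : ∏ p ∈ n.primeFactors, (1 - (p : ℝ)⁻¹) ≠ 0 := by
    rw [Finset.prod_ne_zero_iff]
    intro p hp
    have hpp := Nat.prime_of_mem_primeFactors hp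
    have : (1 : ℝ) < p := by exact_mod_cast hpp.one_lt
    have h2 : (p : ℝ)⁻¹ < 1 := inv_lt_one_of_one_lt₀ this
    linarith
  field_simp

lemma rk_props (k n : ℕ) (hk : k ≠ 0) :
    rk k n ∣ n ∧ Squarefree (rk k n) ∧ (rk k n).Coprime k ∧
      (rk k n).primeFactors = n.primeFactors \ k.primeFactors := by
  have hpr : ∀ p ∈ n.primeFactors \ k.primeFactors, p.Prime := by
    intro p hp
    rw [Finset.mem_sdiff] at hp
    exact Nat.prime_of_mem_primeFactors hp.1
  have hpf : (rk k n).primeFactors = n.primeFactors \ k.primeFactors := Nat.primeFactors_prod hpr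
  have hsq : Squarefree (rk k n) := by
    unfold rk
    refine Finset.squarefree_prod_of_pairwise_isCoprime (fun p hp q hq hpq ↦ ?_)
      fun p hp ↦ (hpr p hp).squarefree
    simp only [← Nat.coprime_iff_isRelPrime]
    exact (Nat.coprime_primes (hpr p hp) (hpr q hq)).2 hpq
  refine ⟨?_, hsq, ?_, hpf⟩
  · unfold rk
    exact (Finset.prod_dvd_prod_of_subset _ _ _ Finset.sdiff_subset).trans (Nat.prod_primeFactors_dvd n)
  · unfold rk
    apply Nat.Coprime.prod_left
    intro p hp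
    have hpp := hpr p hp
    rw [Finset.mem_sdiff] at hp
    rw [Nat.Prime.coprime_iff_not_dvd hpp]
    intro hd
    exact hp.2 (Nat.mem_primeFactors.2 ⟨hpp, hd, hk⟩)

/-- the fibre sum -/
lemma fibre (k N a : ℕ) (hk : 0 < k) (ha : 0 < a) (hcop : a.Coprime k) :
    ∑ n ∈ (Finset.Icc 1 N).filter (fun n => rk k n = a), (n : ℝ)⁻¹ ≤
      ((k : ℝ) / k.totient) * ((a.totient : ℝ)⁻¹) := by
  classical
  set s := (a * k).primeFactors with hs
  have H := EulerProduct.summable_and_hasSum_factoredNumbers_prod_filter_prime_geometric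
    (f := invHom) (by
      intro p hp
      have : (1 : ℝ) < p := by exact_mod_cast hp.one_lt
      have h2 : (p : ℝ)⁻¹ < 1 := inv_lt_one_of_one_lt₀ this
      show ‖(p : ℝ)⁻¹‖ < 1
      rw [Real.norm_of_nonneg (by positivity)]
      exact h2) s
  have hfil : s.filter Nat.Prime = s := by
    rw [Finset.filter_eq_self]
    intro p hp
    exact Nat.prime_of_mem_primeFactors hp
  rw [hfil] at H
  have hval : ∏ p ∈ s, (1 - invHom p)⁻¹ = ((a * k : ℕ) : ℝ) / (a * k).totient := by
    rw [← inv_ratio (a * k) (Nat.mul_pos ha hk)]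
    rfl
  rw [hval] at H
  -- map n ↦ n / a
  have hmem : ∀ n ∈ (Finset.Icc 1 N).filter (fun n => rk k n = a),
      n / a ∈ Nat.factoredNumbers s ∧ n = a * (n / a) := by
    intro n hn
    rw [Finset.mem_filter, Finset.mem_Icc] at hn
    obtain ⟨⟨hn1, hn2⟩, hn3⟩ := hn
    have hp := rk_props k n (by omega)
    rw [hn3] at hp
    have heq : n = a * (n / a) := (Nat.mul_div_cancel' hp.1).symm
    refine ⟨?_, heq⟩
    rw [Nat.mem_factoredNumbers']
    intro p hpp hpd
    rw [hs, Nat.mem_primeFactors]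
    refine ⟨hpp, ?_, by positivity⟩
    have hpn : p ∣ n := by rw [heq]; exact hpd.trans (dvd_mul_left _ _)
    by_cases hpk : p ∣ k
    · exact hpk.trans (dvd_mul_left _ _)
    · have : p ∈ a.primeFactors := by
        rw [hp.2.2.2, Finset.mem_sdiff]
        refine ⟨Nat.mem_primeFactors.2 ⟨hpp, hpn, by omega⟩, ?_⟩
        intro h
        exact hpk (Nat.dvd_of_mem_primeFactors h)
      exact (Nat.dvd_of_mem_primeFactors this).trans (dvd_mul_right _ _)
  have hsum : ∑ n ∈ (Finset.Icc 1 N).filter (fun n => rk k n = a), (n : ℝ)⁻¹ =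
      (a : ℝ)⁻¹ * ∑ m ∈ ((Finset.Icc 1 N).filter (fun n => rk k n = a)).image (fun n => n / a),
        (m : ℝ)⁻¹ := by
    rw [Finset.sum_image, Finset.mul_sum]
    · apply Finset.sum_congr rfl
      intro n hn
      have := (hmem n hn).2
      have h2 : (n : ℝ) = (a : ℝ) * ((n / a : ℕ) : ℝ) := by exact_mod_cast this
      rw [h2, mul_inv]
    · intro n hn m hm hnm
      rw [(hmem n hn).2, (hmem m hm).2]
      exact congrArg (fun t => a * t) hnm
  rw [hsum]
  have hle : ∑ m ∈ ((Finset.Icc 1 N).filter (fun n => rk k n = a)).image (fun n => n / a),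
        (m : ℝ)⁻¹ ≤ ((a * k : ℕ) : ℝ) / (a * k).totient := by
    rw [← H.2.tsum_eq]
    have hsub : ∀ m ∈ ((Finset.Icc 1 N).filter (fun n => rk k n = a)).image (fun n => n / a),
        m ∈ Nat.factoredNumbers s := by
      intro m hm
      rw [Finset.mem_image] at hm
      obtain ⟨n, hn, rfl⟩ := hm
      exact (hmem n hn).1
    have h1 : ∑ m ∈ ((Finset.Icc 1 N).filter (fun n => rk k n = a)).image (fun n => n / a),
        (m : ℝ)⁻¹ = ∑ m ∈ (((Finset.Icc 1 N).filter (fun n => rk k n = a)).image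
          (fun n => n / a)).subtype (fun m => m ∈ Nat.factoredNumbers s), invHom (m : ℕ) := by
      rw [Finset.sum_subtype_of_mem (f := fun m : ℕ => invHom m)]
      · rfl
      · exact hsub
    rw [h1]
    apply Summable.sum_le_tsum
    · intro m _
      show 0 ≤ ((m : ℕ) : ℝ)⁻¹
      positivity
    · exact H.2.summable
  have hcopt : ((a * k).totient : ℝ) = a.totient * k.totient := by
    rw [Nat.totient_mul hcop]; push_cast; rfl
  have ha' : (a : ℝ) ≠ 0 := by positivity
  calc (a : ℝ)⁻¹ * ∑ m ∈ ((Finset.Icc 1 N).filter (fun n => rk k n = a)).image (fun n => n / a),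
        (m : ℝ)⁻¹ ≤ (a : ℝ)⁻¹ * (((a * k : ℕ) : ℝ) / (a * k).totient) := by gcongr
    _ = ((k : ℝ) / k.totient) * ((a.totient : ℝ)⁻¹) := by
        rw [hcopt]
        push_cast
        have h1 : (a.totient : ℝ) ≠ 0 := by
          have := Nat.totient_pos.2 ha
          positivity
        have h2 : (k.totient : ℝ) ≠ 0 := by
          have := Nat.totient_pos.2 hk
          positivity
        field_simp

/-- `log (N+1) ≤ (k/φ(k)) ∑_{a ≤ N, μ²(a)=1, (a,k)=1} 1/φ(a)` -/
lemma log_le_sum (k N : ℕ) (hk : 0 < k) :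
    Real.log ((N : ℝ) + 1) ≤ ((k : ℝ) / k.totient) *
      ∑ a ∈ (Finset.Icc 1 N).filter (fun a => Squarefree a ∧ a.Coprime k),
        ((a.totient : ℝ)⁻¹) := by
  classical
  have h1 : Real.log ((N : ℝ) + 1) ≤ ∑ n ∈ Finset.Icc 1 N, (n : ℝ)⁻¹ := by
    have h := log_add_one_le_harmonic N
    have h2 : ((harmonic N : ℚ) : ℝ) = ∑ n ∈ Finset.Icc 1 N, (n : ℝ)⁻¹ := by
      rw [harmonic_eq_sum_Icc]
      push_cast
      rfl
    rw [h2] at h
    push_cast at h
    exact h
  refine h1.trans ?_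
  rw [← Finset.sum_fiberwise_of_maps_to
    (t := (Finset.Icc 1 N).filter (fun a => Squarefree a ∧ a.Coprime k))
    (g := fun n => rk k n) (f := fun n => (n : ℝ)⁻¹) (s := Finset.Icc 1 N)]
  · rw [Finset.mul_sum]
    apply Finset.sum_le_sum
    intro a ha
    rw [Finset.mem_filter, Finset.mem_Icc] at ha
    exact fibre k N a hk (by omega) ha.2.2
  · intro n hn
    rw [Finset.mem_Icc] at hn
    have hp := rk_props k n (by omega)
    rw [Finset.mem_filter, Finset.mem_Icc]
    refine ⟨⟨?_, ?_⟩, hp.2.1, hp.2.2.1⟩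
    · exact Nat.pos_of_dvd_of_pos hp.1 (by omega)
    · exact (Nat.le_of_dvd (by omega) hp.1).trans hn.2

end Pool.Agent.Lib.MP_dde2f1_nt.Sieve
end

/- module SieveTwo (Selberg sieve library of helper24) -/
section
open Finset ArithmeticFunction

namespace Pool.Agent.Lib.MP_dde2f1_nt.Sieve

/-- `1/φ` as an arithmetic function -/
noncomputable def iphi : ArithmeticFunction ℝ := ⟨fun n => ((n.totient : ℝ))⁻¹, by simp⟩

lemma iphi_apply (n : ℕ) : iphi n = ((n.totient : ℝ))⁻¹ := rfl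

lemma iphi_mult : iphi.IsMultiplicative := by
  rw [ArithmeticFunction.IsMultiplicative.iff_ne_zero]
  refine ⟨by simp [iphi_apply], ?_⟩
  intro m n _ _ hmn
  rw [iphi_apply, iphi_apply, iphi_apply, Nat.totient_mul hmn]
  push_cast
  rw [mul_inv]

/-- `n/φ(n)` as an arithmetic function -/
noncomputable def rphi : ArithmeticFunction ℝ := ⟨fun n => (n : ℝ) * ((n.totient : ℝ))⁻¹, by simp⟩

lemma rphi_apply (n : ℕ) : rphi n = (n : ℝ) * ((n.totient : ℝ))⁻¹ := rfl

lemma rphi_mult : rphi.IsMultiplicative := by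
  rw [ArithmeticFunction.IsMultiplicative.iff_ne_zero]
  refine ⟨by simp [rphi_apply], ?_⟩
  intro m n _ _ hmn
  rw [rphi_apply, rphi_apply, rphi_apply, Nat.totient_mul hmn]
  push_cast
  rw [mul_inv]
  ring

lemma iphi_prime (p : ℕ) (hp : p.Prime) : iphi p = ((p : ℝ) - 1)⁻¹ := by
  rw [iphi_apply, Nat.totient_prime hp, Nat.cast_sub hp.one_lt.le]
  simp

lemma rphi_prime (p : ℕ) (hp : p.Prime) : rphi p = (p : ℝ) * ((p : ℝ) - 1)⁻¹ := by
  rw [rphi_apply, Nat.totient_prime hp, Nat.cast_sub hp.one_lt.le]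
  simp

lemma sum_iphi (a : ℕ) (ha : Squarefree a) :
    ∑ c ∈ a.divisors, iphi c = rphi a := by
  rw [← iphi_mult.prodPrimeFactors_one_add_of_squarefree ha, ← rphi_mult.prod_primeFactors ha]
  apply Finset.prod_congr rfl
  intro p hp
  have hpp := Nat.prime_of_mem_primeFactors hp
  rw [iphi_prime p hpp, rphi_prime p hpp]
  have : (1 : ℝ) < p := by exact_mod_cast hpp.one_lt
  have h2 : (p : ℝ) - 1 ≠ 0 := by linarith
  field_simp
  ring

/-- divisors of `e` that are multiples of `m`, where `e = m * a` -/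
lemma divisors_mul_image (m a : ℕ) (hm : m ≠ 0) (ha : a ≠ 0) :
    (m * a).divisors.filter (fun d => m ∣ d) = a.divisors.image (fun k => m * k) := by
  ext d
  rw [Finset.mem_filter, Nat.mem_divisors, Finset.mem_image]
  constructor
  · rintro ⟨⟨h1, h2⟩, ⟨k, rfl⟩⟩
    refine ⟨k, Nat.mem_divisors.2 ⟨?_, ha⟩, rfl⟩
    exact (Nat.mul_dvd_mul_iff_left (Nat.pos_of_ne_zero hm)).1 h1
  · rintro ⟨k, hk, rfl⟩
    exact ⟨⟨Nat.mul_dvd_mul_left m (Nat.dvd_of_mem_divisors hk), mul_ne_zero hm ha⟩,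
      dvd_mul_right m k⟩

lemma inner_sum (e a : ℕ) (he : Squarefree e) (hae : a ∣ e) :
    ∑ b ∈ e.divisors.filter (fun b => (e / a) ∣ b), iphi b = iphi (e / a) * rphi a := by
  have he0 : e ≠ 0 := he.ne_zero
  have ha0 : a ≠ 0 := by rintro rfl; exact he0 (Nat.eq_zero_of_zero_dvd hae)
  have hea : (e / a) * a = e := Nat.div_mul_cancel hae
  have hm0 : e / a ≠ 0 := by
    intro h
    rw [h, zero_mul] at hea
    exact he0 hea.symm
  have hcop : Nat.Coprime (e / a) a := by
    apply Nat.coprime_of_squarefree_mul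
    rw [hea]; exact he
  have h1 : e.divisors.filter (fun b => (e / a) ∣ b) = a.divisors.image (fun k => (e / a) * k) := by
    have := divisors_mul_image (e / a) a hm0 ha0
    rw [hea] at this
    exact this
  rw [h1, Finset.sum_image (by
      intro x _ y _ hxy
      exact Nat.eq_of_mul_eq_mul_left (Nat.pos_of_ne_zero hm0) hxy),
    ← sum_iphi a (Squarefree.squarefree_of_dvd hae he), Finset.mul_sum]
  apply Finset.sum_congr rfl
  intro c hc
  exact iphi_mult.map_mul_of_coprime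
    (Nat.Coprime.coprime_dvd_right (Nat.dvd_of_mem_divisors hc) hcop)

/-- the sum `T(e)` -/
lemma T_eq (e : ℕ) (he : Squarefree e) :
    ∑ a ∈ e.divisors, iphi a * ∑ b ∈ e.divisors.filter (fun b => (e / a) ∣ b), iphi b =
      ∏ p ∈ e.primeFactors, ((2 * (p : ℝ) - 1) / ((p : ℝ) - 1) ^ 2) := by
  have h1 : ∀ a ∈ e.divisors,
      iphi a * ∑ b ∈ e.divisors.filter (fun b => (e / a) ∣ b), iphi b = iphi e * rphi a := by
    intro a ha
    have hae := Nat.dvd_of_mem_divisors ha
    rw [inner_sum e a he hae]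
    have hea : a * (e / a) = e := Nat.mul_div_cancel' hae
    have hcop : Nat.Coprime a (e / a) := by
      apply Nat.coprime_of_squarefree_mul
      rw [hea]; exact he
    have h2 : iphi e = iphi a * iphi (e / a) := by
      conv_lhs => rw [← hea]
      exact iphi_mult.map_mul_of_coprime hcop
    rw [h2]
    ring
  rw [Finset.sum_congr rfl h1, ← Finset.mul_sum,
    ← rphi_mult.prodPrimeFactors_one_add_of_squarefree he, ← iphi_mult.prod_primeFactors he,
    ← Finset.prod_mul_distrib]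
  apply Finset.prod_congr rfl
  intro p hp
  have hpp := Nat.prime_of_mem_primeFactors hp
  rw [iphi_prime p hpp, rphi_prime p hpp]
  have : (1 : ℝ) < p := by exact_mod_cast hpp.one_lt
  have h2 : (p : ℝ) - 1 ≠ 0 := by linarith
  field_simp
  ring

/-- square of the linear sieve sum is at most the sum of `T` -/
lemma sq_le (P y z : ℕ) (hP : Squarefree P) (hyz : y * y ≤ z) :
    (∑ a ∈ P.divisors.filter (· ≤ y), iphi a) ^ 2 ≤
      ∑ e ∈ P.divisors.filter (· ≤ z),
        ∏ p ∈ e.primeFactors, ((2 * (p : ℝ) - 1) / ((p : ℝ) - 1) ^ 2) := by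
  classical
  set A := P.divisors.filter (· ≤ y) with hA
  set E := P.divisors.filter (· ≤ z) with hE
  have hpos : ∀ n : ℕ, 0 ≤ iphi n := fun n => by rw [iphi_apply]; positivity
  have h1 : (∑ a ∈ A, iphi a) ^ 2 = ∑ x ∈ A ×ˢ A, iphi x.1 * iphi x.2 := by
    rw [sq, Finset.sum_mul_sum, Finset.sum_product]
  rw [h1]
  have hmaps : ∀ x ∈ A ×ˢ A, Nat.lcm x.1 x.2 ∈ E := by
    intro x hx
    rw [Finset.mem_product, hA, Finset.mem_filter, Finset.mem_filter, Nat.mem_divisors,
      Nat.mem_divisors] at hx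
    rw [hE, Finset.mem_filter, Nat.mem_divisors]
    refine ⟨⟨Nat.lcm_dvd hx.1.1.1 hx.2.1.1, hP.ne_zero⟩, ?_⟩
    have hx1 : 0 < x.1 := Nat.pos_of_dvd_of_pos hx.1.1.1 (Nat.pos_of_ne_zero hP.ne_zero)
    have hx2 : 0 < x.2 := Nat.pos_of_dvd_of_pos hx.2.1.1 (Nat.pos_of_ne_zero hP.ne_zero)
    calc Nat.lcm x.1 x.2 ≤ x.1 * x.2 :=
          Nat.le_of_dvd (Nat.mul_pos hx1 hx2) (Nat.lcm_dvd_mul _ _)
      _ ≤ y * y := Nat.mul_le_mul hx.1.2 hx.2.2
      _ ≤ z := hyz
  rw [← Finset.sum_fiberwise_of_maps_to hmaps]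
  apply Finset.sum_le_sum
  intro e he
  rw [hE, Finset.mem_filter, Nat.mem_divisors] at he
  have hesq : Squarefree e := Squarefree.squarefree_of_dvd he.1.1 hP
  have he0 : e ≠ 0 := hesq.ne_zero
  rw [← T_eq e hesq]
  have h2 : ∑ a ∈ e.divisors, iphi a * ∑ b ∈ e.divisors.filter (fun b => (e / a) ∣ b), iphi b =
      ∑ x ∈ e.divisors.sigma (fun a => e.divisors.filter (fun b => (e / a) ∣ b)),
        iphi x.1 * iphi x.2 := by
    rw [Finset.sum_sigma]
    apply Finset.sum_congr rfl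
    intro a _
    rw [Finset.mul_sum]
  rw [h2]
  -- inject
  have h3 : ∑ x ∈ (A ×ˢ A).filter (fun x => Nat.lcm x.1 x.2 = e), iphi x.1 * iphi x.2 =
      ∑ x ∈ ((A ×ˢ A).filter (fun x => Nat.lcm x.1 x.2 = e)).image
        (fun x => (⟨x.1, x.2⟩ : (_ : ℕ) × ℕ)), iphi x.1 * iphi x.2 := by
    rw [Finset.sum_image]
    intro x _ y _ hxy
    simp only [Sigma.mk.injEq, heq_eq_eq] at hxy
    exact Prod.ext hxy.1 hxy.2
  rw [h3]
  apply Finset.sum_le_sum_of_subset_of_nonneg
  · intro x hx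
    rw [Finset.mem_image] at hx
    obtain ⟨w, hw, rfl⟩ := hx
    rw [Finset.mem_filter] at hw
    rw [Finset.mem_sigma, Nat.mem_divisors, Finset.mem_filter, Nat.mem_divisors]
    have h4 : w.1 ∣ e := hw.2 ▸ Nat.dvd_lcm_left _ _
    have h5 : w.2 ∣ e := hw.2 ▸ Nat.dvd_lcm_right _ _
    refine ⟨⟨h4, he0⟩, ⟨h5, he0⟩, ?_⟩
    show e / w.1 ∣ w.2
    rw [Nat.div_dvd_iff_dvd_mul h4 (Nat.pos_of_dvd_of_pos h4 (Nat.pos_of_ne_zero he0))]
    rw [← hw.2]
    exact Nat.lcm_dvd_mul _ _
  · intro x _ _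
    exact mul_nonneg (hpos _) (hpos _)

end Pool.Agent.Lib.MP_dde2f1_nt.Sieve
end

/- module BrunTitchmarsh (Selberg sieve library of helper24) -/
section
open Finset ArithmeticFunction

namespace Pool.Agent.Lib.MP_dde2f1_nt.Sieve

/-- product of the primes up to `z` not dividing `k` -/
def PP (k z : ℕ) : ℕ := ∏ p ∈ (Finset.Icc 1 z).filter (fun p => p.Prime ∧ ¬ p ∣ k), p

lemma PP_primeFactors (k z : ℕ) :
    (PP k z).primeFactors = (Finset.Icc 1 z).filter (fun p => p.Prime ∧ ¬ p ∣ k) :=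
  Nat.primeFactors_prod (fun p hp => (Finset.mem_filter.1 hp).2.1)

lemma PP_squarefree (k z : ℕ) : Squarefree (PP k z) := by
  unfold PP
  refine Finset.squarefree_prod_of_pairwise_isCoprime (fun p hp q hq hpq ↦ ?_)
    fun p hp ↦ ((Finset.mem_filter.1 hp).2.1).squarefree
  simp only [← Nat.coprime_iff_isRelPrime]
  exact (Nat.coprime_primes ((Finset.mem_filter.1 hp).2.1) ((Finset.mem_filter.1 hq).2.1)).2 hpq

lemma prime_dvd_PP (k z p : ℕ) (hp : p.Prime) (h : p ∣ PP k z) : p ≤ z ∧ ¬ p ∣ k := by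
  have h1 : p ∈ (PP k z).primeFactors :=
    Nat.mem_primeFactors.2 ⟨hp, h, (PP_squarefree k z).ne_zero⟩
  rw [PP_primeFactors, Finset.mem_filter, Finset.mem_Icc] at h1
  exact ⟨h1.1.2, h1.2.2⟩

lemma dvd_PP (k z a : ℕ) (ha : Squarefree a) (haz : a ≤ z) (hak : a.Coprime k) : a ∣ PP k z := by
  rw [← Nat.prod_primeFactors_of_squarefree ha]
  unfold PP
  apply Finset.prod_dvd_prod_of_subset
  intro p hp
  have hpp := Nat.prime_of_mem_primeFactors hp
  have hpa := Nat.dvd_of_mem_primeFactors hp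
  rw [Finset.mem_filter, Finset.mem_Icc]
  refine ⟨⟨hpp.one_lt.le, (Nat.le_of_dvd (Nat.pos_of_ne_zero ha.ne_zero) hpa).trans haz⟩, hpp, ?_⟩
  intro hpk
  have := Nat.dvd_gcd hpa hpk
  rw [hak] at this
  exact hpp.one_lt.ne' (Nat.dvd_one.1 this)

lemma coprime_of_dvd_PP (k z a : ℕ) (h : a ∣ PP k z) : a.Coprime k := by
  rw [Nat.coprime_iff_gcd_eq_one]
  by_contra hne
  obtain ⟨p, hp, hpd⟩ := Nat.exists_prime_and_dvd hne
  have h1 : p ∣ a := hpd.trans (Nat.gcd_dvd_left _ _)
  have h2 : p ∣ k := hpd.trans (Nat.gcd_dvd_right _ _)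
  exact (prime_dvd_PP k z p hp (h1.trans h)).2 h2

/-- lower bound for the linear sieve sum -/
lemma linear_lower (k y z : ℕ) (hk : 0 < k) (hyz : y ≤ z) :
    ((k.totient : ℝ) / k) * Real.log ((y : ℝ) + 1) ≤
      ∑ a ∈ (PP k z).divisors.filter (· ≤ y), iphi a := by
  have h := log_le_sum k y hk
  have h1 : ∑ a ∈ (Finset.Icc 1 y).filter (fun a => Squarefree a ∧ a.Coprime k),
      ((a.totient : ℝ)⁻¹) ≤ ∑ a ∈ (PP k z).divisors.filter (· ≤ y), iphi a := by
    apply Finset.sum_le_sum_of_subset_of_nonneg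
    · intro a ha
      rw [Finset.mem_filter, Finset.mem_Icc] at ha
      rw [Finset.mem_filter, Nat.mem_divisors]
      exact ⟨⟨dvd_PP k z a ha.2.1 (ha.1.2.trans hyz) ha.2.2, (PP_squarefree k z).ne_zero⟩, ha.1.2⟩
    · intro a _ _
      positivity
  have hk' : (0 : ℝ) < k := by exact_mod_cast hk
  have ht : (0 : ℝ) < k.totient := by exact_mod_cast Nat.totient_pos.2 hk
  calc ((k.totient : ℝ) / k) * Real.log ((y : ℝ) + 1)
      ≤ ((k.totient : ℝ) / k) * (((k : ℝ) / k.totient) *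
      ∑ a ∈ (Finset.Icc 1 y).filter (fun a => Squarefree a ∧ a.Coprime k),
        ((a.totient : ℝ)⁻¹)) := by gcongr
    _ = ∑ a ∈ (Finset.Icc 1 y).filter (fun a => Squarefree a ∧ a.Coprime k),
        ((a.totient : ℝ)⁻¹) := by field_simp
    _ ≤ _ := h1

/-- counting a residue class -/
lemma count_ap (N d r : ℕ) (hd : 0 < d) :
    |(((Finset.Icc 1 N).filter (fun m => m ≡ r [MOD d])).card : ℝ) - (N : ℝ) / d| ≤ 1 := by
  have h := Nat.Ioc_filter_modEq_card 0 N hd r
  have h0 : Finset.Ioc 0 N = Finset.Icc 1 N := by ext; simp; omega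
  rw [h0] at h
  set C := ((Finset.Icc 1 N).filter (fun m => m ≡ r [MOD d])).card with hC
  have hq : (0 : ℚ) < d := by exact_mod_cast hd
  have a1 := Int.floor_le (((N : ℚ) - r) / d)
  have a2 := Int.lt_floor_add_one (((N : ℚ) - r) / d)
  have b1 := Int.floor_le ((((0 : ℕ) : ℚ) - r) / d)
  have b2 := Int.lt_floor_add_one ((((0 : ℕ) : ℚ) - r) / d)
  have hdiff : ((N : ℚ) - r) / d - (((0 : ℕ) : ℚ) - r) / d = N / d := by
    field_simp
    push_cast
    ring
  have hmono : ⌊(((0 : ℕ) : ℚ) - r) / d⌋ ≤ ⌊((N : ℚ) - r) / d⌋ := by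
    apply Int.floor_le_floor
    gcongr
    exact Nat.zero_le _
  rw [max_eq_left (by linarith)] at h
  have hCq : (C : ℚ) = (⌊((N : ℚ) - r) / d⌋ : ℚ) - (⌊(((0 : ℕ) : ℚ) - r) / d⌋ : ℚ) := by
    exact_mod_cast h
  have hQ : |(C : ℚ) - (N : ℚ) / d| ≤ 1 := by
    rw [abs_le]
    constructor
    · rw [hCq]; linarith
    · rw [hCq]; linarith
  have hR := (Rat.cast_le (K := ℝ)).2 hQ
  push_cast at hR
  exact hR

/-! ### Brun–Titchmarsh -/

/-- `1/d` as an arithmetic function -/
noncomputable def inu : ArithmeticFunction ℝ := ⟨fun n => (n : ℝ)⁻¹, by simp⟩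

lemma inu_apply (n : ℕ) : inu n = (n : ℝ)⁻¹ := rfl

lemma inu_mult : inu.IsMultiplicative := by
  rw [ArithmeticFunction.IsMultiplicative.iff_ne_zero]
  refine ⟨by simp [inu_apply], ?_⟩
  intro m n _ _ _
  rw [inu_apply, inu_apply, inu_apply]
  push_cast
  rw [mul_inv]

/-- the sieve for primes in a progression -/
noncomputable def apSieve (N q a z : ℕ) : BoundingSieve where
  support := (Finset.Icc 1 N).filter (fun n => n ≡ a [MOD q])
  prodPrimes := PP q z
  prodPrimes_squarefree := PP_squarefree q z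
  weights := fun _ => 1
  weights_nonneg := fun _ => zero_le_one
  totalMass := (N : ℝ) / q
  nu := inu
  nu_mult := inu_mult
  nu_pos_of_prime := by
    intro p hp _
    rw [inu_apply]
    have : (0 : ℝ) < p := by exact_mod_cast hp.pos
    positivity
  nu_lt_one_of_prime := by
    intro p hp _
    rw [inu_apply]
    have : (1 : ℝ) < p := by exact_mod_cast hp.one_lt
    exact inv_lt_one_of_one_lt₀ this

lemma ap_rem (N q a z e : ℕ) (hq : 0 < q) (he : e ∣ PP q z) :
    |(apSieve N q a z).rem e| ≤ 1 := by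
  have he0 : 0 < e := Nat.pos_of_dvd_of_pos he (Nat.pos_of_ne_zero (PP_squarefree q z).ne_zero)
  have hcop : e.Coprime q := coprime_of_dvd_PP q z e he
  have hrem : (apSieve N q a z).rem e =
      (∑ n ∈ (Finset.Icc 1 N).filter (fun n => n ≡ a [MOD q]), if e ∣ n then (1 : ℝ) else 0) -
        (e : ℝ)⁻¹ * ((N : ℝ) / q) := rfl
  rw [hrem]
  obtain ⟨r, hr1, hr2⟩ := Nat.chineseRemainder hcop 0 a
  have hset : ((Finset.Icc 1 N).filter (fun n => n ≡ a [MOD q])).filter (fun n => e ∣ n) =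
      (Finset.Icc 1 N).filter (fun n => n ≡ r [MOD (e * q)]) := by
    rw [Finset.filter_filter]
    apply Finset.filter_congr
    intro n _
    rw [← Nat.modEq_and_modEq_iff_modEq_mul hcop]
    constructor
    · rintro ⟨h1, h2⟩
      exact ⟨((Nat.modEq_zero_iff_dvd).2 h2).trans hr1.symm, h1.trans hr2.symm⟩
    · rintro ⟨h1, h2⟩
      exact ⟨h2.trans hr2, (Nat.modEq_zero_iff_dvd).1 (h1.trans hr1)⟩
  rw [← Finset.sum_filter, hset, Finset.sum_const, nsmul_eq_mul, mul_one]
  have h := count_ap N (e * q) r (Nat.mul_pos he0 hq)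
  have h2 : (e : ℝ)⁻¹ * ((N : ℝ) / q) = (N : ℝ) / ((e * q : ℕ) : ℝ) := by
    push_cast
    field_simp
  rw [h2]
  exact h

lemma ap_selberg (N q a z e : ℕ) (he : e ∣ PP q z) :
    (apSieve N q a z).selbergTerms e = iphi e := by
  have hsq : Squarefree e := Squarefree.squarefree_of_dvd he (PP_squarefree q z)
  rw [BoundingSieve.selbergTerms_apply]
  show inu e * ∏ p ∈ e.primeFactors, (1 - inu p)⁻¹ = iphi e
  rw [← inu_mult.prod_primeFactors hsq, ← iphi_mult.prod_primeFactors hsq,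
    ← Finset.prod_mul_distrib]
  apply Finset.prod_congr rfl
  intro p hp
  have hpp := Nat.prime_of_mem_primeFactors hp
  rw [iphi_prime p hpp, inu_apply]
  have : (1 : ℝ) < p := by exact_mod_cast hpp.one_lt
  have h2 : (p : ℝ) - 1 ≠ 0 := by linarith
  field_simp

/-- **Brun–Titchmarsh** (with explicit parameter) -/
theorem brun_titchmarsh (N q a y : ℕ) (hq : 0 < q) (hy : 1 ≤ y) :
    (((Finset.Icc 1 N).filter (fun p => p.Prime ∧ p ≡ a [MOD q])).card : ℝ) ≤
      (y : ℝ) + (N : ℝ) / (q.totient * Real.log ((y : ℝ) + 1)) + (y : ℝ) ^ 2 := by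
  classical
  set s := apSieve N q a y with hs
  have hmain := selberg s y hy
  have hlog : 0 < Real.log ((y : ℝ) + 1) := by
    apply Real.log_pos
    have : (1 : ℝ) ≤ y := by exact_mod_cast hy
    linarith
  have hq' : (0 : ℝ) < q := by exact_mod_cast hq
  have ht : (0 : ℝ) < q.totient := by exact_mod_cast Nat.totient_pos.2 hq
  -- lower bound for SS
  have hSS : ((q.totient : ℝ) / q) * Real.log ((y : ℝ) + 1) ≤ SS s y := by
    refine (linear_lower q y y hq le_rfl).trans ?_
    unfold SS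
    apply le_of_eq
    apply Finset.sum_congr rfl
    intro e he
    rw [Finset.mem_filter] at he
    exact (ap_selberg N q a y e (Nat.dvd_of_mem_divisors he.1)).symm
  have hSSpos : 0 < ((q.totient : ℝ) / q) * Real.log ((y : ℝ) + 1) := by positivity
  have hM : s.totalMass * (SS s y)⁻¹ ≤ (N : ℝ) / (q.totient * Real.log ((y : ℝ) + 1)) := by
    have h1 : (SS s y)⁻¹ ≤ (((q.totient : ℝ) / q) * Real.log ((y : ℝ) + 1))⁻¹ :=
      inv_anti₀ hSSpos hSS
    have h2 : s.totalMass = (N : ℝ) / q := rfl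
    rw [h2]
    calc (N : ℝ) / q * (SS s y)⁻¹ ≤
        (N : ℝ) / q * (((q.totient : ℝ) / q) * Real.log ((y : ℝ) + 1))⁻¹ := by gcongr
      _ = (N : ℝ) / (q.totient * Real.log ((y : ℝ) + 1)) := by field_simp
  -- error
  have hE : ∑ d₁ ∈ (s.prodPrimes.divisors).filter (· ≤ y),
      ∑ d₂ ∈ (s.prodPrimes.divisors).filter (· ≤ y), |s.rem (Nat.lcm d₁ d₂)| ≤ (y : ℝ) ^ 2 := by
    have hcard : (((s.prodPrimes.divisors).filter (· ≤ y)).card : ℝ) ≤ y := by
      have : ((s.prodPrimes.divisors).filter (· ≤ y)).card ≤ (Finset.Icc 1 y).card := by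
        apply Finset.card_le_card
        intro d hd
        rw [Finset.mem_filter] at hd
        rw [Finset.mem_Icc]
        exact ⟨Nat.pos_of_mem_divisors hd.1, hd.2⟩
      rw [Nat.card_Icc, Nat.add_sub_cancel] at this
      exact_mod_cast this
    calc ∑ d₁ ∈ (s.prodPrimes.divisors).filter (· ≤ y),
        ∑ d₂ ∈ (s.prodPrimes.divisors).filter (· ≤ y), |s.rem (Nat.lcm d₁ d₂)|
        ≤ ∑ d₁ ∈ (s.prodPrimes.divisors).filter (· ≤ y),
        ∑ d₂ ∈ (s.prodPrimes.divisors).filter (· ≤ y), (1 : ℝ) := by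
          apply Finset.sum_le_sum
          intro d₁ h1
          apply Finset.sum_le_sum
          intro d₂ h2
          rw [Finset.mem_filter] at h1 h2
          exact ap_rem N q a y _ hq (Nat.lcm_dvd (Nat.dvd_of_mem_divisors h1.1)
            (Nat.dvd_of_mem_divisors h2.1))
      _ = (((s.prodPrimes.divisors).filter (· ≤ y)).card : ℝ) *
          (((s.prodPrimes.divisors).filter (· ≤ y)).card : ℝ) := by
          rw [Finset.sum_const, Finset.sum_const]
          simp
      _ ≤ (y : ℝ) ^ 2 := by rw [sq]; gcongr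
  -- primes are sifted
  have hsift : (((Finset.Icc 1 N).filter (fun p => p.Prime ∧ p ≡ a [MOD q])).card : ℝ) ≤
      (y : ℝ) + s.siftedSum := by
    have h1 : s.siftedSum = ((((Finset.Icc 1 N).filter (fun n => n ≡ a [MOD q])).filter
        (fun n => Nat.Coprime (PP q y) n)).card : ℝ) := by
      unfold BoundingSieve.siftedSum
      show ∑ d ∈ (Finset.Icc 1 N).filter (fun n => n ≡ a [MOD q]),
        (if Nat.Coprime (PP q y) d then (1 : ℝ) else 0) = _
      rw [← Finset.sum_filter, Finset.sum_const, nsmul_eq_mul, mul_one]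
    rw [h1]
    have h2 : (Finset.Icc 1 N).filter (fun p => p.Prime ∧ p ≡ a [MOD q]) ⊆
        (Finset.Icc 1 y) ∪ (((Finset.Icc 1 N).filter (fun n => n ≡ a [MOD q])).filter
        (fun n => Nat.Coprime (PP q y) n)) := by
      intro p hp
      rw [Finset.mem_filter, Finset.mem_Icc] at hp
      rw [Finset.mem_union, Finset.mem_Icc, Finset.mem_filter, Finset.mem_filter, Finset.mem_Icc]
      by_cases hpy : p ≤ y
      · left; exact ⟨hp.1.1, hpy⟩
      · right
        refine ⟨⟨hp.1, hp.2.2⟩, ?_⟩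
        rw [Nat.coprime_comm, Nat.Prime.coprime_iff_not_dvd hp.2.1]
        intro hd
        exact hpy (prime_dvd_PP q y p hp.2.1 hd).1
    have h3 := (Finset.card_le_card h2).trans (Finset.card_union_le _ _)
    rw [Nat.card_Icc, Nat.add_sub_cancel] at h3
    exact_mod_cast h3
  linarith

end Pool.Agent.Lib.MP_dde2f1_nt.Sieve
end

/- module PrimePairs (Selberg sieve library of helper24) -/
section
open Finset ArithmeticFunction

namespace Pool.Agent.Lib.MP_dde2f1_nt.Sieve

/-- `τ(d)/d` as an arithmetic function -/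
noncomputable def tnu : ArithmeticFunction ℝ := ⟨fun n => (n.divisors.card : ℝ) * (n : ℝ)⁻¹, by simp⟩

lemma tnu_apply (n : ℕ) : tnu n = (n.divisors.card : ℝ) * (n : ℝ)⁻¹ := rfl

lemma tnu_mult : tnu.IsMultiplicative := by
  rw [ArithmeticFunction.IsMultiplicative.iff_ne_zero]
  refine ⟨by simp [tnu_apply], ?_⟩
  intro m n _ _ hmn
  rw [tnu_apply, tnu_apply, tnu_apply, Nat.Coprime.card_divisors_mul hmn]
  push_cast
  rw [mul_inv]
  ring

lemma tnu_prime (p : ℕ) (hp : p.Prime) : tnu p = 2 * (p : ℝ)⁻¹ := by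
  rw [tnu_apply, hp.divisors, Finset.card_pair hp.one_lt.ne]
  norm_num

/-- count of `m ≤ N` with `d ∣ m (m + h)` -/
lemma pair_count (N h d : ℕ) (hd : Squarefree d) (hcop : d.Coprime h) :
    |(((Finset.Icc 1 N).filter (fun m => d ∣ m * (m + h))).card : ℝ) -
      (d.divisors.card : ℝ) * (d : ℝ)⁻¹ * N| ≤ d.divisors.card := by
  classical
  have hd0 : 0 < d := Nat.pos_of_ne_zero hd.ne_zero
  -- split by gcd
  have hmaps : ∀ m ∈ (Finset.Icc 1 N).filter (fun m => d ∣ m * (m + h)),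
      Nat.gcd m d ∈ d.divisors := by
    intro m _
    rw [Nat.mem_divisors]
    exact ⟨Nat.gcd_dvd_right _ _, hd0.ne'⟩
  have hcard := Finset.card_eq_sum_card_fiberwise (s := (Finset.Icc 1 N).filter
    (fun m => d ∣ m * (m + h))) (t := d.divisors) (f := fun m => Nat.gcd m d) hmaps
  have hfib : ∀ e ∈ d.divisors,
      |((((Finset.Icc 1 N).filter (fun m => d ∣ m * (m + h))).filter
        (fun m => Nat.gcd m d = e)).card : ℝ) - (N : ℝ) / d| ≤ 1 := by
    intro e he
    have hed := Nat.dvd_of_mem_divisors he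
    obtain ⟨g, hg⟩ := hed
    have he0 : 0 < e := Nat.pos_of_mem_divisors he
    have hg0 : 0 < g := by
      rcases Nat.eq_zero_or_pos g with h0 | h0
      · rw [h0, mul_zero] at hg; omega
      · exact h0
    have heg : Nat.Coprime e g := by
      apply Nat.coprime_of_squarefree_mul
      rw [← hg]; exact hd
    have hgh : Nat.Coprime g h := Nat.Coprime.coprime_dvd_left (hg ▸ dvd_mul_left g e) hcop
    -- residue of `-h` mod g
    obtain ⟨r, hr1, hr2⟩ := Nat.chineseRemainder heg 0 (g * h - h)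
    have hneg : ∀ m : ℕ, g ∣ m + h ↔ m ≡ g * h - h [MOD g] := by
      intro m
      have hle : h ≤ g * h := Nat.le_mul_of_pos_left h hg0
      rw [← Int.natCast_modEq_iff, Nat.cast_sub hle, Int.modEq_iff_dvd]
      push_cast
      constructor
      · intro h1
        have h2 : (g : ℤ) ∣ (m : ℤ) + h := by exact_mod_cast h1
        have h3 : (g : ℤ) * h - h - m = (g : ℤ) * h - ((m : ℤ) + h) := by ring
        rw [h3]
        exact dvd_sub (dvd_mul_right _ _) h2
      · intro h1
        have h3 : (m : ℤ) + h = (g : ℤ) * h - ((g : ℤ) * h - h - m) := by ring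
        have h2 : (g : ℤ) ∣ (m : ℤ) + h := by
          rw [h3]
          exact dvd_sub (dvd_mul_right _ _) h1
        exact_mod_cast h2
    have hset : ((Finset.Icc 1 N).filter (fun m => d ∣ m * (m + h))).filter
        (fun m => Nat.gcd m d = e) = (Finset.Icc 1 N).filter (fun n => n ≡ r [MOD (e * g)]) := by
      rw [Finset.filter_filter]
      apply Finset.filter_congr
      intro m _
      rw [← Nat.modEq_and_modEq_iff_modEq_mul heg]
      constructor
      · rintro ⟨h1, h2⟩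
        have h3 : e ∣ m := h2 ▸ Nat.gcd_dvd_left _ _
        have h4 : g ∣ m + h := by
          have h5 : d ∣ Nat.gcd d m * (m + h) := dvd_gcd_mul_of_dvd_mul h1
          rw [Nat.gcd_comm, h2, hg] at h5
          exact (Nat.mul_dvd_mul_iff_left he0).1 h5
        exact ⟨((Nat.modEq_zero_iff_dvd).2 h3).trans hr1.symm, ((hneg m).1 h4).trans hr2.symm⟩
      · rintro ⟨h1, h2⟩
        have h3 : e ∣ m := (Nat.modEq_zero_iff_dvd).1 (h1.trans hr1)
        have h4 : g ∣ m + h := (hneg m).2 (h2.trans hr2)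
        refine ⟨?_, ?_⟩
        · rw [hg]
          exact Nat.mul_dvd_mul h3 h4
        · rw [hg, Nat.gcd_comm]
          have hgm : Nat.Coprime g m := by
            rw [Nat.coprime_iff_gcd_eq_one]
            have h5 : Nat.gcd g m ∣ h := by
              have h6 : Nat.gcd g m ∣ m + h := (Nat.gcd_dvd_left _ _).trans h4
              exact (Nat.dvd_add_right (Nat.gcd_dvd_right _ _)).1 h6
            have h7 : Nat.gcd g m ∣ Nat.gcd g h := Nat.dvd_gcd (Nat.gcd_dvd_left _ _) h5
            rw [hgh] at h7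
            exact Nat.dvd_one.1 h7
          rw [Nat.Coprime.gcd_mul_right_cancel e hgm]
          exact Nat.gcd_eq_left h3
    rw [hset]
    have h := count_ap N (e * g) r (Nat.mul_pos he0 hg0)
    rw [← hg] at h
    rw [← hg]
    exact h
  have hcardR : (((Finset.Icc 1 N).filter (fun m => d ∣ m * (m + h))).card : ℝ) =
      ∑ e ∈ d.divisors, ((((Finset.Icc 1 N).filter (fun m => d ∣ m * (m + h))).filter
        (fun m => Nat.gcd m d = e)).card : ℝ) := by
    exact_mod_cast hcard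
  have hconst : (d.divisors.card : ℝ) * (d : ℝ)⁻¹ * N = ∑ e ∈ d.divisors, (N : ℝ) / d := by
    rw [Finset.sum_const, nsmul_eq_mul]
    field_simp
  rw [hcardR, hconst, ← Finset.sum_sub_distrib]
  refine (Finset.abs_sum_le_sum_abs _ _).trans ?_
  refine (Finset.sum_le_sum hfib).trans ?_
  simp

/-- the sieve for prime pairs -/
noncomputable def pairSieve (N h z : ℕ) : BoundingSieve where
  support := (Finset.Icc 1 N).image (fun m => m * (m + h))
  prodPrimes := PP (2 * h) z
  prodPrimes_squarefree := PP_squarefree (2 * h) z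
  weights := fun _ => 1
  weights_nonneg := fun _ => zero_le_one
  totalMass := N
  nu := tnu
  nu_mult := tnu_mult
  nu_pos_of_prime := by
    intro p hp _
    rw [tnu_prime p hp]
    have : (0 : ℝ) < p := by exact_mod_cast hp.pos
    positivity
  nu_lt_one_of_prime := by
    intro p hp hd
    rw [tnu_prime p hp]
    have h1 := (prime_dvd_PP _ _ p hp hd).2
    have h2 : p ≠ 2 := by
      rintro rfl
      exact h1 (dvd_mul_right _ _)
    have h3 : 3 ≤ p := by
      have := hp.two_le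
      omega
    have h4 : (3 : ℝ) ≤ p := by exact_mod_cast h3
    rw [mul_inv_lt_iff₀ (by linarith)]
    linarith

lemma inj_pair (h : ℕ) : Function.Injective (fun m : ℕ => m * (m + h)) := by
  have : StrictMono (fun m : ℕ => m * (m + h)) := by
    intro a b hab
    have hb : 0 < b := by omega
    show a * (a + h) < b * (b + h)
    calc a * (a + h) ≤ a * (b + h) := Nat.mul_le_mul_left _ (by omega)
      _ < b * (b + h) := Nat.mul_lt_mul_of_pos_right hab (by omega)
  exact this.injective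

lemma pair_rem (N h z e : ℕ) (he : e ∣ PP (2 * h) z) :
    |(pairSieve N h z).rem e| ≤ e.divisors.card := by
  have hsq : Squarefree e := Squarefree.squarefree_of_dvd he (PP_squarefree _ z)
  have hcop : e.Coprime h :=
    Nat.Coprime.coprime_dvd_right (dvd_mul_left h 2) (coprime_of_dvd_PP _ z e he)
  have hrem : (pairSieve N h z).rem e =
      (∑ n ∈ (Finset.Icc 1 N).image (fun m => m * (m + h)), if e ∣ n then (1 : ℝ) else 0) -
        (e.divisors.card : ℝ) * (e : ℝ)⁻¹ * N := rfl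
  rw [hrem, Finset.sum_image (by intro a _ b _ hab; exact inj_pair h hab), ← Finset.sum_filter,
    Finset.sum_const, nsmul_eq_mul, mul_one]
  exact pair_count N h e hsq hcop

lemma pair_selberg (N h z e : ℕ) (he : e ∣ PP (2 * h) z) :
    ∏ p ∈ e.primeFactors, ((2 * (p : ℝ) - 1) / ((p : ℝ) - 1) ^ 2) ≤
      (pairSieve N h z).selbergTerms e := by
  have hsq : Squarefree e := Squarefree.squarefree_of_dvd he (PP_squarefree _ z)
  rw [BoundingSieve.selbergTerms_apply]
  show _ ≤ tnu e * ∏ p ∈ e.primeFactors, (1 - tnu p)⁻¹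
  rw [← tnu_mult.prod_primeFactors hsq, ← Finset.prod_mul_distrib]
  apply Finset.prod_le_prod
  · intro p hp
    have hpp := Nat.prime_of_mem_primeFactors hp
    have : (2 : ℝ) ≤ p := by exact_mod_cast hpp.two_le
    apply div_nonneg
    · linarith
    · positivity
  · intro p hp
    have hpp := Nat.prime_of_mem_primeFactors hp
    have hpd : p ∣ PP (2 * h) z := (Nat.dvd_of_mem_primeFactors hp).trans he
    have h1 := (prime_dvd_PP _ _ p hpp hpd).2
    have h2 : p ≠ 2 := by
      rintro rfl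
      exact h1 (dvd_mul_right _ _)
    have h3 : 3 ≤ p := by
      have := hpp.two_le
      omega
    have h4 : (3 : ℝ) ≤ p := by exact_mod_cast h3
    rw [tnu_prime p hpp]
    have h5 : 2 * (p : ℝ)⁻¹ * (1 - 2 * (p : ℝ)⁻¹)⁻¹ = 2 / ((p : ℝ) - 2) := by
      have h6 : (p : ℝ) ≠ 0 := by linarith
      have h7 : (p : ℝ) - 2 ≠ 0 := by linarith
      field_simp
    rw [h5, div_le_div_iff₀ (by nlinarith) (by linarith)]
    nlinarith

/-- **prime pairs** (with explicit parameter) -/
theorem prime_pairs (N h y : ℕ) (hh : 0 < h) (hy : 1 ≤ y) :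
    (((Finset.Icc 1 N).filter (fun p => p.Prime ∧ (p + h).Prime)).card : ℝ) ≤
      (y : ℝ) ^ 2 + (N : ℝ) * (((2 * h : ℕ) : ℝ) / (2 * h).totient) ^ 2 /
        (Real.log ((y : ℝ) + 1)) ^ 2 + (y : ℝ) ^ 8 := by
  classical
  set z := y * y with hz
  have hz1 : 1 ≤ z := Nat.one_le_iff_ne_zero.2 (by positivity)
  set s := pairSieve N h z with hs
  have hmain := selberg s z hz1
  have h2h : 0 < 2 * h := by omega
  have hlog : 0 < Real.log ((y : ℝ) + 1) := by
    apply Real.log_pos
    have : (1 : ℝ) ≤ y := by exact_mod_cast hy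
    linarith
  have hq' : (0 : ℝ) < (2 * h : ℕ) := by exact_mod_cast h2h
  have ht : (0 : ℝ) < (2 * h).totient := by exact_mod_cast Nat.totient_pos.2 h2h
  have hyz : y ≤ z := Nat.le_mul_self y
  have hSS : ((((2 * h).totient : ℝ) / (2 * h : ℕ)) * Real.log ((y : ℝ) + 1)) ^ 2 ≤ SS s z := by
    have h1 := linear_lower (2 * h) y z h2h hyz
    have h2 := sq_le (PP (2 * h) z) y z (PP_squarefree _ _) le_rfl
    calc ((((2 * h).totient : ℝ) / (2 * h : ℕ)) * Real.log ((y : ℝ) + 1)) ^ 2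
        ≤ (∑ a ∈ (PP (2 * h) z).divisors.filter (· ≤ y), iphi a) ^ 2 := by gcongr
      _ ≤ _ := h2
      _ ≤ SS s z := by
        unfold SS
        apply Finset.sum_le_sum
        intro e he
        rw [Finset.mem_filter] at he
        exact pair_selberg N h z e (Nat.dvd_of_mem_divisors he.1)
  have hSSpos : 0 < ((((2 * h).totient : ℝ) / (2 * h : ℕ)) * Real.log ((y : ℝ) + 1)) ^ 2 := by
    positivity
  have hM : s.totalMass * (SS s z)⁻¹ ≤ (N : ℝ) * (((2 * h : ℕ) : ℝ) / (2 * h).totient) ^ 2 /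
        (Real.log ((y : ℝ) + 1)) ^ 2 := by
    have h1 := inv_anti₀ hSSpos hSS
    have h2 : s.totalMass = (N : ℝ) := rfl
    rw [h2]
    calc (N : ℝ) * (SS s z)⁻¹ ≤
        (N : ℝ) * (((((2 * h).totient : ℝ) / (2 * h : ℕ)) * Real.log ((y : ℝ) + 1)) ^ 2)⁻¹ := by
          gcongr
      _ = _ := by field_simp
  -- error
  have hE : ∑ d₁ ∈ (s.prodPrimes.divisors).filter (· ≤ z),
      ∑ d₂ ∈ (s.prodPrimes.divisors).filter (· ≤ z), |s.rem (Nat.lcm d₁ d₂)| ≤ (y : ℝ) ^ 8 := by
    have hcard : (((s.prodPrimes.divisors).filter (· ≤ z)).card : ℝ) ≤ z := by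
      have : ((s.prodPrimes.divisors).filter (· ≤ z)).card ≤ (Finset.Icc 1 z).card := by
        apply Finset.card_le_card
        intro d hd
        rw [Finset.mem_filter] at hd
        rw [Finset.mem_Icc]
        exact ⟨Nat.pos_of_mem_divisors hd.1, hd.2⟩
      rw [Nat.card_Icc, Nat.add_sub_cancel] at this
      exact_mod_cast this
    calc ∑ d₁ ∈ (s.prodPrimes.divisors).filter (· ≤ z),
        ∑ d₂ ∈ (s.prodPrimes.divisors).filter (· ≤ z), |s.rem (Nat.lcm d₁ d₂)|
        ≤ ∑ d₁ ∈ (s.prodPrimes.divisors).filter (· ≤ z),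
        ∑ d₂ ∈ (s.prodPrimes.divisors).filter (· ≤ z), ((z : ℝ) * z) := by
          apply Finset.sum_le_sum
          intro d₁ h1
          apply Finset.sum_le_sum
          intro d₂ h2
          rw [Finset.mem_filter] at h1 h2
          have h3 : Nat.lcm d₁ d₂ ∣ PP (2 * h) z := Nat.lcm_dvd (Nat.dvd_of_mem_divisors h1.1)
            (Nat.dvd_of_mem_divisors h2.1)
          have h4 := pair_rem N h z _ h3
          have h5 : (Nat.lcm d₁ d₂).divisors.card ≤ z * z := by
            refine (Nat.card_divisors_le_self _).trans ?_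
            refine (Nat.le_of_dvd (Nat.mul_pos (Nat.pos_of_mem_divisors h1.1)
              (Nat.pos_of_mem_divisors h2.1)) (Nat.lcm_dvd_mul _ _)).trans ?_
            exact Nat.mul_le_mul h1.2 h2.2
          have h6 : ((Nat.lcm d₁ d₂).divisors.card : ℝ) ≤ (z : ℝ) * z := by exact_mod_cast h5
          exact h4.trans h6
      _ = (((s.prodPrimes.divisors).filter (· ≤ z)).card : ℝ) *
          (((s.prodPrimes.divisors).filter (· ≤ z)).card : ℝ) * ((z : ℝ) * z) := by
          rw [Finset.sum_const, Finset.sum_const]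
          simp
          ring
      _ ≤ (z : ℝ) * z * (z * z) := by gcongr
      _ = (y : ℝ) ^ 8 := by rw [hz]; push_cast; ring
  -- primes are sifted
  have hsift : (((Finset.Icc 1 N).filter (fun p => p.Prime ∧ (p + h).Prime)).card : ℝ) ≤
      (z : ℝ) + s.siftedSum := by
    have h1 : s.siftedSum = (((Finset.Icc 1 N).filter
        (fun m => Nat.Coprime (PP (2 * h) z) (m * (m + h)))).card : ℝ) := by
      unfold BoundingSieve.siftedSum
      show ∑ d ∈ (Finset.Icc 1 N).image (fun m => m * (m + h)),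
        (if Nat.Coprime (PP (2 * h) z) d then (1 : ℝ) else 0) = _
      rw [Finset.sum_image (by intro a _ b _ hab; exact inj_pair h hab), ← Finset.sum_filter,
        Finset.sum_const, nsmul_eq_mul, mul_one]
    rw [h1]
    have h2 : (Finset.Icc 1 N).filter (fun p => p.Prime ∧ (p + h).Prime) ⊆
        (Finset.Icc 1 z) ∪ ((Finset.Icc 1 N).filter
        (fun m => Nat.Coprime (PP (2 * h) z) (m * (m + h)))) := by
      intro p hp
      rw [Finset.mem_filter, Finset.mem_Icc] at hp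
      rw [Finset.mem_union, Finset.mem_Icc, Finset.mem_filter, Finset.mem_Icc]
      by_cases hpz : p ≤ z
      · left; exact ⟨hp.1.1, hpz⟩
      · right
        refine ⟨hp.1, ?_⟩
        rw [Nat.coprime_comm]
        apply Nat.Coprime.mul_left
        · rw [Nat.Prime.coprime_iff_not_dvd hp.2.1]
          intro hd
          exact hpz (prime_dvd_PP _ z p hp.2.1 hd).1
        · rw [Nat.Prime.coprime_iff_not_dvd hp.2.2]
          intro hd
          have := (prime_dvd_PP _ z (p + h) hp.2.2 hd).1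
          omega
    have h3 := (Finset.card_le_card h2).trans (Finset.card_union_le _ _)
    rw [Nat.card_Icc, Nat.add_sub_cancel] at h3
    exact_mod_cast h3
  have hzy : (z : ℝ) = (y : ℝ) ^ 2 := by rw [hz]; push_cast; ring
  rw [hzy] at hsift
  linarith

end Pool.Agent.Lib.MP_dde2f1_nt.Sieve
end

/- module Clean (Selberg sieve library of helper24) -/
section
open Finset ArithmeticFunction Filter

namespace Pool.Agent.Lib.MP_dde2f1_nt.Sieve

/-- `log N ≤ N^(1/4)` for large `N` -/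
lemma log_le_rpow : ∃ N₀ : ℕ, 2 ≤ N₀ ∧ ∀ N : ℕ, N₀ ≤ N →
    Real.log N ≤ (N : ℝ) ^ (1 / 8 : ℝ) := by
  have h : (fun x : ℝ => Real.log x) =o[atTop] fun x => x ^ (1 / 8 : ℝ) :=
    isLittleO_log_rpow_atTop (by norm_num)
  have h1 := h.bound (c := 1) one_pos
  rw [Filter.eventually_atTop] at h1
  obtain ⟨A, hA⟩ := h1
  refine ⟨max 2 ⌈A⌉₊, le_max_left _ _, ?_⟩
  intro N hN
  have hN2 : 2 ≤ N := (le_max_left _ _).trans hN
  have hNA : A ≤ N := by
    have : ⌈A⌉₊ ≤ N := (le_max_right _ _).trans hN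
    exact (Nat.le_ceil A).trans (by exact_mod_cast this)
  have h2 := hA N hNA
  rw [one_mul, Real.norm_of_nonneg, Real.norm_of_nonneg] at h2
  · exact h2
  · positivity
  · apply Real.log_nonneg
    have : (2 : ℝ) ≤ N := by exact_mod_cast hN2
    linarith

/-- Brun–Titchmarsh, clean form -/
theorem bt : ∃ N₀ : ℕ, 2 ≤ N₀ ∧ ∀ N : ℕ, N₀ ≤ N → ∀ q a : ℕ, 0 < q → q * q ≤ N →
    (((Finset.Icc 1 N).filter (fun p => p.Prime ∧ p ≡ a [MOD q])).card : ℝ) ≤
      10 * (N : ℝ) / (q.totient * Real.log N) := by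
  obtain ⟨N₀, hN₀, hlog⟩ := log_le_rpow
  refine ⟨N₀, hN₀, ?_⟩
  intro N hN q a hq hqN
  have hN2 : 2 ≤ N := hN₀.trans hN
  have hNR : (2 : ℝ) ≤ N := by exact_mod_cast hN2
  have hNpos : (0 : ℝ) < N := by linarith
  have hL := hlog N hN
  have hlogpos : 0 < Real.log N := Real.log_pos (by linarith)
  set y := ⌊(N : ℝ) ^ (1 / 8 : ℝ)⌋₊ with hy
  have h1 : (1 : ℝ) ≤ (N : ℝ) ^ (1 / 8 : ℝ) := Real.one_le_rpow (by linarith) (by norm_num)
  have hy1 : 1 ≤ y := Nat.one_le_floor_iff _ |>.2 h1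
  have hyle : (y : ℝ) ≤ (N : ℝ) ^ (1 / 8 : ℝ) := Nat.floor_le (by positivity)
  have hlty : (N : ℝ) ^ (1 / 8 : ℝ) < (y : ℝ) + 1 := Nat.lt_floor_add_one _
  have hmain := brun_titchmarsh N q a y hq hy1
  have hlogy : (1 / 8 : ℝ) * Real.log N ≤ Real.log ((y : ℝ) + 1) := by
    rw [← Real.log_rpow hNpos]
    exact Real.log_le_log (by positivity) hlty.le
  have hlogypos : 0 < Real.log ((y : ℝ) + 1) := by
    refine lt_of_lt_of_le ?_ hlogy
    positivity
  have ht : (0 : ℝ) < q.totient := by exact_mod_cast Nat.totient_pos.2 hq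
  have htq : (q.totient : ℝ) ≤ (N : ℝ) ^ (1 / 2 : ℝ) := by
    have h2 : (q.totient : ℝ) ≤ q := by exact_mod_cast Nat.totient_le q
    have h3 : (q : ℝ) ≤ Real.sqrt N := by
      apply Real.le_sqrt_of_sq_le
      have : ((q * q : ℕ) : ℝ) ≤ N := by exact_mod_cast hqN
      push_cast at this
      nlinarith
    rw [Real.sqrt_eq_rpow] at h3
    exact h2.trans h3
  have e1 : (N : ℝ) / (q.totient * Real.log ((y : ℝ) + 1)) ≤ 8 * (N : ℝ) / (q.totient * Real.log N) := by
    rw [div_le_div_iff₀ (by positivity) (by positivity)]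
    have : (q.totient : ℝ) * Real.log N ≤ 8 * (q.totient * Real.log ((y : ℝ) + 1)) := by nlinarith
    nlinarith
  have hroot : (N : ℝ) = ((N : ℝ) ^ (1 / 8 : ℝ)) ^ 8 := by
    rw [← Real.rpow_natCast, ← Real.rpow_mul hNpos.le]
    norm_num
  have hhalf : (N : ℝ) ^ (1 / 2 : ℝ) = ((N : ℝ) ^ (1 / 8 : ℝ)) ^ 4 := by
    rw [← Real.rpow_natCast, ← Real.rpow_mul hNpos.le]
    norm_num
  set w := (N : ℝ) ^ (1 / 8 : ℝ) with hw
  have e2 : w ^ 2 ≤ (N : ℝ) / (q.totient * Real.log N) := by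
    rw [le_div_iff₀ (by positivity)]
    calc w ^ 2 * (q.totient * Real.log N) ≤ w ^ 2 * (w ^ 4 * w) := by
          rw [← hhalf]
          gcongr
      _ = w ^ 7 := by ring
      _ ≤ w ^ 8 := pow_le_pow_right₀ h1 (by norm_num)
      _ = N := hroot.symm
  have e3 : (y : ℝ) ≤ w ^ 2 := hyle.trans (by nlinarith)
  have e4 : (y : ℝ) ^ 2 ≤ w ^ 2 := by gcongr
  have e5 : 10 * (N : ℝ) / (q.totient * Real.log N) = 8 * (N : ℝ) / (q.totient * Real.log N) +
      2 * ((N : ℝ) / (q.totient * Real.log N)) := by ring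
  rw [e5]
  linarith

/-- prime pairs, clean form -/
theorem pp : ∃ N₀ : ℕ, 2 ≤ N₀ ∧ ∀ N : ℕ, N₀ ≤ N → ∀ h : ℕ, 0 < h →
    (((Finset.Icc 1 N).filter (fun p => p.Prime ∧ (p + h).Prime)).card : ℝ) ≤
      1026 * (N : ℝ) / (Real.log N) ^ 2 * (rphi h) ^ 2 := by
  obtain ⟨N₀, hN₀, hlog⟩ := log_le_rpow
  refine ⟨N₀, hN₀, ?_⟩
  intro N hN h hh
  have hN2 : 2 ≤ N := hN₀.trans hN
  have hNR : (2 : ℝ) ≤ N := by exact_mod_cast hN2
  have hNpos : (0 : ℝ) < N := by linarith
  have hL := hlog N hN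
  have hlogpos : 0 < Real.log N := Real.log_pos (by linarith)
  set y := ⌊(N : ℝ) ^ (1 / 16 : ℝ)⌋₊ with hy
  have h1 : (1 : ℝ) ≤ (N : ℝ) ^ (1 / 16 : ℝ) := Real.one_le_rpow (by linarith) (by norm_num)
  have hy1 : 1 ≤ y := Nat.one_le_floor_iff _ |>.2 h1
  have hyle : (y : ℝ) ≤ (N : ℝ) ^ (1 / 16 : ℝ) := Nat.floor_le (by positivity)
  have hlty : (N : ℝ) ^ (1 / 16 : ℝ) < (y : ℝ) + 1 := Nat.lt_floor_add_one _
  have hmain := prime_pairs N h y hh hy1
  have hlogy : (1 / 16 : ℝ) * Real.log N ≤ Real.log ((y : ℝ) + 1) := by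
    rw [← Real.log_rpow hNpos]
    exact Real.log_le_log (by positivity) hlty.le
  have hlogypos : 0 < Real.log ((y : ℝ) + 1) := by
    refine lt_of_lt_of_le ?_ hlogy
    positivity
  have ht : (0 : ℝ) < h.totient := by exact_mod_cast Nat.totient_pos.2 hh
  have ht2 : (0 : ℝ) < (2 * h).totient := by exact_mod_cast Nat.totient_pos.2 (by omega)
  have hh' : (0 : ℝ) < h := by exact_mod_cast hh
  have htle : (h.totient : ℝ) ≤ (2 * h).totient := by
    have : h.totient ≤ (2 * h).totient :=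
      Nat.le_of_dvd (Nat.totient_pos.2 (by omega)) (Nat.totient_dvd_of_dvd (dvd_mul_left h 2))
    exact_mod_cast this
  have hr : (((2 * h : ℕ) : ℝ) / (2 * h).totient) ≤ 2 * rphi h := by
    rw [rphi_apply, div_le_iff₀ ht2]
    push_cast
    have : (h : ℝ) * (h.totient : ℝ)⁻¹ * h.totient = h := by field_simp
    have h3 : (h : ℝ) * (h.totient : ℝ)⁻¹ * h.totient ≤ (h : ℝ) * (h.totient : ℝ)⁻¹ * (2 * h).totient := by
      gcongr
    nlinarith
  have hr0 : 0 ≤ (((2 * h : ℕ) : ℝ) / (2 * h).totient) := by positivity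
  have hr1 : 1 ≤ rphi h := by
    rw [rphi_apply]
    have : (h.totient : ℝ) ≤ h := by exact_mod_cast Nat.totient_le h
    rw [← div_eq_mul_inv, le_div_iff₀ ht]
    linarith
  have e1 : (N : ℝ) * (((2 * h : ℕ) : ℝ) / (2 * h).totient) ^ 2 /
        (Real.log ((y : ℝ) + 1)) ^ 2 ≤ 1024 * (N : ℝ) / (Real.log N) ^ 2 * (rphi h) ^ 2 := by
    have a1 : (((2 * h : ℕ) : ℝ) / (2 * h).totient) ^ 2 ≤ (2 * rphi h) ^ 2 := by gcongr
    have a2 : ((1 / 16 : ℝ) * Real.log N) ^ 2 ≤ (Real.log ((y : ℝ) + 1)) ^ 2 := by gcongr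
    calc (N : ℝ) * (((2 * h : ℕ) : ℝ) / (2 * h).totient) ^ 2 / (Real.log ((y : ℝ) + 1)) ^ 2
        ≤ (N : ℝ) * (2 * rphi h) ^ 2 / ((1 / 16 : ℝ) * Real.log N) ^ 2 := by gcongr
      _ = 1024 * (N : ℝ) / (Real.log N) ^ 2 * (rphi h) ^ 2 := by
          field_simp
          ring
  have hroot : (N : ℝ) = ((N : ℝ) ^ (1 / 8 : ℝ)) ^ 8 := by
    rw [← Real.rpow_natCast, ← Real.rpow_mul hNpos.le]
    norm_num
  have hsm : (N : ℝ) ^ (1 / 8 : ℝ) = ((N : ℝ) ^ (1 / 16 : ℝ)) ^ 2 := by
    rw [← Real.rpow_natCast, ← Real.rpow_mul hNpos.le]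
    norm_num
  set w := (N : ℝ) ^ (1 / 8 : ℝ) with hw
  set v := (N : ℝ) ^ (1 / 16 : ℝ) with hv
  have hw1 : 1 ≤ w := by rw [hsm]; nlinarith
  have e2 : w ^ 4 ≤ (N : ℝ) / (Real.log N) ^ 2 := by
    rw [le_div_iff₀ (by positivity)]
    calc w ^ 4 * (Real.log N) ^ 2 ≤ w ^ 4 * w ^ 2 := by gcongr
      _ = w ^ 6 := by ring
      _ ≤ w ^ 8 := pow_le_pow_right₀ hw1 (by norm_num)
      _ = N := hroot.symm
  have e3 : (y : ℝ) ^ 2 ≤ w ^ 4 := by
    calc (y : ℝ) ^ 2 ≤ v ^ 2 := by gcongr
      _ = w ^ 1 := by rw [hsm]; ring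
      _ ≤ w ^ 4 := pow_le_pow_right₀ hw1 (by norm_num)
  have e4 : (y : ℝ) ^ 8 ≤ w ^ 4 := by
    calc (y : ℝ) ^ 8 ≤ v ^ 8 := by gcongr
      _ = w ^ 4 := by rw [hsm]; ring
  have e6 : (N : ℝ) / (Real.log N) ^ 2 ≤ (N : ℝ) / (Real.log N) ^ 2 * (rphi h) ^ 2 := by
    have : 1 ≤ (rphi h) ^ 2 := one_le_pow₀ hr1
    have h5 : 0 ≤ (N : ℝ) / (Real.log N) ^ 2 := by positivity
    nlinarith
  have e5 : 1026 * (N : ℝ) / (Real.log N) ^ 2 * (rphi h) ^ 2 =
      1024 * (N : ℝ) / (Real.log N) ^ 2 * (rphi h) ^ 2 +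
      2 * ((N : ℝ) / (Real.log N) ^ 2 * (rphi h) ^ 2) := by ring
  rw [e5]
  linarith

end Pool.Agent.Lib.MP_dde2f1_nt.Sieve
end
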