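import Mathlib

set_option autoImplicit false

open Finset

namespace Pool.Agent.Lib.MP_dde2f1_nt

lemma exists_block (Q : Finset ℕ) {ε : ℝ} (hε : 0 < ε) :
    ∃ P : Finset ℕ, (∀ p ∈ P, p.Prime) ∧ Disjoint P Q ∧ ∏ p ∈ P, (1 - (p : ℝ)⁻¹) ≤ ε := by
  classical
  set f : ℕ → ℝ := Set.indicator {p | p.Prime} (fun n => (1 : ℝ) / n) with hf
  have hns' : ¬ Summable f := not_summable_one_div_on_primes
  have hf0 : ∀ n, 0 ≤ f n := fun n => Set.indicator_nonneg (fun _ _ => by positivity) n
  have ht := (not_summable_iff_tendsto_nat_atTop_of_nonneg hf0).1 hns'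
  obtain ⟨n, hn⟩ := (ht.eventually_ge_atTop (-Real.log ε + ∑ q ∈ Q, f q)).exists
  set P := (range n).filter (fun p => p.Prime ∧ p ∉ Q) with hP
  have hPp : ∀ p ∈ P, p.Prime := fun p hp => (mem_filter.1 hp).2.1
  have hdis : Disjoint P Q := by
    rw [Finset.disjoint_left]
    intro p hp
    exact (mem_filter.1 hp).2.2
  refine ⟨P, hPp, hdis, ?_⟩
  have h1 : ∑ i ∈ range n, f i ≤ ∑ p ∈ P, f p + ∑ q ∈ Q, f q := by
    rw [← sum_union hdis]
    have : ∑ i ∈ range n, f i = ∑ i ∈ (range n).filter (fun p => p.Prime), f i := by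
      rw [sum_filter]
      apply sum_congr rfl
      intro i _
      by_cases hi : i.Prime
      · simp [hi]
      · simp [hi, hf]
    rw [this]
    apply sum_le_sum_of_subset_of_nonneg
    · intro i hi
      rw [mem_filter] at hi
      rw [mem_union, hP, mem_filter]
      by_cases hQ : i ∈ Q
      · exact Or.inr hQ
      · exact Or.inl ⟨hi.1, hi.2, hQ⟩
    · intro i _ _
      exact hf0 i
  have h2 : -Real.log ε ≤ ∑ p ∈ P, f p := by linarith
  have h3 : ∑ p ∈ P, f p = ∑ p ∈ P, (p : ℝ)⁻¹ := by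
    apply sum_congr rfl
    intro p hp
    have : p ∈ {p : ℕ | p.Prime} := hPp p hp
    rw [hf, Set.indicator_of_mem this, one_div]
  calc ∏ p ∈ P, (1 - (p : ℝ)⁻¹) ≤ ∏ p ∈ P, Real.exp (-(p : ℝ)⁻¹) := by
        apply prod_le_prod
        · intro p hp
          have h1 : (1 : ℝ) ≤ p := by exact_mod_cast (hPp p hp).one_lt.le
          have := inv_le_one_of_one_le₀ h1
          linarith
        · intro p _
          have := Real.add_one_le_exp (-(p : ℝ)⁻¹)
          linarith
    _ = Real.exp (-∑ p ∈ P, (p : ℝ)⁻¹) := by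
        rw [← Real.exp_sum, sum_neg_distrib]
    _ ≤ Real.exp (Real.log ε) := by
        apply Real.exp_le_exp.2
        rw [← h3]; linarith
    _ = ε := Real.exp_log hε

lemma count_coprime (P : Finset ℕ) (hP : ∀ p ∈ P, p.Prime) (X : ℕ) :
    (((Icc 1 X).filter (fun a => ∀ p ∈ P, ¬ p ∣ a)).card : ℝ) ≤
      (∏ p ∈ P, (1 - (p : ℝ)⁻¹)) * X + ((∏ p ∈ P, p : ℕ) : ℝ) := by
  classical
  set M := ∏ p ∈ P, p with hM
  have hM0 : M ≠ 0 := by
    rw [hM, prod_ne_zero_iff]
    intro p hp
    exact (hP p hp).ne_zero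
  have hMpos : (0 : ℝ) < M := by exact_mod_cast Nat.pos_of_ne_zero hM0
  have hsub : (Icc 1 X).filter (fun a => ∀ p ∈ P, ¬ p ∣ a) ⊆
      (Ico 1 (1 + X)).filter (fun a => M.Coprime a) := by
    intro a ha
    rw [mem_filter, mem_Icc] at ha
    rw [mem_filter, mem_Ico]
    refine ⟨⟨ha.1.1, by omega⟩, ?_⟩
    rw [hM, Nat.coprime_prod_left_iff]
    intro p hp
    exact ((hP p hp).coprime_iff_not_dvd).2 (ha.2 p hp)
  have h1 := (card_le_card hsub).trans (Nat.Ico_filter_coprime_le 1 X hM0)
  have h2 : ((Nat.totient M : ℕ) : ℝ) = M * ∏ p ∈ P, (1 - (p : ℝ)⁻¹) := by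
    have h3 := Nat.totient_eq_mul_prod_factors M
    rw [hM, Nat.primeFactors_prod hP, ← hM] at h3
    have h4 : (((Nat.totient M : ℕ) : ℚ) : ℝ) = ((M * ∏ p ∈ P, (1 - (p : ℚ)⁻¹) : ℚ) : ℝ) := by
      rw [h3]
    push_cast at h4
    exact h4
  have h5 : ((Nat.totient M : ℕ) : ℝ) ≤ M := by exact_mod_cast Nat.totient_le M
  have h6 : ((X / M : ℕ) : ℝ) ≤ X / M := Nat.cast_div_le
  calc (((Icc 1 X).filter (fun a => ∀ p ∈ P, ¬ p ∣ a)).card : ℝ)
      ≤ ((Nat.totient M * (X / M + 1) : ℕ) : ℝ) := by exact_mod_cast h1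
    _ = (Nat.totient M : ℝ) * ((X / M : ℕ) : ℝ) + (Nat.totient M : ℝ) := by push_cast; ring
    _ ≤ (Nat.totient M : ℝ) * (X / M) + M := by gcongr
    _ = _ := by rw [h2]; field_simp

lemma blocks (J : ℕ) {ε : ℝ} (hε : 0 < ε) : ∃ P : ℕ → Finset ℕ,
    (∀ i < J, (∀ p ∈ P i, p.Prime) ∧ ∏ p ∈ P i, (1 - (p : ℝ)⁻¹) ≤ ε) ∧
    ∀ i < J, ∀ j < J, i ≠ j → Disjoint (P i) (P j) := by
  classical
  induction J with
  | zero => exact ⟨fun _ => ∅, by simp, by simp⟩
  | succ J ih =>
    obtain ⟨P, h1, h2⟩ := ih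
    obtain ⟨B, hB1, hB2, hB3⟩ := exists_block ((range J).biUnion P) hε
    have hd : ∀ i < J, Disjoint B (P i) := by
      intro i hi
      exact hB2.mono_right (subset_biUnion_of_mem P (mem_range.2 hi))
    refine ⟨fun i => if i < J then P i else B, ?_, ?_⟩
    · intro i hi
      by_cases hiJ : i < J
      · simp only [hiJ, if_true]; exact h1 i hiJ
      · simp only [hiJ, if_false]; exact ⟨hB1, hB3⟩
    · intro i hi j hj hij
      by_cases hiJ : i < J
      · by_cases hjJ : j < J
        · simp only [hiJ, hjJ, if_true]; exact h2 i hiJ j hjJ hij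
        · simp only [hiJ, hjJ, if_true, if_false]; exact (hd i hiJ).symm
      · by_cases hjJ : j < J
        · simp only [hiJ, hjJ, if_true, if_false]; exact hd j hjJ
        · omega

/-- integers with few prime factors have density zero -/
theorem omega_dens (J : ℕ) (ε : ℝ) (hε : 0 < ε) : ∃ X0 : ℕ, ∀ X : ℕ, X0 ≤ X →
    (((Icc 1 X).filter (fun a => a.primeFactors.card ≤ J)).card : ℝ) ≤ ε * X := by
  classical
  set δ : ℝ := ε / (2 * (J + 1)) with hδ
  have hδpos : 0 < δ := by positivity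
  obtain ⟨P, h1, h2⟩ := blocks (J + 1) hδpos
  set C : ℝ := ∑ i ∈ range (J + 1), ((∏ p ∈ P i, p : ℕ) : ℝ) with hC
  have hC0 : 0 ≤ C := by positivity
  refine ⟨⌈2 * C / ε⌉₊, fun X hX => ?_⟩
  have hX' : 2 * C / ε ≤ X := (Nat.le_ceil _).trans (by exact_mod_cast hX)
  have hX2 : C ≤ ε / 2 * X := by
    rw [div_le_iff₀ hε] at hX'
    linarith
  have hsub : (Icc 1 X).filter (fun a => a.primeFactors.card ≤ J) ⊆
      (range (J + 1)).biUnion (fun i => (Icc 1 X).filter (fun a => ∀ p ∈ P i, ¬ p ∣ a)) := by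
    intro a ha
    rw [mem_filter] at ha
    rw [mem_biUnion]
    by_contra hcon
    push Not at hcon
    have ha0 : a ≠ 0 := by
      have := (mem_Icc.1 ha.1).1
      omega
    have hex : ∀ i ∈ range (J + 1), ∃ p, p ∈ P i ∧ p ∣ a := by
      intro i hi
      have h := hcon i hi
      rw [mem_filter, not_and] at h
      have h' := h ha.1
      push Not at h'
      exact h'
    choose! q hq using hex
    have hcard : (range (J + 1)).card ≤ a.primeFactors.card := by
      apply card_le_card_of_injOn q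
      · intro i hi
        have hi' : i ∈ range (J + 1) := by simpa using hi
        have := hq i hi'
        simp only [mem_coe, Nat.mem_primeFactors]
        exact ⟨(h1 i (mem_range.1 hi')).1 _ this.1, this.2, ha0⟩
      · intro i hi j hj hij
        have hi' : i ∈ range (J + 1) := by simpa using hi
        have hj' : j ∈ range (J + 1) := by simpa using hj
        by_contra hne
        have hd := h2 i (mem_range.1 hi') j (mem_range.1 hj') hne
        have hm1 := (hq i hi').1
        have hm2 := (hq j hj').1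
        rw [← hij] at hm2
        exact (Finset.disjoint_left.1 hd) hm1 hm2
    rw [card_range] at hcard
    omega
  calc (((Icc 1 X).filter (fun a => a.primeFactors.card ≤ J)).card : ℝ)
      ≤ (((range (J + 1)).biUnion
          (fun i => (Icc 1 X).filter (fun a => ∀ p ∈ P i, ¬ p ∣ a))).card : ℝ) := by
        exact_mod_cast card_le_card hsub
    _ ≤ ∑ i ∈ range (J + 1), (((Icc 1 X).filter (fun a => ∀ p ∈ P i, ¬ p ∣ a)).card : ℝ) := by
        exact_mod_cast card_biUnion_le
    _ ≤ ∑ i ∈ range (J + 1), (δ * X + ((∏ p ∈ P i, p : ℕ) : ℝ)) := by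
        apply sum_le_sum
        intro i hi
        have h := h1 i (mem_range.1 hi)
        refine (count_coprime (P i) h.1 X).trans ?_
        gcongr
        exact h.2
    _ = (J + 1) * (δ * X) + C := by
        rw [sum_add_distrib, sum_const, card_range, nsmul_eq_mul, ← hC]
        push_cast
        ring
    _ ≤ (J + 1) * (δ * X) + ε / 2 * X := by gcongr
    _ = ε * X := by
        rw [hδ]
        field_simp
        ring

/-- few small divisors imply few prime factors -/
lemma primeFactors_card_le (a : ℕ) (ha : a ≠ 0) :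
    a.primeFactors.card ≤ (a.divisors.filter (fun c => c * c ≤ a)).card + 1 := by
  classical
  have hsplit := card_filter_add_card_filter_not (s := a.primeFactors) (fun p => p * p ≤ a)
  have h1 : (a.primeFactors.filter (fun p => p * p ≤ a)).card ≤
      (a.divisors.filter (fun c => c * c ≤ a)).card := by
    apply card_le_card
    intro p hp
    rw [mem_filter, Nat.mem_primeFactors] at hp
    rw [mem_filter, Nat.mem_divisors]
    exact ⟨⟨hp.1.2.1, ha⟩, hp.2⟩
  have h2 : (a.primeFactors.filter (fun p => ¬ p * p ≤ a)).card ≤ 1 := by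
    rw [card_le_one]
    intro p hp q hq
    rw [mem_filter, Nat.mem_primeFactors] at hp hq
    by_contra hne
    have hcop : Nat.Coprime p q := (Nat.coprime_primes hp.1.1 hq.1.1).2 hne
    have hdvd : p * q ∣ a := hcop.mul_dvd_of_dvd_of_dvd hp.1.2.1 hq.1.2.1
    have hle := Nat.le_of_dvd (Nat.pos_of_ne_zero ha) hdvd
    have hpa := hp.2
    have hqa := hq.2
    push Not at hpa hqa
    have : a * a < (p * p) * (q * q) := Nat.mul_lt_mul'' hpa hqa
    have h3 : (p * q) * (p * q) ≤ a * a := Nat.mul_le_mul hle hle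
    have h4 : (p * p) * (q * q) = (p * q) * (p * q) := by ring
    omega
  omega

end Pool.Agent.Lib.MP_dde2f1_nt
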