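import Pool.Agent.Lib.MP_dde2f1_nt.Struct
import Pool.Agent.Lib.MP_dde2f1_nt.Dens
import Pool.Agent.Lib.MP_dde2f1_nt.SieveLib

set_option autoImplicit false

open Finset

namespace Pool.Agent.Lib.MP_dde2f1_nt

/-- the integers `n ≢ 2 (mod 4)` with at most `K` quadruples -/
def U (K : ℕ) : Set ℤ := {n | n % 4 ≠ 2 ∧ (DQ n).encard ≤ K}

/-- pairs of primes -/
def PP (h N : ℕ) : Finset ℕ := (Icc 1 N).filter (fun p => p.Prime ∧ (p + h).Prime)

lemma sq_log_le (N : ℕ) (hN : 2 ≤ N) : (Real.log N) ^ 2 ≤ 4 * N := by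
  have hN' : (0 : ℝ) < N := by exact_mod_cast (by omega : 0 < N)
  have h1 : Real.log N = 2 * Real.log (Real.sqrt N) := by
    rw [Real.log_sqrt hN'.le]; ring
  have h2 : Real.log (Real.sqrt N) ≤ Real.sqrt N := by
    have := Real.log_le_sub_one_of_pos (Real.sqrt_pos.2 hN')
    linarith
  have h3 : 0 ≤ Real.log N := Real.log_natCast_nonneg N
  have h4 : Real.log N ≤ 2 * Real.sqrt N := by linarith
  calc (Real.log N) ^ 2 ≤ (2 * Real.sqrt (N : ℝ)) ^ 2 := by gcongr
    _ = 4 * (N : ℝ) := by rw [mul_pow, Real.sq_sqrt hN'.le]; norm_num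

lemma log_pos' (N : ℕ) (hN : 2 ≤ N) : 0 < Real.log N :=
  Real.log_pos (by exact_mod_cast (by omega : 1 < N))

lemma const_le (N : ℕ) (hN : 2 ≤ N) : 1 ≤ 4 * (N : ℝ) / (Real.log N) ^ 2 := by
  rw [le_div_iff₀ (by have := log_pos' N hN; positivity), one_mul]
  exact sq_log_le N hN

lemma pair_bound (h : ℕ) (hh : 0 < h) : ∃ C : ℝ, 0 < C ∧ ∀ N : ℕ, 2 ≤ N →
    ((PP h N).card : ℝ) ≤ C * N / (Real.log N) ^ 2 := by
  obtain ⟨N₀, hN₀, hpp⟩ := Sieve.pp
  refine ⟨1026 * (Sieve.rphi h) ^ 2 + (Real.log N₀) ^ 2, ?_, ?_⟩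
  · have := log_pos' N₀ hN₀
    positivity
  intro N hN
  have hl := log_pos' N hN
  rcases le_total N₀ N with h1 | h1
  · refine (hpp N h1 h hh).trans ?_
    rw [div_mul_eq_mul_div]
    apply div_le_div_of_nonneg_right _ (by positivity)
    have : 0 ≤ (Real.log N₀) ^ 2 * N := by positivity
    linarith
  · have hc : ((PP h N).card : ℝ) ≤ N := by
      have : (PP h N).card ≤ (Icc 1 N).card := card_le_card (filter_subset _ _)
      rw [Nat.card_Icc] at this
      exact_mod_cast (by omega : (PP h N).card ≤ N)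
    refine hc.trans ?_
    rw [le_div_iff₀ (by positivity)]
    have h2 : Real.log N ≤ Real.log N₀ :=
      Real.log_le_log (by exact_mod_cast (by omega : 0 < N)) (by exact_mod_cast h1)
    have h3 : (Real.log N) ^ 2 ≤ (Real.log N₀) ^ 2 := by gcongr
    have h4 : (0 : ℝ) ≤ N := by positivity
    have h5 : 0 ≤ 1026 * (Sieve.rphi h) ^ 2 * N := by positivity
    nlinarith

/-- the exceptional set up to `X` -/
def E (K X : ℕ) : Set ℤ := {n | n ∈ U K ∧ |n| ≤ X}

lemma E_finite (K X : ℕ) : (E K X).Finite := by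
  apply (Set.finite_Icc (-(X : ℤ)) X).subset
  intro n hn
  exact abs_le.1 hn.2

/-- the finite set containing the large elements of `U 2` -/
def T (X : ℕ) (e : ℤ) : Finset ℤ :=
  (((PP 4 X).image (fun p : ℕ => e * (2 * (p : ℤ) + 9))) ∪
    ((PP 4 X).image (fun p : ℕ => e * (1 - 2 * (p : ℤ))))) ∪
  (((PP 2 X).image (fun p : ℕ => e * (4 * (p : ℤ) + 9))) ∪
    ((PP 2 X).image (fun p : ℕ => e * (1 - 4 * (p : ℤ)))))

lemma T_card (X : ℕ) (e : ℤ) : (T X e).card ≤ 2 * (PP 4 X).card + 2 * (PP 2 X).card := by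
  have h1 := card_union_le (((PP 4 X).image (fun p : ℕ => e * (2 * (p : ℤ) + 9))) ∪
    ((PP 4 X).image (fun p : ℕ => e * (1 - 2 * (p : ℤ)))))
    (((PP 2 X).image (fun p : ℕ => e * (4 * (p : ℤ) + 9))) ∪
    ((PP 2 X).image (fun p : ℕ => e * (1 - 4 * (p : ℤ)))))
  have h2 := card_union_le ((PP 4 X).image (fun p : ℕ => e * (2 * (p : ℤ) + 9)))
    ((PP 4 X).image (fun p : ℕ => e * (1 - 2 * (p : ℤ))))
  have h3 := card_union_le ((PP 2 X).image (fun p : ℕ => e * (4 * (p : ℤ) + 9)))
    ((PP 2 X).image (fun p : ℕ => e * (1 - 4 * (p : ℤ))))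
  have a1 := card_image_le (s := PP 4 X) (f := fun p : ℕ => e * (2 * (p : ℤ) + 9))
  have a2 := card_image_le (s := PP 4 X) (f := fun p : ℕ => e * (1 - 2 * (p : ℤ)))
  have a3 := card_image_le (s := PP 2 X) (f := fun p : ℕ => e * (4 * (p : ℤ) + 9))
  have a4 := card_image_le (s := PP 2 X) (f := fun p : ℕ => e * (1 - 4 * (p : ℤ)))
  unfold T
  omega

lemma E_sub (X : ℕ) (n : ℤ) (hn : n ∈ E 2 X) (h : 10000000 ≤ |n|) : n ∈ T X 1 ∨ n ∈ T X 4 := by
  obtain ⟨⟨h4, hle⟩, hX⟩ := hn
  obtain ⟨m, e, he, hnm, hm⟩ := struct2 n h4 h (by exact_mod_cast hle)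
  have hT : n ∈ T X e := by
    have hmX : |m| ≤ |n| := by
      rw [hnm, abs_mul]
      rcases he with rfl | rfl
      · simp
      · have := abs_nonneg m
        have h4 : |(4 : ℤ)| = 4 := rfl
        rw [h4]; omega
    have hmbig : 1000000 ≤ |m| := by
      rw [hnm, abs_mul] at h
      rcases he with rfl | rfl
      · rw [abs_one, one_mul] at h; omega
      · have h4 : |(4 : ℤ)| = 4 := rfl
        rw [h4] at h; omega
    rw [hnm]
    rcases hm with ⟨k, rfl, p1, p2, _⟩ | ⟨k, rfl, p1, p2, _⟩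
    · rcases le_abs.1 hmbig with hk | hk
      · -- positive: p = 2k - 3
        have habs : |4 * k + 3| = 4 * k + 3 := abs_of_pos (by omega)
        have e1 : (2 * k + 1).natAbs = (2 * k - 3).natAbs + 4 := by omega
        have e2 : ((2 * k - 3).natAbs : ℤ) = 2 * k - 3 := by omega
        rw [e1] at p1
        unfold T
        rw [mem_union, mem_union]
        left; left
        rw [mem_image]
        refine ⟨(2 * k - 3).natAbs, ?_, by rw [e2]; ring⟩
        rw [PP, mem_filter, mem_Icc]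
        exact ⟨⟨p2.one_lt.le, by omega⟩, p2, p1⟩
      · have habs : |4 * k + 3| = -(4 * k + 3) := abs_of_neg (by omega)
        have e1 : (2 * k - 3).natAbs = (2 * k + 1).natAbs + 4 := by omega
        have e2 : ((2 * k + 1).natAbs : ℤ) = -(2 * k + 1) := by omega
        rw [e1] at p2
        unfold T
        rw [mem_union, mem_union]
        left; right
        rw [mem_image]
        refine ⟨(2 * k + 1).natAbs, ?_, by rw [e2]; ring⟩
        rw [PP, mem_filter, mem_Icc]
        exact ⟨⟨p1.one_lt.le, by omega⟩, p1, p2⟩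
    · rcases le_abs.1 hmbig with hk | hk
      · have habs : |8 * k + 5| = 8 * k + 5 := abs_of_pos (by omega)
        have e1 : (2 * k + 1).natAbs = (2 * k - 1).natAbs + 2 := by omega
        have e2 : ((2 * k - 1).natAbs : ℤ) = 2 * k - 1 := by omega
        rw [e1] at p1
        unfold T
        rw [mem_union]
        right
        rw [mem_union]
        left
        rw [mem_image]
        refine ⟨(2 * k - 1).natAbs, ?_, by rw [e2]; ring⟩
        rw [PP, mem_filter, mem_Icc]
        exact ⟨⟨p2.one_lt.le, by omega⟩, p2, p1⟩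
      · have habs : |8 * k + 5| = -(8 * k + 5) := abs_of_neg (by omega)
        have e1 : (2 * k - 1).natAbs = (2 * k + 1).natAbs + 2 := by omega
        have e2 : ((2 * k + 1).natAbs : ℤ) = -(2 * k + 1) := by omega
        rw [e1] at p2
        unfold T
        rw [mem_union]
        right
        rw [mem_union]
        right
        rw [mem_image]
        refine ⟨(2 * k + 1).natAbs, ?_, by rw [e2]; ring⟩
        rw [PP, mem_filter, mem_Icc]
        exact ⟨⟨p1.one_lt.le, by omega⟩, p1, p2⟩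
  rcases he with rfl | rfl
  · exact Or.inl hT
  · exact Or.inr hT

/-- the upper bound of the order of magnitude of the number of twin primes -/
theorem count2 : ∃ C : ℝ, 0 < C ∧ ∀ X : ℕ, 2 ≤ X →
    ((E 2 X).ncard : ℝ) ≤ C * X / (Real.log X) ^ 2 := by
  obtain ⟨C4, hC4, h4⟩ := pair_bound 4 (by norm_num)
  obtain ⟨C2, hC2, h2⟩ := pair_bound 2 (by norm_num)
  refine ⟨4 * 20000001 + 4 * C4 + 4 * C2, by positivity, fun X hX => ?_⟩
  have hsub : E 2 X ⊆ ((Icc (-10000000 : ℤ) 10000000 ∪ (T X 1 ∪ T X 4) : Finset ℤ) : Set ℤ) := by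
    intro n hn
    rw [mem_coe, mem_union, mem_union]
    by_cases h : 10000000 ≤ |n|
    · exact Or.inr (E_sub X n hn h)
    · left
      rw [mem_Icc]
      push Not at h
      exact abs_le.1 h.le
  have h1 : (E 2 X).ncard ≤ 20000001 + ((T X 1).card + (T X 4).card) := by
    have a1 := Set.ncard_le_ncard hsub (Finset.finite_toSet _)
    rw [Set.ncard_coe_finset] at a1
    have a2 := card_union_le (Icc (-10000000 : ℤ) 10000000) (T X 1 ∪ T X 4)
    have a3 := card_union_le (T X 1) (T X 4)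
    have a4 : (Icc (-10000000 : ℤ) 10000000).card = 20000001 := by
      rw [Int.card_Icc]; rfl
    omega
  have a1 := T_card X 1
  have a2 := T_card X 4
  have h3 : ((E 2 X).ncard : ℝ) ≤ 20000001 + 4 * (PP 4 X).card + 4 * (PP 2 X).card := by
    exact_mod_cast (by omega : (E 2 X).ncard ≤ 20000001 + 4 * (PP 4 X).card + 4 * (PP 2 X).card)
  have b1 := h4 X hX
  have b2 := h2 X hX
  have b3 := const_le X hX
  calc ((E 2 X).ncard : ℝ) ≤ 20000001 + 4 * (PP 4 X).card + 4 * (PP 2 X).card := h3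
    _ ≤ 20000001 * (4 * (X : ℝ) / (Real.log X) ^ 2) + 4 * (C4 * X / (Real.log X) ^ 2) +
        4 * (C2 * X / (Real.log X) ^ 2) := by linarith
    _ = _ := by ring

/-- the sum of the reciprocals converges -/
theorem summable2 : Summable (fun n : U 2 => 1 / |((n : ℤ) : ℝ)|) := by
  obtain ⟨C, hC, hcount⟩ := count2
  have hs : Summable (fun j : ℕ => 1 / ((j : ℝ) + 1) ^ 2) := by
    have := (summable_nat_add_iff 1).2 (Real.summable_one_div_nat_pow.2 (by norm_num : 1 < 2))
    refine this.congr ?_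
    intro j
    push_cast
    ring
  have hl2 : 0 < Real.log 2 := Real.log_pos (by norm_num)
  apply summable_of_sum_le (c := 2 * C / (Real.log 2) ^ 2 * ∑' j : ℕ, 1 / ((j : ℝ) + 1) ^ 2)
  · intro n
    positivity
  · intro u
    classical
    set w : U 2 → ℕ := fun n => Nat.log 2 (n : ℤ).natAbs with hw
    set J := u.sup w + 1 with hJ
    have hmaps : ∀ n ∈ u, w n ∈ range J := by
      intro n hn
      rw [mem_range, hJ]
      have := le_sup (f := w) hn
      omega
    rw [← sum_fiberwise_of_maps_to hmaps]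
    calc ∑ j ∈ range J, ∑ n ∈ u with w n = j, 1 / |((n : ℤ) : ℝ)|
        ≤ ∑ j ∈ range J, 2 * C / (Real.log 2) ^ 2 * (1 / ((j : ℝ) + 1) ^ 2) := by
          apply sum_le_sum
          intro j _
          have hterm : ∀ n ∈ u.filter (fun n => w n = j), 1 / |((n : ℤ) : ℝ)| ≤ 1 / 2 ^ j := by
            intro n hn
            rw [mem_filter] at hn
            by_cases h0 : (n : ℤ) = 0
            · rw [h0]; simp
            · apply one_div_le_one_div_of_le (by positivity)
              have h1 : (n : ℤ).natAbs ≠ 0 := by omega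
              have h2 := Nat.pow_log_le_self 2 h1
              have h3 : Nat.log 2 (n : ℤ).natAbs = j := hn.2
              rw [h3] at h2
              have h4 : |((n : ℤ) : ℝ)| = (((n : ℤ).natAbs : ℕ) : ℝ) := by
                rw [Nat.cast_natAbs, Int.cast_abs]
              rw [h4]
              exact_mod_cast h2
          have hcard : (u.filter (fun n => w n = j)).card ≤ (E 2 (2 ^ (j + 1))).ncard := by
            rw [← card_image_of_injective (u.filter (fun n => w n = j)) Subtype.val_injective,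
              ← Set.ncard_coe_finset]
            apply Set.ncard_le_ncard _ (E_finite _ _)
            intro x hx
            simp only [coe_image, Set.mem_image, mem_coe, mem_filter] at hx
            obtain ⟨n, ⟨_, hn2⟩, rfl⟩ := hx
            refine ⟨n.2, ?_⟩
            have h3 : Nat.log 2 (n : ℤ).natAbs = j := hn2
            have h5 := Nat.lt_pow_succ_log_self (by norm_num : 1 < 2) (n : ℤ).natAbs
            rw [h3] at h5
            rw [Int.abs_eq_natAbs]
            exact_mod_cast h5.le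
          have h2j : 2 ≤ 2 ^ (j + 1) := by
            rw [pow_succ]
            have := Nat.one_le_two_pow (n := j)
            omega
          have hb := hcount (2 ^ (j + 1)) h2j
          push_cast at hb
          rw [Real.log_pow] at hb
          push_cast at hb
          calc ∑ n ∈ u with w n = j, 1 / |((n : ℤ) : ℝ)|
              ≤ (u.filter (fun n => w n = j)).card • (1 / (2 : ℝ) ^ j) :=
                sum_le_card_nsmul _ _ _ hterm
            _ = ((u.filter (fun n => w n = j)).card : ℝ) * (1 / (2 : ℝ) ^ j) := by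
                rw [nsmul_eq_mul]
            _ ≤ (C * 2 ^ (j + 1) / (((j : ℝ) + 1) * Real.log 2) ^ 2) * (1 / (2 : ℝ) ^ j) := by
                gcongr
                exact (by exact_mod_cast hcard : ((u.filter (fun n => w n = j)).card : ℝ) ≤
                  (E 2 (2 ^ (j + 1))).ncard).trans hb
            _ = 2 * C / (Real.log 2) ^ 2 * (1 / ((j : ℝ) + 1) ^ 2) := by
                field_simp
                ring
      _ = 2 * C / (Real.log 2) ^ 2 * ∑ j ∈ range J, (1 / ((j : ℝ) + 1) ^ 2) := by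
          rw [mul_sum]
      _ ≤ _ := by
          apply mul_le_mul_of_nonneg_left _ (by positivity)
          exact hs.sum_le_tsum _ (fun j _ => by positivity)

/-- the finite set containing the large elements of `U K` -/
def W (K X : ℕ) (e f : ℤ) : Finset ℤ :=
  (((Icc 1 X).filter (fun a => a.primeFactors.card ≤ K + 1)).image
    (fun a : ℕ => e * (1 + f * (a : ℤ)))) ∪
  (((Icc 1 X).filter (fun a => a.primeFactors.card ≤ K + 1)).image
    (fun a : ℕ => e * (1 + f * (-(a : ℤ)))))

lemma W_card (K X : ℕ) (e f : ℤ) :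
    (W K X e f).card ≤ 2 * ((Icc 1 X).filter (fun a => a.primeFactors.card ≤ K + 1)).card := by
  unfold W
  have a1 := card_image_le (s := (Icc 1 X).filter (fun a => a.primeFactors.card ≤ K + 1))
    (f := fun a : ℕ => e * (1 + f * (a : ℤ)))
  have a2 := card_image_le (s := (Icc 1 X).filter (fun a => a.primeFactors.card ≤ K + 1))
    (f := fun a : ℕ => e * (1 + f * (-(a : ℤ))))
  have a3 := card_union_le (((Icc 1 X).filter (fun a => a.primeFactors.card ≤ K + 1)).image
    (fun a : ℕ => e * (1 + f * (a : ℤ))))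
    (((Icc 1 X).filter (fun a => a.primeFactors.card ≤ K + 1)).image
    (fun a : ℕ => e * (1 + f * (-(a : ℤ)))))
  omega

lemma E_subK (K X : ℕ) (n : ℤ) (hn : n ∈ E K X) (h : 1000000 ≤ |n|) :
    n ∈ (({1, 4} : Finset ℤ) ×ˢ ({1, 2, 4, 8} : Finset ℤ)).biUnion
      (fun ef => W K (X + 1) ef.1 ef.2) := by
  obtain ⟨⟨h4, hle⟩, hX⟩ := hn
  obtain ⟨A, e, f, he, hf, hnA, hc⟩ := div_bound n h4 h
  rw [mem_biUnion]
  refine ⟨(e, f), mem_product.2 ⟨he, hf⟩, ?_⟩
  simp only
  have hle' : ((sdiv A.natAbs).card : ℕ∞) ≤ (K : ℕ∞) := hc.trans hle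
  have hle2 : (sdiv A.natAbs).card ≤ K := by exact_mod_cast hle'
  have hA0 : A.natAbs ≠ 0 := by
    intro h0
    have : A = 0 := by omega
    rw [this, mul_zero, add_zero, mul_one] at hnA
    simp only [mem_insert, mem_singleton] at he
    rcases he with rfl | rfl
    · rw [hnA] at h; norm_num at h
    · rw [hnA] at h
      have h4 : |(4 : ℤ)| = 4 := rfl
      rw [h4] at h; omega
  have hom := primeFactors_card_le A.natAbs hA0
  have hAX : A.natAbs ≤ X + 1 := by
    have h1 : |A| ≤ |n| + 1 := by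
      simp only [mem_insert, mem_singleton] at he hf
      rcases he with rfl | rfl <;> rcases hf with rfl | rfl | rfl | rfl <;>
        rcases abs_cases A with ⟨hA, hA'⟩ | ⟨hA, hA'⟩ <;>
          rcases abs_cases n with ⟨hN, hN'⟩ | ⟨hN, hN'⟩ <;> omega
    have : (A.natAbs : ℤ) = |A| := (Int.abs_eq_natAbs A).symm
    omega
  have hmem : A.natAbs ∈ (Icc 1 (X + 1)).filter (fun a => a.primeFactors.card ≤ K + 1) := by
    rw [mem_filter, mem_Icc]
    refine ⟨⟨by omega, hAX⟩, ?_⟩
    unfold sdiv at hle2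
    omega
  unfold W
  rw [mem_union, mem_image, mem_image]
  rcases le_total 0 A with h0 | h0
  · left
    exact ⟨A.natAbs, hmem, by rw [hnA, Int.natAbs_of_nonneg h0]⟩
  · right
    refine ⟨A.natAbs, hmem, ?_⟩
    have : (A.natAbs : ℤ) = -A := by omega
    rw [hnA, this]; ring

/-- for every `K`, density zero -/
theorem densK (K : ℕ) :
    Filter.Tendsto (fun X : ℕ => ((E K X).ncard : ℝ) / X) Filter.atTop (nhds 0) := by
  rw [Metric.tendsto_atTop]
  intro ε hε
  obtain ⟨X0, hX0⟩ := omega_dens (K + 1) (ε / 64) (by positivity)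
  refine ⟨max (max X0 2) ⌈8 * 2000001 / ε⌉₊, fun X hX => ?_⟩
  have hX1 : X0 ≤ X := (le_max_left _ _).trans ((le_max_left _ _).trans hX)
  have hX2 : 2 ≤ X := (le_max_right _ _).trans ((le_max_left _ _).trans hX)
  have hX3 : 8 * 2000001 / ε ≤ X :=
    (Nat.le_ceil _).trans (by exact_mod_cast (le_max_right _ _).trans hX)
  have hXpos : (0 : ℝ) < X := by exact_mod_cast (by omega : 0 < X)
  have hsub : E K X ⊆ ((Icc (-1000000 : ℤ) 1000000 ∪
      (({1, 4} : Finset ℤ) ×ˢ ({1, 2, 4, 8} : Finset ℤ)).biUnion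
      (fun ef => W K (X + 1) ef.1 ef.2) : Finset ℤ) : Set ℤ) := by
    intro n hn
    rw [mem_coe, mem_union]
    by_cases h : 1000000 ≤ |n|
    · exact Or.inr (E_subK K X n hn h)
    · left
      rw [mem_Icc]
      push Not at h
      exact abs_le.1 h.le
  set S := (Icc 1 (X + 1)).filter (fun a => a.primeFactors.card ≤ K + 1) with hS
  have h1 : (E K X).ncard ≤ 2000001 + 16 * S.card := by
    have a1 := Set.ncard_le_ncard hsub (Finset.finite_toSet _)
    rw [Set.ncard_coe_finset] at a1
    have a2 := card_union_le (Icc (-1000000 : ℤ) 1000000)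
      ((({1, 4} : Finset ℤ) ×ˢ ({1, 2, 4, 8} : Finset ℤ)).biUnion
      (fun ef => W K (X + 1) ef.1 ef.2))
    have a3 := card_biUnion_le_card_mul (({1, 4} : Finset ℤ) ×ˢ ({1, 2, 4, 8} : Finset ℤ))
      (fun ef => W K (X + 1) ef.1 ef.2) (2 * S.card) (fun ef _ => W_card K (X + 1) ef.1 ef.2)
    have a4 : (({1, 4} : Finset ℤ) ×ˢ ({1, 2, 4, 8} : Finset ℤ)).card = 8 := by decide
    rw [a4] at a3
    have a5 : (Icc (-1000000 : ℤ) 1000000).card = 2000001 := by
      rw [Int.card_Icc]; rfl
    omega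
  have h2 := hX0 (X + 1) (by omega)
  rw [← hS] at h2
  push_cast at h2
  have h3 : ((E K X).ncard : ℝ) ≤ 2000001 + 16 * S.card := by exact_mod_cast h1
  have h4 : ((E K X).ncard : ℝ) ≤ 2000001 + 16 * (ε / 64 * (X + 1)) := by linarith
  rw [div_le_iff₀ hε] at hX3
  have h5 : (1 : ℝ) ≤ X := by exact_mod_cast (by omega : 1 ≤ X)
  rw [Real.dist_eq, sub_zero, abs_of_nonneg (by positivity), div_lt_iff₀ hXpos]
  nlinarith

end Pool.Agent.Lib.MP_dde2f1_nt
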