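import Pool.Agent.Lib.MP_dde2f1_nt.Struct

/-!
# The fourth prime condition

If `n = 4k+3` or `n = 8k+5` is large and has at most two `D(n)`-quadruples, then `|n|` is prime or
`n = q(q+2)`, respectively `n = q(q+4)`.
-/

set_option autoImplicit false

namespace Pool.Agent.Lib.MP_dde2f1_nt

lemma base3 (k : ℤ) (hk : 1000 ≤ |k|) :
    (∃ t ∈ DQ (4 * k + 3), (2 * k + 1) * (2 * k - 3) ∈ t ∧ ∀ x ∈ t, x ≤ (2 * k + 1) * (2 * k - 3)) ∧
    (∃ t ∈ DQ (4 * k + 3), (18 * k + 13) * (2 * k + 1) ∈ t ∧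
      ∀ x ∈ t, x ≤ (18 * k + 13) * (2 * k + 1)) := by
  constructor
  · have : ∃ N, -(2 * N) ≤ 2 * k + 3 ∧ 2 * k + 3 ≤ 2 * N ∧
        3 * 1 + 4 * N < (2 * k + 1) * (2 * k - 3) := by
      rcases le_abs.1 hk with h | h
      · exact ⟨k + 2, by omega, by omega, by nlinarith⟩
      · exact ⟨-(k + 1), by omega, by omega, by nlinarith⟩
    obtain ⟨N, a1, a2, a3⟩ := this
    exact mk _ 1 _ (2 * k + 3) (k ^ 2 - 2 * k - 2) (k ^ 2 + 1) (2 * k) N
      (by norm_num) a1 a2 (by omega) a3 (by ring) (by ring) (by ring) (by ring)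
  · have : ∃ N, -(2 * N) ≤ 6 * k + 5 ∧ 6 * k + 5 ≤ 2 * N ∧
        3 * 1 + 4 * N < (18 * k + 13) * (2 * k + 1) := by
      rcases le_abs.1 hk with h | h
      · exact ⟨3 * k + 3, by omega, by omega, by nlinarith⟩
      · exact ⟨-(3 * k + 2), by omega, by omega, by nlinarith⟩
    obtain ⟨N, a1, a2, a3⟩ := this
    exact mk _ 1 _ (6 * k + 5) (9 * k ^ 2 + 8 * k + 1) (9 * k ^ 2 + 14 * k + 6) (6 * k + 4) N
      (by norm_num) a1 a2 (by omega) a3 (by ring) (by ring) (by ring) (by ring)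

lemma base5 (k : ℤ) (hk : 1000 ≤ |k|) :
    (∃ t ∈ DQ (8 * k + 5), 2 * ((2 * k + 1) * (2 * k - 1)) ∈ t ∧
      ∀ x ∈ t, x ≤ 2 * ((2 * k + 1) * (2 * k - 1))) ∧
    (∃ t ∈ DQ (8 * k + 5), 2 * ((18 * k + 11) * (2 * k + 1)) ∈ t ∧
      ∀ x ∈ t, x ≤ 2 * ((18 * k + 11) * (2 * k + 1))) := by
  constructor
  · have : ∃ N, -(2 * N) ≤ 4 * k + 4 ∧ 4 * k + 4 ≤ 2 * N ∧
        3 * 2 + 4 * N < 2 * ((2 * k + 1) * (2 * k - 1)) := by
      rcases le_abs.1 hk with h | h
      · exact ⟨2 * k + 2, by omega, by omega, by nlinarith⟩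
      · exact ⟨-(2 * k + 2), by omega, by omega, by nlinarith⟩
    obtain ⟨N, a1, a2, a3⟩ := this
    exact mk _ 2 _ (4 * k + 4) (2 * k ^ 2 - 2 * k - 2) (2 * k ^ 2 + 2 * k + 2) (4 * k + 1) N
      (by norm_num) a1 a2 (by rcases le_abs.1 hk with h | h <;> omega) a3 (by ring) (by ring)
      (by ring) (by ring)
  · have : ∃ N, -(2 * N) ≤ 12 * k + 8 ∧ 12 * k + 8 ≤ 2 * N ∧
        3 * 2 + 4 * N < 2 * ((18 * k + 11) * (2 * k + 1)) := by
      rcases le_abs.1 hk with h | h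
      · exact ⟨6 * k + 4, by omega, by omega, by nlinarith⟩
      · exact ⟨-(6 * k + 4), by omega, by omega, by nlinarith⟩
    obtain ⟨N, a1, a2, a3⟩ := this
    exact mk _ 2 _ (12 * k + 8) (18 * k ^ 2 + 14 * k + 2) (18 * k ^ 2 + 26 * k + 10) (12 * k + 7) N
      (by norm_num) a1 a2 (by omega) a3 (by ring) (by ring) (by ring) (by ring)

/-- a composite odd number not divisible by `3` -/
lemma factor (M : ℕ) (hM : 2 ≤ M) (h2 : M % 2 = 1) (h3 : M % 3 ≠ 0) (hnp : ¬ M.Prime) :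
    ∃ i d : ℤ, 2 ≤ i ∧ 2 * i + 1 ≤ d ∧ (M : ℤ) = (2 * i + 1) * d := by
  have hq := Nat.minFac_prime (by omega : M ≠ 1)
  have hqd := Nat.minFac_dvd M
  have hsq := Nat.minFac_sq_le_self (by omega : 0 < M) hnp
  obtain ⟨d, hd⟩ := hqd
  set q := M.minFac with hqdef
  have hq2 : q % 2 = 1 := by
    rcases Nat.even_or_odd q with h | h
    · exfalso
      have : 2 ∣ M := (even_iff_two_dvd.1 h).trans ⟨d, hd⟩
      omega
    · exact Nat.odd_iff.1 h
  have hq3 : q ≠ 3 := by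
    intro h
    have : 3 ∣ M := ⟨d, by rw [← h]; exact hd⟩
    omega
  have hq5 : 5 ≤ q := by
    have := hq.two_le
    omega
  have hqle : q ≤ d := by
    rw [sq] at hsq
    rw [hd] at hsq
    exact le_of_mul_le_mul_left hsq (by omega)
  refine ⟨(q / 2 : ℕ), d, by omega, by omega, ?_⟩
  have e1 : 2 * ((q / 2 : ℕ) : ℤ) + 1 = q := by omega
  rw [e1]
  exact_mod_cast hd

lemma prime3 (k : ℤ) (hk : 1000 ≤ |k|) (hle : (DQ (4 * k + 3)).encard ≤ 2)
    (h3 : (2 * k - 3).natAbs.Prime) :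
    (4 * k + 3).natAbs.Prime ∨ ∃ q : ℕ, 4 * k + 3 = q * (q + 2) := by
  by_contra hcon
  push Not at hcon
  obtain ⟨hnp, hq⟩ := hcon
  have h3' : (4 * k + 3) % 3 ≠ 0 := by
    intro h
    have h1 : 3 ∣ (2 * k - 3).natAbs := by omega
    have h2 := (Nat.prime_dvd_prime_iff_eq Nat.prime_three h3).1 h1
    rcases le_abs.1 hk with h | h <;> omega
  obtain ⟨b1, b2⟩ := base3 k hk
  rcases le_abs.1 hk with hk0 | hk0
  · obtain ⟨i, d, hi, hid, hM⟩ := factor (4 * k + 3).natAbs (by omega) (by omega) (by omega) hnp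
    have hM' : 4 * k + 3 = (2 * i + 1) * d := by omega
    have hd : ∃ j : ℤ, 0 ≤ j ∧ d = 2 * i + 4 * j + 3 := by
      have h1 : d % 2 = 1 := by
        by_contra h
        have h0 : d % 2 = 0 := by omega
        obtain ⟨t, ht⟩ : ∃ t, d = 2 * t := ⟨d / 2, by omega⟩
        rw [ht] at hM'
        have : 4 * k + 3 = 2 * ((2 * i + 1) * t) := by rw [hM']; ring
        omega
      rcases (by omega : (d - (2 * i + 1)) % 4 = 0 ∨ (d - (2 * i + 1)) % 4 = 2) with h | h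
      · exfalso
        obtain ⟨t, ht⟩ : ∃ t, d = 2 * i + 1 + 4 * t := ⟨(d - (2 * i + 1)) / 4, by omega⟩
        rw [ht] at hM'
        have : 4 * k + 3 = 4 * ((2 * i + 1) * t + i ^ 2 + i) + 1 := by rw [hM']; ring
        omega
      · exact ⟨(d - (2 * i + 1)) / 4, by omega, by omega⟩
    obtain ⟨j, hj, rfl⟩ := hd
    have hj1 : 1 ≤ j := by
      by_contra h
      have hj0 : j = 0 := by omega
      apply hq (2 * i + 1).toNat
      rw [hM', hj0, Int.toNat_of_nonneg (by omega)]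
      ring
    have b3 : ∃ t ∈ DQ (4 * k + 3), (8 * i + 18 * j + 13) * (2 * j + 1) ∈ t ∧
        ∀ x ∈ t, x ≤ (8 * i + 18 * j + 13) * (2 * j + 1) := by
      rw [hM']
      exact mk _ 1 _ (4 * i + 6 * j + 5) (4 * i * j + 9 * j ^ 2 + 8 * j + 1)
        (4 * i * j + 9 * j ^ 2 + 14 * j + 4 * i + 6) (2 * i + 6 * j + 4) (2 * i + 3 * j + 3)
        (by norm_num) (by omega) (by omega) (by omega) (by nlinarith) (by ring) (by ring)
        (by ring) (by ring)
    have hk5 : 5 * (2 * i + 4 * j + 3) ≤ 4 * k + 3 := by rw [hM']; gcongr; omega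
    have l1 : (8 * i + 18 * j + 13) * (2 * j + 1) < (2 * k + 1) * (2 * k - 3) := by
      nlinarith
    have l2 : (2 * k + 1) * (2 * k - 3) < (18 * k + 13) * (2 * k + 1) := by nlinarith
    exact three _ _ _ _ l1.ne (l1.trans l2).ne l2.ne b3 b1 b2 hle
  · obtain ⟨i, d, hi, hid, hM⟩ := factor (4 * k + 3).natAbs (by omega) (by omega) (by omega) hnp
    have hM' : 4 * k + 3 = -((2 * i + 1) * d) := by omega
    have hd : ∃ j : ℤ, 0 ≤ j ∧ d = 2 * i + 4 * j + 1 := by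
      have h1 : d % 2 = 1 := by
        by_contra h
        have h0 : d % 2 = 0 := by omega
        obtain ⟨t, ht⟩ : ∃ t, d = 2 * t := ⟨d / 2, by omega⟩
        rw [ht] at hM'
        have : 4 * k + 3 = 2 * (-((2 * i + 1) * t)) := by rw [hM']; ring
        omega
      rcases (by omega : (d - (2 * i + 1)) % 4 = 2 ∨ (d - (2 * i + 1)) % 4 = 0) with h | h
      · exfalso
        obtain ⟨t, ht⟩ : ∃ t, d = 2 * i + 3 + 4 * t := ⟨(d - (2 * i + 3)) / 4, by omega⟩
        rw [ht] at hM'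
        have : 4 * k + 3 = 4 * (-((2 * i + 1) * t) - i ^ 2 - 2 * i) - 3 := by rw [hM']; ring
        omega
      · exact ⟨(d - (2 * i + 1)) / 4, by omega, by omega⟩
    obtain ⟨j, hj, rfl⟩ := hd
    have b3 : ∃ t ∈ DQ (4 * k + 3), (10 * i + 18 * j + 5) * (2 * i + 2 * j + 1) ∈ t ∧
        ∀ x ∈ t, x ≤ (10 * i + 18 * j + 5) * (2 * i + 2 * j + 1) := by
      rw [hM']
      exact mk _ 1 _ (2 * i + 6 * j + 1) (5 * i ^ 2 + 14 * i * j + 9 * j ^ 2 + 4 * i + 4 * j + 1)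
        (5 * i ^ 2 + 14 * i * j + 9 * j ^ 2 + 6 * i + 10 * j + 2) (4 * i + 6 * j + 2) (i + 3 * j + 1)
        (by norm_num) (by omega) (by omega) (by omega) (by nlinarith) (by ring) (by ring)
        (by ring) (by ring)
    have hk5 : 5 * (2 * i + 4 * j + 1) ≤ -(4 * k + 3) := by
      rw [hM', neg_neg]; gcongr; omega
    have l1 : (10 * i + 18 * j + 5) * (2 * i + 2 * j + 1) < (2 * k + 1) * (2 * k - 3) := by
      nlinarith
    have l2 : (2 * k + 1) * (2 * k - 3) < (18 * k + 13) * (2 * k + 1) := by nlinarith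
    exact three _ _ _ _ l1.ne (l1.trans l2).ne l2.ne b3 b1 b2 hle

lemma prime5 (k : ℤ) (hk : 1000 ≤ |k|) (hle : (DQ (8 * k + 5)).encard ≤ 2)
    (h3 : (2 * k - 1).natAbs.Prime) :
    (8 * k + 5).natAbs.Prime ∨ ∃ q : ℕ, 8 * k + 5 = q * (q + 4) := by
  by_contra hcon
  push Not at hcon
  obtain ⟨hnp, hq⟩ := hcon
  have h3' : (8 * k + 5) % 3 ≠ 0 := by
    intro h
    have h1 : 3 ∣ (2 * k - 1).natAbs := by omega
    have h2 := (Nat.prime_dvd_prime_iff_eq Nat.prime_three h3).1 h1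
    rcases le_abs.1 hk with h | h <;> omega
  obtain ⟨b1, b2⟩ := base5 k hk
  rcases le_abs.1 hk with hk0 | hk0
  · obtain ⟨i, d, hi, hid, hM⟩ := factor (8 * k + 5).natAbs (by omega) (by omega) (by omega) hnp
    have hM' : 8 * k + 5 = (2 * i + 1) * d := by omega
    have hd : ∃ j : ℤ, 0 ≤ j ∧ d = 2 * i + 8 * j + 5 := by
      have h1 : d % 2 = 1 := by
        by_contra h
        have h0 : d % 2 = 0 := by omega
        obtain ⟨t, ht⟩ : ∃ t, d = 2 * t := ⟨d / 2, by omega⟩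
        rw [ht] at hM'
        have : 8 * k + 5 = 2 * ((2 * i + 1) * t) := by rw [hM']; ring
        omega
      obtain ⟨u, hu⟩ := two_dvd_mul_succ i
      obtain ⟨w, r, hr, hd⟩ : ∃ w r : ℤ, (r = 0 ∨ r = 1 ∨ r = 2 ∨ r = 3) ∧
          d = 2 * i + 1 + 2 * (4 * w + r) :=
        ⟨(d - (2 * i + 1)) / 8, (d - (2 * i + 1)) / 2 % 4, by omega, by omega⟩
      have key : 8 * k + 5 = 8 * (u + w * (2 * i + 1)) + 1 + 4 * (r * i) + 2 * r := by
        rw [hM', hd]; linear_combination 4 * hu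
      rcases hr with rfl | rfl | rfl | rfl
      · exfalso; omega
      · exfalso; omega
      · exact ⟨w, by omega, by omega⟩
      · exfalso; omega
    obtain ⟨j, hj, rfl⟩ := hd
    have hj1 : 1 ≤ j := by
      by_contra h
      have hj0 : j = 0 := by omega
      apply hq (2 * i + 1).toNat
      rw [hM', hj0, Int.toNat_of_nonneg (by omega)]
      ring
    have b3 : ∃ t ∈ DQ (8 * k + 5), 2 * ((4 * i + 18 * j + 11) * (2 * j + 1)) ∈ t ∧
        ∀ x ∈ t, x ≤ 2 * ((4 * i + 18 * j + 11) * (2 * j + 1)) := by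
      rw [hM']
      exact mk _ 2 _ (4 * i + 12 * j + 8) (4 * i * j + 18 * j ^ 2 + 14 * j + 2)
        (4 * i * j + 18 * j ^ 2 + 26 * j + 4 * i + 10) (2 * i + 12 * j + 7) (2 * i + 6 * j + 4)
        (by norm_num) (by omega) (by omega) (by omega) (by nlinarith) (by ring) (by ring)
        (by ring) (by ring)
    have hk5 : 5 * (2 * i + 8 * j + 5) ≤ 8 * k + 5 := by rw [hM']; gcongr; omega
    have l1 : 2 * ((4 * i + 18 * j + 11) * (2 * j + 1)) < 2 * ((2 * k + 1) * (2 * k - 1)) := by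
      nlinarith
    have l2 : 2 * ((2 * k + 1) * (2 * k - 1)) < 2 * ((18 * k + 11) * (2 * k + 1)) := by nlinarith
    exact three _ _ _ _ l1.ne (l1.trans l2).ne l2.ne b3 b1 b2 hle
  · obtain ⟨i, d, hi, hid, hM⟩ := factor (8 * k + 5).natAbs (by omega) (by omega) (by omega) hnp
    have hM' : 8 * k + 5 = -((2 * i + 1) * d) := by omega
    have hd : ∃ j : ℤ, d = 8 * j + 3 - 2 * i := by
      have h1 : d % 2 = 1 := by
        by_contra h
        have h0 : d % 2 = 0 := by omega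
        obtain ⟨t, ht⟩ : ∃ t, d = 2 * t := ⟨d / 2, by omega⟩
        rw [ht] at hM'
        have : 8 * k + 5 = 2 * (-((2 * i + 1) * t)) := by rw [hM']; ring
        omega
      obtain ⟨u, hu⟩ := two_dvd_mul_succ i
      obtain ⟨w, r, hr, hd⟩ : ∃ w r : ℤ, (r = 0 ∨ r = 1 ∨ r = 2 ∨ r = 3) ∧
          d = -(2 * i + 1) + 2 * (4 * w + r) :=
        ⟨(d + (2 * i + 1)) / 8, (d + (2 * i + 1)) / 2 % 4, by omega, by omega⟩
      have key : 8 * k + 5 = 8 * (u - w * (2 * i + 1)) + 1 - 4 * (r * i) - 2 * r := by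
        rw [hM', hd]; linear_combination 4 * hu
      rcases hr with rfl | rfl | rfl | rfl
      · exfalso; omega
      · exfalso; omega
      · exact ⟨w, by omega⟩
      · exfalso; omega
    obtain ⟨j, rfl⟩ := hd
    have hj : i ≤ 2 * j := by omega
    have b3 : ∃ t ∈ DQ (8 * k + 5), 2 * ((18 * j + 7 - 4 * i) * (2 * j + 1)) ∈ t ∧
        ∀ x ∈ t, x ≤ 2 * ((18 * j + 7 - 4 * i) * (2 * j + 1)) := by
      rw [hM']
      exact mk _ 2 _ (12 * j + 4 - 4 * i) (18 * j ^ 2 + 10 * j + 2 - 4 * i * j)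
        (18 * j ^ 2 + 22 * j + 6 - 4 * i * j - 4 * i) (12 * j + 5 - 2 * i) (6 * j + 2 - 2 * i)
        (by norm_num) (by omega) (by omega) (by omega) (by nlinarith) (by ring) (by ring)
        (by ring) (by ring)
    have hk5 : 5 * (8 * j + 3 - 2 * i) ≤ -(8 * k + 5) := by
      rw [hM', neg_neg]; gcongr
      · omega
      · omega
    have l1 : 2 * ((18 * j + 7 - 4 * i) * (2 * j + 1)) < 2 * ((2 * k + 1) * (2 * k - 1)) := by
      nlinarith
    have l2 : 2 * ((2 * k + 1) * (2 * k - 1)) < 2 * ((18 * k + 11) * (2 * k + 1)) := by nlinarith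
    exact three _ _ _ _ l1.ne (l1.trans l2).ne l2.ne b3 b1 b2 hle

end Pool.Agent.Lib.MP_dde2f1_nt
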