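import Pool.Agent.Lib.MP_dde2f1_nt.SieveLib

/-!
# Selberg's upper bound for prime tuples

For linear forms `a i * m + b i`, `i < κ`, no two of them proportional, the number of `m ≤ N` for
which all `|a i * m + b i|` are prime is `O(N / (log N) ^ κ)`.
-/

set_option autoImplicit false

open Finset ArithmeticFunction

namespace Pool.Agent.Lib.MP_dde2f1_nt.Sieve

/-! ### products of sums over squarefree divisors -/

section prods

variable {F G : ArithmeticFunction ℝ}

lemma sum_div (hG : G.IsMultiplicative) (a : ℕ) (ha : Squarefree a) :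
    ∑ c ∈ a.divisors, G c = prodPrimeFactors (fun p => 1 + G p) a := by
  rw [prodPrimeFactors_apply ha.ne_zero, hG.prodPrimeFactors_one_add_of_squarefree ha]

lemma inner_sum' (hG : G.IsMultiplicative) (e a : ℕ) (he : Squarefree e) (hae : a ∣ e) :
    ∑ b ∈ e.divisors.filter (fun b => (e / a) ∣ b), G b =
      G (e / a) * prodPrimeFactors (fun p => 1 + G p) a := by
  have he0 : e ≠ 0 := he.ne_zero
  have ha0 : a ≠ 0 := by rintro rfl; exact he0 (Nat.eq_zero_of_zero_dvd hae)
  have hea : (e / a) * a = e := Nat.div_mul_cancel hae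
  have hm0 : e / a ≠ 0 := by
    intro h
    rw [h, zero_mul] at hea
    exact he0 hea.symm
  have hcop : Nat.Coprime (e / a) a := by
    apply Nat.coprime_of_squarefree_mul
    rw [hea]; exact he
  have h1 : e.divisors.filter (fun b => (e / a) ∣ b) = a.divisors.image (fun k => (e / a) * k) := by
    have := divisors_mul_image (e / a) a hm0 ha0
    rw [hea] at this
    exact this
  rw [h1, Finset.sum_image (by
      intro x _ y _ hxy
      exact Nat.eq_of_mul_eq_mul_left (Nat.pos_of_ne_zero hm0) hxy),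
    ← sum_div hG a (Squarefree.squarefree_of_dvd hae he), Finset.mul_sum]
  apply Finset.sum_congr rfl
  intro c hc
  exact hG.map_mul_of_coprime
    (Nat.Coprime.coprime_dvd_right (Nat.dvd_of_mem_divisors hc) hcop)

lemma T_eq' (hF : F.IsMultiplicative) (hG : G.IsMultiplicative) (e : ℕ) (he : Squarefree e) :
    ∑ a ∈ e.divisors, F a * ∑ b ∈ e.divisors.filter (fun b => (e / a) ∣ b), G b =
      ∏ p ∈ e.primeFactors, (F p + G p + F p * G p) := by
  have hM : (prodPrimeFactors (fun p => 1 + G p)).IsMultiplicative := IsMultiplicative.prodPrimeFactors _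
  have h1 : ∀ a ∈ e.divisors,
      F a * ∑ b ∈ e.divisors.filter (fun b => (e / a) ∣ b), G b =
        (F.pmul (prodPrimeFactors (fun p => 1 + G p))) a * G (e / a) := by
    intro a ha
    rw [inner_sum' hG e a he (Nat.dvd_of_mem_divisors ha), pmul_apply]
    ring
  rw [Finset.sum_congr rfl h1]
  have h2 := (hF.pmul hM).prodPrimeFactors_add_of_squarefree hG he
  rw [mul_apply, Nat.sum_divisorsAntidiagonal (fun x y =>
    (F.pmul (prodPrimeFactors (fun p => 1 + G p))) x * G y)] at h2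
  rw [← h2, prodPrimeFactors_apply he.ne_zero]
  apply Finset.prod_congr rfl
  intro p hp
  have hpp := Nat.prime_of_mem_primeFactors hp
  rw [ArithmeticFunction.add_apply, pmul_apply, prodPrimeFactors_apply hpp.ne_zero, hpp.primeFactors,
    Finset.prod_singleton]
  ring

/-- the product of two sums over divisors -/
lemma mul_le (hF : F.IsMultiplicative) (hG : G.IsMultiplicative) (hF0 : ∀ n, 0 ≤ F n)
    (hG0 : ∀ n, 0 ≤ G n) (P y z : ℕ) (hP : Squarefree P) :
    (∑ a ∈ P.divisors.filter (· ≤ y), F a) * (∑ b ∈ P.divisors.filter (· ≤ z), G b) ≤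
      ∑ e ∈ P.divisors.filter (· ≤ y * z), ∏ p ∈ e.primeFactors, (F p + G p + F p * G p) := by
  classical
  set A := P.divisors.filter (· ≤ y) with hA
  set B := P.divisors.filter (· ≤ z) with hB
  set E := P.divisors.filter (· ≤ y * z) with hE
  have h1 : (∑ a ∈ A, F a) * (∑ b ∈ B, G b) = ∑ x ∈ A ×ˢ B, F x.1 * G x.2 := by
    rw [Finset.sum_mul_sum, Finset.sum_product]
  rw [h1]
  have hmaps : ∀ x ∈ A ×ˢ B, Nat.lcm x.1 x.2 ∈ E := by
    intro x hx
    rw [Finset.mem_product, hA, hB, Finset.mem_filter, Finset.mem_filter, Nat.mem_divisors,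
      Nat.mem_divisors] at hx
    rw [hE, Finset.mem_filter, Nat.mem_divisors]
    refine ⟨⟨Nat.lcm_dvd hx.1.1.1 hx.2.1.1, hP.ne_zero⟩, ?_⟩
    have hx1 : 0 < x.1 := Nat.pos_of_dvd_of_pos hx.1.1.1 (Nat.pos_of_ne_zero hP.ne_zero)
    have hx2 : 0 < x.2 := Nat.pos_of_dvd_of_pos hx.2.1.1 (Nat.pos_of_ne_zero hP.ne_zero)
    calc Nat.lcm x.1 x.2 ≤ x.1 * x.2 :=
          Nat.le_of_dvd (Nat.mul_pos hx1 hx2) (Nat.lcm_dvd_mul _ _)
      _ ≤ y * z := Nat.mul_le_mul hx.1.2 hx.2.2
  rw [← Finset.sum_fiberwise_of_maps_to hmaps]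
  apply Finset.sum_le_sum
  intro e he
  rw [hE, Finset.mem_filter, Nat.mem_divisors] at he
  have hesq : Squarefree e := Squarefree.squarefree_of_dvd he.1.1 hP
  have he0 : e ≠ 0 := hesq.ne_zero
  rw [← T_eq' hF hG e hesq]
  have h2 : ∑ a ∈ e.divisors, F a * ∑ b ∈ e.divisors.filter (fun b => (e / a) ∣ b), G b =
      ∑ x ∈ e.divisors.sigma (fun a => e.divisors.filter (fun b => (e / a) ∣ b)),
        F x.1 * G x.2 := by
    rw [Finset.sum_sigma]
    apply Finset.sum_congr rfl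
    intro a _
    rw [Finset.mul_sum]
  rw [h2]
  -- inject
  have h3 : ∑ x ∈ (A ×ˢ B).filter (fun x => Nat.lcm x.1 x.2 = e), F x.1 * G x.2 =
      ∑ x ∈ ((A ×ˢ B).filter (fun x => Nat.lcm x.1 x.2 = e)).image
        (fun x => (⟨x.1, x.2⟩ : (_ : ℕ) × ℕ)), F x.1 * G x.2 := by
    rw [Finset.sum_image]
    intro x _ y _ hxy
    simp only [Sigma.mk.injEq, heq_eq_eq] at hxy
    exact Prod.ext hxy.1 hxy.2
  rw [h3]
  apply Finset.sum_le_sum_of_subset_of_nonneg
  · intro x hx
    rw [Finset.mem_image] at hx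
    obtain ⟨w, hw, rfl⟩ := hx
    rw [Finset.mem_filter] at hw
    rw [Finset.mem_sigma, Nat.mem_divisors, Finset.mem_filter, Nat.mem_divisors]
    have h4 : w.1 ∣ e := hw.2 ▸ Nat.dvd_lcm_left _ _
    have h5 : w.2 ∣ e := hw.2 ▸ Nat.dvd_lcm_right _ _
    refine ⟨⟨h4, he0⟩, ⟨h5, he0⟩, ?_⟩
    show e / w.1 ∣ w.2
    rw [Nat.div_dvd_iff_dvd_mul h4 (Nat.pos_of_dvd_of_pos h4 (Nat.pos_of_ne_zero he0))]
    rw [← hw.2]
    exact Nat.lcm_dvd_mul _ _
  · intro x _ _
    exact mul_nonneg (hF0 _) (hG0 _)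

end prods

/-- `∏ ((p / (p - 1)) ^ κ - 1)` -/
noncomputable def HH (κ : ℕ) : ArithmeticFunction ℝ :=
  prodPrimeFactors (fun p => ((p : ℝ) * ((p : ℝ) - 1)⁻¹) ^ κ - 1)

lemma HH_apply (κ n : ℕ) (hn : n ≠ 0) :
    HH κ n = ∏ p ∈ n.primeFactors, (((p : ℝ) * ((p : ℝ) - 1)⁻¹) ^ κ - 1) :=
  prodPrimeFactors_apply hn

lemma HH_prime (κ p : ℕ) (hp : p.Prime) : HH κ p = ((p : ℝ) * ((p : ℝ) - 1)⁻¹) ^ κ - 1 := by
  rw [HH_apply κ p hp.ne_zero, hp.primeFactors, Finset.prod_singleton]

lemma one_le_ratio (p : ℕ) (hp : p.Prime) : 1 ≤ (p : ℝ) * ((p : ℝ) - 1)⁻¹ := by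
  have : (1 : ℝ) < p := by exact_mod_cast hp.one_lt
  rw [← div_eq_mul_inv, le_div_iff₀ (by linarith)]
  linarith

lemma HH_nonneg (κ n : ℕ) : 0 ≤ HH κ n := by
  rcases Nat.eq_zero_or_pos n with h | h
  · rw [h]; simp
  · rw [HH_apply κ n h.ne']
    apply Finset.prod_nonneg
    intro p hp
    have := one_le_pow₀ (n := κ) (one_le_ratio p (Nat.prime_of_mem_primeFactors hp))
    linarith

lemma pow_le (κ P y : ℕ) (hP : Squarefree P) :
    (∑ a ∈ P.divisors.filter (· ≤ y), iphi a) ^ κ ≤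
      ∑ e ∈ P.divisors.filter (· ≤ y ^ κ), HH κ e := by
  have hiphi : ∀ n : ℕ, 0 ≤ iphi n := fun n => by rw [iphi_apply]; positivity
  induction κ with
  | zero =>
    rw [pow_zero]
    have h1 : (1 : ℕ) ∈ P.divisors.filter (· ≤ y ^ 0) := by
      rw [Finset.mem_filter, Nat.mem_divisors]
      exact ⟨⟨one_dvd _, hP.ne_zero⟩, by simp⟩
    have h2 := Finset.single_le_sum (f := fun e => HH 0 e) (fun e _ => HH_nonneg 0 e) h1
    have h3 : HH 0 1 = 1 := by rw [HH_apply 0 1 one_ne_zero]; simp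
    simp only [h3] at h2
    exact h2
  | succ κ ih =>
    have hM : (HH κ).IsMultiplicative := IsMultiplicative.prodPrimeFactors _
    calc (∑ a ∈ P.divisors.filter (· ≤ y), iphi a) ^ (κ + 1)
        = (∑ a ∈ P.divisors.filter (· ≤ y), iphi a) ^ κ *
          ∑ a ∈ P.divisors.filter (· ≤ y), iphi a := pow_succ _ _
      _ ≤ (∑ e ∈ P.divisors.filter (· ≤ y ^ κ), HH κ e) *
          ∑ a ∈ P.divisors.filter (· ≤ y), iphi a :=
          mul_le_mul_of_nonneg_right ih (Finset.sum_nonneg (fun a _ => hiphi a))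
      _ ≤ _ := mul_le hM iphi_mult (HH_nonneg κ) hiphi P (y ^ κ) y hP
      _ = ∑ e ∈ P.divisors.filter (· ≤ y ^ (κ + 1)), HH (κ + 1) e := by
          rw [pow_succ]
          apply Finset.sum_congr rfl
          intro e he
          rw [Finset.mem_filter, Nat.mem_divisors] at he
          rw [HH_apply _ _ (ne_zero_of_dvd_ne_zero he.1.2 he.1.1)]
          apply Finset.prod_congr rfl
          intro p hp
          have hpp := Nat.prime_of_mem_primeFactors hp
          rw [HH_prime κ p hpp, iphi_prime p hpp, pow_succ]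
          have : (1 : ℝ) < p := by exact_mod_cast hpp.one_lt
          have h2 : (p : ℝ) - 1 ≠ 0 := by linarith
          have h3 : (p : ℝ) * ((p : ℝ) - 1)⁻¹ = 1 + ((p : ℝ) - 1)⁻¹ := by field_simp; ring
          rw [h3]
          ring

/-! ### the density -/

/-- `κ ^ ω(n) / n` -/
noncomputable def knu (κ : ℕ) : ArithmeticFunction ℝ :=
  ⟨fun n => (κ : ℝ) ^ n.primeFactors.card * (n : ℝ)⁻¹, by simp⟩

lemma knu_apply (κ n : ℕ) : knu κ n = (κ : ℝ) ^ n.primeFactors.card * (n : ℝ)⁻¹ := rfl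

lemma knu_mult (κ : ℕ) : (knu κ).IsMultiplicative := by
  rw [ArithmeticFunction.IsMultiplicative.iff_ne_zero]
  refine ⟨by simp [knu_apply], ?_⟩
  intro m n hm hn hmn
  rw [knu_apply, knu_apply, knu_apply, hmn.primeFactors_mul,
    Finset.card_union_of_disjoint hmn.disjoint_primeFactors, pow_add]
  push_cast
  rw [mul_inv]
  ring

lemma knu_prime (κ p : ℕ) (hp : p.Prime) : knu κ p = κ * (p : ℝ)⁻¹ := by
  rw [knu_apply, hp.primeFactors, Finset.card_singleton, pow_one]

/-! ### counting zeros of a product of linear forms -/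

section count

variable {κ : ℕ} (a b : Fin κ → ℤ)

/-- the product of the forms -/
def FF (m : ℤ) : ℤ := ∏ i, (a i * m + b i)

/-- the bad number: primes not dividing it see `κ` distinct roots -/
def KK : ℕ := (∏ i, a i).natAbs * (∏ x ∈ (univ ×ˢ univ : Finset (Fin κ × Fin κ)).filter (fun x => x.1 ≠ x.2),
  (a x.1 * b x.2 - a x.2 * b x.1)).natAbs

/-- the roots modulo `d` -/
def RR (d : ℕ) : Finset ℕ := (range d).filter (fun r => (d : ℤ) ∣ FF a b r)

lemma FF_congr (d : ℕ) {m m' : ℤ} (h : (d : ℤ) ∣ m - m') : (d : ℤ) ∣ FF a b m ↔ (d : ℤ) ∣ FF a b m' := by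
  have h1 : FF a b m ≡ FF a b m' [ZMOD d] := by
    unfold FF
    apply Int.ModEq.prod
    intro i _
    apply Int.ModEq.add_right
    apply Int.ModEq.mul_left
    exact (Int.modEq_iff_dvd.2 (by rw [← neg_sub]; exact (dvd_neg.2 h)))
  constructor
  · intro h2
    exact (Int.modEq_zero_iff_dvd.1 (h1.symm.trans (Int.modEq_zero_iff_dvd.2 h2)))
  · intro h2
    exact (Int.modEq_zero_iff_dvd.1 (h1.trans (Int.modEq_zero_iff_dvd.2 h2)))

lemma dvd_sub_mod (d m : ℕ) : (d : ℤ) ∣ (m : ℤ) - ((m % d : ℕ) : ℤ) := by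
  have h := Nat.div_add_mod m d
  refine ⟨((m / d : ℕ) : ℤ), ?_⟩
  have : (m : ℤ) = (d : ℤ) * ((m / d : ℕ) : ℤ) + ((m % d : ℕ) : ℤ) := by exact_mod_cast h.symm
  linarith

lemma RR_card_mul {d e : ℕ} (hde : d.Coprime e) (hd : 0 < d) (he : 0 < e) :
    (RR a b (d * e)).card = (RR a b d).card * (RR a b e).card := by
  rw [← Finset.card_product]
  have hdvd : ∀ r : ℕ, (((d * e : ℕ) : ℤ) ∣ FF a b r) ↔ ((d : ℤ) ∣ FF a b r ∧ (e : ℤ) ∣ FF a b r) := by
    intro r
    push_cast
    constructor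
    · intro h
      exact ⟨(dvd_mul_right _ _).trans h, (dvd_mul_left _ _).trans h⟩
    · rintro ⟨h1, h2⟩
      exact IsCoprime.mul_dvd (Nat.isCoprime_iff_coprime.2 hde) h1 h2
  apply Finset.card_bij (fun r _ => (r % d, r % e))
  · intro r hr
    rw [RR, mem_filter, hdvd] at hr
    rw [mem_product, RR, RR, mem_filter, mem_filter, mem_range, mem_range]
    refine ⟨⟨Nat.mod_lt _ hd, ?_⟩, ⟨Nat.mod_lt _ he, ?_⟩⟩
    · exact (FF_congr a b d (dvd_sub_mod d r)).1 hr.2.1
    · exact (FF_congr a b e (dvd_sub_mod e r)).1 hr.2.2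
  · intro r hr s hs h
    rw [RR, mem_filter, mem_range] at hr hs
    rw [Prod.mk.injEq] at h
    have h3 : r ≡ s [MOD (d * e)] := (Nat.modEq_and_modEq_iff_modEq_mul hde).1 ⟨h.1, h.2⟩
    exact Nat.ModEq.eq_of_lt_of_lt h3 hr.1 hs.1
  · rintro ⟨r, s⟩ h
    rw [mem_product, RR, RR, mem_filter, mem_filter, mem_range, mem_range] at h
    obtain ⟨t, ht1, ht2⟩ := Nat.chineseRemainder hde r s
    have e1 : t % d = r := by
      have : t % d = r % d := ht1
      rw [this, Nat.mod_eq_of_lt h.1.1]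
    have e2 : t % e = s := by
      have : t % e = s % e := ht2
      rw [this, Nat.mod_eq_of_lt h.2.1]
    refine ⟨t % (d * e), ?_, ?_⟩
    · rw [RR, mem_filter, mem_range]
      refine ⟨Nat.mod_lt _ (Nat.mul_pos hd he), ?_⟩
      rw [← FF_congr a b (d * e) (dvd_sub_mod (d * e) t), hdvd]
      constructor
      · rw [FF_congr a b d (dvd_sub_mod d t), e1]
        exact h.1.2
      · rw [FF_congr a b e (dvd_sub_mod e t), e2]
        exact h.2.2
    · rw [Prod.mk.injEq, Nat.mod_mul_right_mod, Nat.mod_mul_left_mod]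
      exact ⟨e1, e2⟩

lemma RR_card_prime {p : ℕ} (hp : p.Prime) (hK : ¬ p ∣ KK a b) : (RR a b p).card = κ := by
  classical
  have : Fact p.Prime := ⟨hp⟩
  have hpa : ∀ i, (a i : ZMod p) ≠ 0 := by
    intro i h
    apply hK
    rw [ZMod.intCast_zmod_eq_zero_iff_dvd] at h
    apply Dvd.dvd.mul_right
    rw [← Int.natCast_dvd]
    exact h.trans (dvd_prod_of_mem _ (mem_univ i))
  have hpab : ∀ i j, i ≠ j → ((a i * b j - a j * b i : ℤ) : ZMod p) ≠ 0 := by
    intro i j hij h
    apply hK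
    rw [ZMod.intCast_zmod_eq_zero_iff_dvd] at h
    apply Dvd.dvd.mul_left
    rw [← Int.natCast_dvd]
    have hmem : (i, j) ∈ (univ ×ˢ univ : Finset (Fin κ × Fin κ)).filter (fun x => x.1 ≠ x.2) := by
      rw [mem_filter, mem_product]
      exact ⟨⟨mem_univ _, mem_univ _⟩, hij⟩
    exact h.trans (dvd_prod_of_mem (fun x : Fin κ × Fin κ => a x.1 * b x.2 - a x.2 * b x.1) hmem)
  have hset : RR a b p = univ.image (fun i : Fin κ => (-(b i : ZMod p) / (a i : ZMod p)).val) := by
    ext r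
    rw [RR, mem_filter, mem_range, mem_image]
    constructor
    · rintro ⟨hr, h⟩
      unfold FF at h
      obtain ⟨i, -, hi⟩ := (Prime.dvd_finsetProd_iff (Nat.prime_iff_prime_int.1 hp) _).1 h
      refine ⟨i, mem_univ i, ?_⟩
      rw [← ZMod.intCast_zmod_eq_zero_iff_dvd] at hi
      push_cast at hi
      have h1 : -(b i : ZMod p) / (a i : ZMod p) = ((r : ℕ) : ZMod p) := by
        rw [div_eq_iff (hpa i)]
        linear_combination -hi
      rw [h1, ZMod.val_natCast, Nat.mod_eq_of_lt hr]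
    · rintro ⟨i, -, hi⟩
      refine ⟨hi ▸ ZMod.val_lt _, ?_⟩
      have h1 : ((r : ℕ) : ZMod p) = -(b i : ZMod p) / (a i : ZMod p) := by
        rw [← hi, ZMod.natCast_zmod_val]
      unfold FF
      refine Dvd.dvd.trans ?_ (dvd_prod_of_mem _ (mem_univ i))
      rw [← ZMod.intCast_zmod_eq_zero_iff_dvd]
      push_cast
      rw [h1]
      field_simp [hpa i]
      ring
  rw [hset, card_image_of_injective, card_univ, Fintype.card_fin]
  intro i j hij
  by_contra hne
  have h1 := ZMod.val_injective p hij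
  rw [div_eq_div_iff (hpa i) (hpa j)] at h1
  apply hpab i j hne
  push_cast
  linear_combination h1

lemma RR_card (d : ℕ) (hd : Squarefree d) (hK : ∀ p : ℕ, p.Prime → p ∣ d → ¬ p ∣ KK a b) :
    (RR a b d).card = κ ^ d.primeFactors.card := by
  induction d using induction_on_primes with
  | zero => exact absurd hd not_squarefree_zero
  | one =>
    have : RR a b 1 = {0} := by
      ext r
      rw [RR, mem_filter, mem_range, mem_singleton]
      constructor
      · rintro ⟨h, -⟩; omega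
      · rintro rfl; exact ⟨by norm_num, by simp⟩
    rw [this]; simp
  | prime_mul p d hp ih =>
    have hcop : p.Coprime d := Nat.coprime_of_squarefree_mul hd
    have hdsq : Squarefree d := Squarefree.squarefree_of_dvd (dvd_mul_left _ _) hd
    rw [RR_card_mul a b hcop hp.pos (Nat.pos_of_ne_zero hdsq.ne_zero),
      RR_card_prime a b hp (hK p hp (dvd_mul_right _ _)),
      ih hdsq (fun q hq hqd => hK q hq (hqd.trans (dvd_mul_left _ _))),
      hcop.primeFactors_mul, Finset.card_union_of_disjoint hcop.disjoint_primeFactors, hp.primeFactors,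
      card_singleton, pow_add, pow_one]

/-- count of `m ≤ N` with `d ∣ F(m)` -/
lemma FF_count (N d : ℕ) (hd : Squarefree d) (hK : ∀ p : ℕ, p.Prime → p ∣ d → ¬ p ∣ KK a b) :
    |(((Icc 1 N).filter (fun m : ℕ => (d : ℤ) ∣ FF a b m)).card : ℝ) - knu κ d * N| ≤
      (κ : ℝ) ^ d.primeFactors.card := by
  have hd0 : 0 < d := Nat.pos_of_ne_zero hd.ne_zero
  have hmaps : ∀ m ∈ (Icc 1 N).filter (fun m : ℕ => (d : ℤ) ∣ FF a b m), m % d ∈ RR a b d := by
    intro m hm
    rw [mem_filter] at hm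
    rw [RR, mem_filter, mem_range]
    exact ⟨Nat.mod_lt _ hd0, (FF_congr a b d (dvd_sub_mod d m)).1 hm.2⟩
  have hcard := Finset.card_eq_sum_card_fiberwise (s := (Icc 1 N).filter
    (fun m : ℕ => (d : ℤ) ∣ FF a b m)) (t := RR a b d) (f := fun m => m % d) hmaps
  have hfib : ∀ r ∈ RR a b d,
      |((((Icc 1 N).filter (fun m : ℕ => (d : ℤ) ∣ FF a b m)).filter
        (fun m => m % d = r)).card : ℝ) - (N : ℝ) / d| ≤ 1 := by
    intro r hr
    rw [RR, mem_filter, mem_range] at hr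
    have hset : ((Icc 1 N).filter (fun m : ℕ => (d : ℤ) ∣ FF a b m)).filter
        (fun m => m % d = r) = (Icc 1 N).filter (fun n => n ≡ r [MOD d]) := by
      rw [filter_filter]
      apply filter_congr
      intro m _
      constructor
      · rintro ⟨-, h⟩
        show m % d = r % d
        rw [h, Nat.mod_eq_of_lt hr.1]
      · intro h
        have h1 : m % d = r := by
          have : m % d = r % d := h
          rw [this, Nat.mod_eq_of_lt hr.1]
        refine ⟨?_, h1⟩
        rw [FF_congr a b d (dvd_sub_mod d m), h1]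
        exact hr.2
    rw [hset]
    exact count_ap N d r hd0
  have hcardR : (((Icc 1 N).filter (fun m : ℕ => (d : ℤ) ∣ FF a b m)).card : ℝ) =
      ∑ r ∈ RR a b d, ((((Icc 1 N).filter (fun m : ℕ => (d : ℤ) ∣ FF a b m)).filter
        (fun m => m % d = r)).card : ℝ) := by
    exact_mod_cast hcard
  have hconst : knu κ d * N = ∑ r ∈ RR a b d, (N : ℝ) / d := by
    rw [Finset.sum_const, nsmul_eq_mul, RR_card a b d hd hK, knu_apply]
    push_cast
    field_simp
  rw [hcardR, hconst, ← Finset.sum_sub_distrib]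
  refine (Finset.abs_sum_le_sum_abs _ _).trans ?_
  refine (Finset.sum_le_sum hfib).trans ?_
  rw [Finset.sum_const, nsmul_eq_mul, RR_card a b d hd hK]
  push_cast
  linarith

/-! ### the sieve -/

/-- the excluded primes -/
def kk : ℕ := KK a b * κ.factorial

lemma kk_dvd {p : ℕ} (hp : p.Prime) (h : ¬ p ∣ kk a b) : ¬ p ∣ KK a b ∧ κ < p := by
  constructor
  · intro h1; exact h (h1.trans (dvd_mul_right _ _))
  · by_contra h1
    push Not at h1
    exact h (((Nat.Prime.dvd_factorial hp).2 h1).trans (dvd_mul_left _ _))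

/-- weighted sums over an image -/
lemma sum_image_fiber (S : Finset ℕ) (f : ℕ → ℕ) (Q : ℕ → Prop) [DecidablePred Q] :
    ∑ n ∈ S.image f, (if Q n then (((S.filter (fun m => f m = n)).card : ℕ) : ℝ) else 0) =
      ((S.filter (fun m => Q (f m))).card : ℝ) := by
  have h := Finset.sum_comp (s := S) (fun n => if Q n then (1 : ℝ) else 0) f
  have h1 : ∑ a ∈ S, (if Q (f a) then (1 : ℝ) else 0) = ((S.filter (fun m => Q (f m))).card : ℝ) := by
    rw [← Finset.sum_filter, Finset.sum_const, nsmul_eq_mul, mul_one]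
  rw [← h1, h]
  apply Finset.sum_congr rfl
  intro n _
  split_ifs <;> simp

/-- the sieve for prime tuples -/
noncomputable def tupleSieve (hκ : 0 < κ) (N z : ℕ) : BoundingSieve where
  support := (Icc 1 N).image (fun m : ℕ => (FF a b m).natAbs)
  prodPrimes := PP (kk a b) z
  prodPrimes_squarefree := PP_squarefree _ z
  weights := fun n => ((((Icc 1 N).filter (fun m : ℕ => (FF a b m).natAbs = n)).card : ℕ) : ℝ)
  weights_nonneg := fun _ => by positivity
  totalMass := N
  nu := knu κ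
  nu_mult := knu_mult κ
  nu_pos_of_prime := by
    intro p hp _
    rw [knu_prime κ p hp]
    have : (0 : ℝ) < p := by exact_mod_cast hp.pos
    have : (0 : ℝ) < κ := by exact_mod_cast hκ
    positivity
  nu_lt_one_of_prime := by
    intro p hp hd
    rw [knu_prime κ p hp]
    have h1 := (kk_dvd a b hp (prime_dvd_PP _ _ p hp hd).2).2
    have h2 : (κ : ℝ) < p := by exact_mod_cast h1
    have h3 : (0 : ℝ) < p := by exact_mod_cast hp.pos
    rw [mul_inv_lt_iff₀ h3]
    linarith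

lemma tuple_rem (hκ : 0 < κ) (N z e : ℕ) (he : e ∣ PP (kk a b) z) :
    |(tupleSieve a b hκ N z).rem e| ≤ e := by
  have hsq : Squarefree e := Squarefree.squarefree_of_dvd he (PP_squarefree _ z)
  have hp : ∀ p : ℕ, p.Prime → p ∣ e → ¬ p ∣ KK a b ∧ κ < p := fun p hp hpe =>
    kk_dvd a b hp (prime_dvd_PP _ _ p hp (hpe.trans he)).2
  have hrem : (tupleSieve a b hκ N z).rem e =
      (∑ n ∈ (Icc 1 N).image (fun m : ℕ => (FF a b m).natAbs), if e ∣ n then
        (((((Icc 1 N).filter (fun m : ℕ => (FF a b m).natAbs = n)).card : ℕ) : ℝ)) else 0) -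
        knu κ e * N := rfl
  rw [hrem, sum_image_fiber (Icc 1 N) (fun m : ℕ => (FF a b m).natAbs) (fun n => e ∣ n)]
  have h1 : (Icc 1 N).filter (fun m : ℕ => e ∣ (FF a b m).natAbs) =
      (Icc 1 N).filter (fun m : ℕ => (e : ℤ) ∣ FF a b m) := by
    apply filter_congr
    intro m _
    exact Int.natCast_dvd.symm
  rw [h1]
  refine (FF_count a b N e hsq (fun p h1 h2 => (hp p h1 h2).1)).trans ?_
  have h2 : ((κ ^ e.primeFactors.card : ℕ) : ℝ) ≤ (e : ℝ) := by
    have h3 : κ ^ e.primeFactors.card ≤ e := by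
      calc κ ^ e.primeFactors.card = ∏ p ∈ e.primeFactors, κ := by rw [prod_const]
        _ ≤ ∏ p ∈ e.primeFactors, p := by
            apply Finset.prod_le_prod'
            intro p hpe
            exact (hp p (Nat.prime_of_mem_primeFactors hpe) (Nat.dvd_of_mem_primeFactors hpe)).2.le
        _ = e := Nat.prod_primeFactors_of_squarefree hsq
    exact_mod_cast h3
  push_cast at h2
  exact h2

lemma tuple_selberg (hκ : 0 < κ) (N z e : ℕ) (he : e ∣ PP (kk a b) z) :
    HH κ e ≤ (tupleSieve a b hκ N z).selbergTerms e := by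
  have hsq : Squarefree e := Squarefree.squarefree_of_dvd he (PP_squarefree _ z)
  rw [BoundingSieve.selbergTerms_apply]
  show _ ≤ knu κ e * ∏ p ∈ e.primeFactors, (1 - knu κ p)⁻¹
  rw [← (knu_mult κ).prod_primeFactors hsq, ← Finset.prod_mul_distrib, HH_apply κ e hsq.ne_zero]
  apply Finset.prod_le_prod
  · intro p hp
    have := one_le_pow₀ (n := κ) (one_le_ratio p (Nat.prime_of_mem_primeFactors hp))
    linarith
  · intro p hp
    have hpp := Nat.prime_of_mem_primeFactors hp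
    have hpd : p ∣ PP (kk a b) z := (Nat.dvd_of_mem_primeFactors hp).trans he
    have h1 := (kk_dvd a b hpp (prime_dvd_PP _ _ p hpp hpd).2).2
    have h2 : (κ : ℝ) < p := by exact_mod_cast h1
    have h3 : (1 : ℝ) < p := by exact_mod_cast hpp.one_lt
    rw [knu_prime κ p hpp]
    have h5 : (κ : ℝ) * (p : ℝ)⁻¹ * (1 - (κ : ℝ) * (p : ℝ)⁻¹)⁻¹ = p / (p - κ) - 1 := by
      have h6 : (p : ℝ) ≠ 0 := by linarith
      have h7 : (p : ℝ) - κ ≠ 0 := by linarith
      field_simp
      ring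
    rw [h5]
    apply sub_le_sub_right
    have h8 : (p : ℝ) * ((p : ℝ) - 1)⁻¹ = (1 - (p : ℝ)⁻¹)⁻¹ := by
      have h6 : (p : ℝ) ≠ 0 := by linarith
      have h7 : (p : ℝ) - 1 ≠ 0 := by linarith
      field_simp
    have h9 : (p : ℝ) / (p - κ) = (1 - κ * (p : ℝ)⁻¹)⁻¹ := by
      have h6 : (p : ℝ) ≠ 0 := by linarith
      have h7 : (p : ℝ) - κ ≠ 0 := by linarith
      field_simp
    rw [h8, h9, inv_pow]
    have h10 := one_add_mul_le_pow (a := -(p : ℝ)⁻¹) (by
      have : (p : ℝ)⁻¹ ≤ 1 := inv_le_one_of_one_le₀ h3.le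
      linarith) κ
    have h11 : 0 < 1 - (κ : ℝ) * (p : ℝ)⁻¹ := by
      have : (κ : ℝ) * (p : ℝ)⁻¹ < 1 := by
        rw [mul_inv_lt_iff₀ (by linarith)]
        linarith
      linarith
    apply inv_anti₀ h11
    calc 1 - (κ : ℝ) * (p : ℝ)⁻¹ = 1 + (κ : ℝ) * -(p : ℝ)⁻¹ := by ring
      _ ≤ (1 + -(p : ℝ)⁻¹) ^ κ := h10
      _ = _ := by ring

/-- prime tuples, with explicit parameter -/
theorem tuple_explicit (hκ : 0 < κ) (ha : ∀ i, a i ≠ 0) (hab : ∀ i j, i ≠ j → a i * b j - a j * b i ≠ 0)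
    (N y : ℕ) (hy : 1 ≤ y) :
    (((Icc 1 N).filter (fun m : ℕ => ∀ i, (a i * m + b i).natAbs.Prime)).card : ℝ) ≤
      κ * (2 * (y : ℝ) ^ κ + 1) + (N : ℝ) * (((kk a b : ℕ) : ℝ) / (kk a b).totient) ^ κ /
        (Real.log ((y : ℝ) + 1)) ^ κ + (y : ℝ) ^ (4 * κ) := by
  classical
  set z := y ^ κ with hz
  have hz1 : 1 ≤ z := Nat.one_le_pow _ _ hy
  set s := tupleSieve a b hκ N z with hs
  have hmain := selberg s z hz1
  have hk : 0 < kk a b := by
    unfold kk KK
    apply Nat.pos_of_ne_zero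
    apply mul_ne_zero _ (Nat.factorial_ne_zero _)
    apply mul_ne_zero
    · rw [Int.natAbs_ne_zero]
      exact prod_ne_zero_iff.2 (fun i _ => ha i)
    · rw [Int.natAbs_ne_zero]
      apply prod_ne_zero_iff.2
      intro x hx
      rw [mem_filter] at hx
      exact hab _ _ hx.2
  have hlog : 0 < Real.log ((y : ℝ) + 1) := by
    apply Real.log_pos
    have : (1 : ℝ) ≤ y := by exact_mod_cast hy
    linarith
  have hq' : (0 : ℝ) < (kk a b : ℕ) := by exact_mod_cast hk
  have ht : (0 : ℝ) < (kk a b).totient := by exact_mod_cast Nat.totient_pos.2 hk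
  have hyz : y ≤ z := Nat.le_self_pow hκ.ne' y
  have hSS : ((((kk a b).totient : ℝ) / (kk a b : ℕ)) * Real.log ((y : ℝ) + 1)) ^ κ ≤ SS s z := by
    have h1 := linear_lower (kk a b) y z hk hyz
    have h2 := pow_le κ (PP (kk a b) z) y (PP_squarefree _ _)
    calc ((((kk a b).totient : ℝ) / (kk a b : ℕ)) * Real.log ((y : ℝ) + 1)) ^ κ
        ≤ (∑ a ∈ (PP (kk a b) z).divisors.filter (· ≤ y), iphi a) ^ κ := by gcongr
      _ ≤ _ := h2
      _ ≤ SS s z := by
        unfold SS
        apply Finset.sum_le_sum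
        intro e he
        rw [Finset.mem_filter] at he
        exact tuple_selberg a b hκ N z e (Nat.dvd_of_mem_divisors he.1)
  have hSSpos : 0 < ((((kk a b).totient : ℝ) / (kk a b : ℕ)) * Real.log ((y : ℝ) + 1)) ^ κ := by
    positivity
  have hM : s.totalMass * (SS s z)⁻¹ ≤ (N : ℝ) * (((kk a b : ℕ) : ℝ) / (kk a b).totient) ^ κ /
        (Real.log ((y : ℝ) + 1)) ^ κ := by
    have h1 := inv_anti₀ hSSpos hSS
    have h2 : s.totalMass = (N : ℝ) := rfl
    rw [h2]
    calc (N : ℝ) * (SS s z)⁻¹ ≤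
        (N : ℝ) * (((((kk a b).totient : ℝ) / (kk a b : ℕ)) * Real.log ((y : ℝ) + 1)) ^ κ)⁻¹ := by
          gcongr
      _ = _ := by
          rw [mul_pow, div_pow, div_pow]
          field_simp
  -- error
  have hE : ∑ d₁ ∈ (s.prodPrimes.divisors).filter (· ≤ z),
      ∑ d₂ ∈ (s.prodPrimes.divisors).filter (· ≤ z), |s.rem (Nat.lcm d₁ d₂)| ≤ (y : ℝ) ^ (4 * κ) := by
    have hcard : (((s.prodPrimes.divisors).filter (· ≤ z)).card : ℝ) ≤ z := by
      have : ((s.prodPrimes.divisors).filter (· ≤ z)).card ≤ (Finset.Icc 1 z).card := by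
        apply Finset.card_le_card
        intro d hd
        rw [Finset.mem_filter] at hd
        rw [Finset.mem_Icc]
        exact ⟨Nat.pos_of_mem_divisors hd.1, hd.2⟩
      rw [Nat.card_Icc, Nat.add_sub_cancel] at this
      exact_mod_cast this
    calc ∑ d₁ ∈ (s.prodPrimes.divisors).filter (· ≤ z),
        ∑ d₂ ∈ (s.prodPrimes.divisors).filter (· ≤ z), |s.rem (Nat.lcm d₁ d₂)|
        ≤ ∑ d₁ ∈ (s.prodPrimes.divisors).filter (· ≤ z),
        ∑ d₂ ∈ (s.prodPrimes.divisors).filter (· ≤ z), ((z : ℝ) * z) := by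
          apply Finset.sum_le_sum
          intro d₁ h1
          apply Finset.sum_le_sum
          intro d₂ h2
          rw [Finset.mem_filter] at h1 h2
          have h3 : Nat.lcm d₁ d₂ ∣ PP (kk a b) z := Nat.lcm_dvd (Nat.dvd_of_mem_divisors h1.1)
            (Nat.dvd_of_mem_divisors h2.1)
          have h4 := tuple_rem a b hκ N z _ h3
          have h5 : Nat.lcm d₁ d₂ ≤ z * z := by
            refine (Nat.le_of_dvd (Nat.mul_pos (Nat.pos_of_mem_divisors h1.1)
              (Nat.pos_of_mem_divisors h2.1)) (Nat.lcm_dvd_mul _ _)).trans ?_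
            exact Nat.mul_le_mul h1.2 h2.2
          have h6 : ((Nat.lcm d₁ d₂ : ℕ) : ℝ) ≤ (z : ℝ) * z := by exact_mod_cast h5
          exact h4.trans h6
      _ = (((s.prodPrimes.divisors).filter (· ≤ z)).card : ℝ) *
          (((s.prodPrimes.divisors).filter (· ≤ z)).card : ℝ) * ((z : ℝ) * z) := by
          rw [Finset.sum_const, Finset.sum_const]
          simp
          ring
      _ ≤ (z : ℝ) * z * (z * z) := by gcongr
      _ = (y : ℝ) ^ (4 * κ) := by rw [hz]; push_cast; ring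
  -- primes are sifted
  have hsift : (((Icc 1 N).filter (fun m : ℕ => ∀ i, (a i * m + b i).natAbs.Prime)).card : ℝ) ≤
      κ * (2 * (z : ℝ) + 1) + s.siftedSum := by
    have h1 : s.siftedSum = (((Icc 1 N).filter
        (fun m : ℕ => Nat.Coprime (PP (kk a b) z) (FF a b m).natAbs)).card : ℝ) := by
      unfold BoundingSieve.siftedSum
      exact sum_image_fiber (Icc 1 N) (fun m : ℕ => (FF a b m).natAbs)
        (fun n => Nat.Coprime (PP (kk a b) z) n)
    rw [h1]
    have h2 : (Icc 1 N).filter (fun m : ℕ => ∀ i, (a i * m + b i).natAbs.Prime) ⊆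
        (univ.biUnion (fun i : Fin κ => (Icc 1 N).filter (fun m : ℕ => (a i * m + b i).natAbs ≤ z))) ∪
        ((Icc 1 N).filter
        (fun m : ℕ => Nat.Coprime (PP (kk a b) z) (FF a b m).natAbs)) := by
      intro m hm
      rw [mem_filter] at hm
      rw [mem_union]
      by_cases hmz : ∃ i, (a i * m + b i).natAbs ≤ z
      · left
        obtain ⟨i, hi⟩ := hmz
        rw [mem_biUnion]
        exact ⟨i, mem_univ i, mem_filter.2 ⟨hm.1, hi⟩⟩
      · right
        push Not at hmz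
        rw [mem_filter]
        refine ⟨hm.1, ?_⟩
        have hF : (FF a b m).natAbs = ∏ i, (a i * m + b i).natAbs := by
          unfold FF
          rw [← Int.natAbsHom_apply, map_prod]
          rfl
        rw [hF]
        apply Nat.Coprime.prod_right
        intro i _
        rw [Nat.coprime_comm, Nat.Prime.coprime_iff_not_dvd (hm.2 i)]
        intro hd
        have := (prime_dvd_PP _ z _ (hm.2 i) hd).1
        have := hmz i
        omega
    have h3 := (card_le_card h2).trans (card_union_le _ _)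
    have h4 : (univ.biUnion (fun i : Fin κ => (Icc 1 N).filter
        (fun m : ℕ => (a i * m + b i).natAbs ≤ z))).card ≤ κ * (2 * z + 1) := by
      refine card_biUnion_le.trans ?_
      calc ∑ i : Fin κ, ((Icc 1 N).filter (fun m : ℕ => (a i * m + b i).natAbs ≤ z)).card
          ≤ ∑ i : Fin κ, (2 * z + 1) := by
            apply Finset.sum_le_sum
            intro i _
            have h5 : ((Icc 1 N).filter (fun m : ℕ => (a i * m + b i).natAbs ≤ z)).card ≤
                (Icc (-(z : ℤ)) z).card := by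
              apply card_le_card_of_injOn (fun m : ℕ => a i * m + b i)
              · intro m hm
                rw [mem_coe, mem_filter] at hm
                rw [mem_coe, mem_Icc]
                have := hm.2
                show -(z : ℤ) ≤ a i * m + b i ∧ a i * m + b i ≤ z
                constructor <;> omega
              · intro m _ m' _ h
                have h6 : a i * m = a i * m' := by simpa using h
                have := mul_left_cancel₀ (ha i) h6
                exact_mod_cast this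
            rw [Int.card_Icc] at h5
            omega
        _ = κ * (2 * z + 1) := by simp
    have h5 : ((Icc 1 N).filter (fun m : ℕ => ∀ i, (a i * m + b i).natAbs.Prime)).card ≤
        κ * (2 * z + 1) + ((Icc 1 N).filter
        (fun m : ℕ => Nat.Coprime (PP (kk a b) z) (FF a b m).natAbs)).card := by omega
    exact_mod_cast h5
  have hzy : (z : ℝ) = (y : ℝ) ^ κ := by rw [hz]; push_cast; ring
  rw [hzy] at hsift
  linarith

/-- **prime tuples**: an upper bound of the conjectured order of magnitude -/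
theorem tuple_bound (hκ : 0 < κ) (ha : ∀ i, a i ≠ 0)
    (hab : ∀ i j, i ≠ j → a i * b j - a j * b i ≠ 0) :
    ∃ C : ℝ, 0 < C ∧ ∀ N : ℕ, 2 ≤ N →
      (((Icc 1 N).filter (fun m : ℕ => ∀ i, (a i * m + b i).natAbs.Prime)).card : ℝ) ≤
        C * N / (Real.log N) ^ κ := by
  have hκR : (1 : ℝ) ≤ κ := by exact_mod_cast hκ
  set c : ℝ := (((kk a b : ℕ) : ℝ) / (kk a b).totient) ^ κ with hc
  have hc0 : 0 ≤ c := by positivity
  refine ⟨3 * κ * (2 * κ) ^ κ + c * (8 * κ) ^ κ + (2 * κ) ^ κ, by positivity, ?_⟩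
  intro N hN
  have hNR : (2 : ℝ) ≤ N := by exact_mod_cast hN
  have hN0 : (0 : ℝ) < N := by linarith
  have hlN : 0 < Real.log N := Real.log_pos (by linarith)
  set w : ℝ := (N : ℝ) ^ (1 / (8 * κ) : ℝ) with hw
  have hw1 : 1 ≤ w := Real.one_le_rpow (by linarith) (by positivity)
  set y := ⌊w⌋₊ with hy
  have hy1 : 1 ≤ y := (Nat.one_le_floor_iff w).2 hw1
  have hyw : (y : ℝ) ≤ w := Nat.floor_le (by linarith)
  have hwy : w ≤ (y : ℝ) + 1 := (Nat.lt_floor_add_one w).le
  have hmain := tuple_explicit a b hκ ha hab N y hy1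
  rw [← hc] at hmain
  have hwp : w ^ (4 * κ) = (N : ℝ) ^ (1 / 2 : ℝ) := by
    rw [hw, ← Real.rpow_natCast, ← Real.rpow_mul hN0.le]
    congr 1
    push_cast
    field_simp
    norm_num
  have h4 : (y : ℝ) ^ (4 * κ) ≤ (N : ℝ) ^ (1 / 2 : ℝ) := by
    rw [← hwp]
    gcongr
  have h1 : (y : ℝ) ^ κ ≤ (N : ℝ) ^ (1 / 2 : ℝ) := by
    calc (y : ℝ) ^ κ ≤ w ^ κ := by gcongr
      _ ≤ w ^ (4 * κ) := pow_le_pow_right₀ hw1 (by omega)
      _ = _ := hwp
  have h0 : (1 : ℝ) ≤ (N : ℝ) ^ (1 / 2 : ℝ) := Real.one_le_rpow (by linarith) (by norm_num)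
  -- the logarithm
  have hlog : (Real.log N) ^ κ ≤ (2 * κ) ^ κ * (N : ℝ) ^ (1 / 2 : ℝ) := by
    have e1 : Real.log N ≤ 2 * κ * (N : ℝ) ^ (1 / (2 * κ) : ℝ) := by
      have e2 : Real.log ((N : ℝ) ^ (1 / (2 * κ) : ℝ)) ≤ (N : ℝ) ^ (1 / (2 * κ) : ℝ) := by
        have := Real.log_le_sub_one_of_pos (Real.rpow_pos_of_pos hN0 (1 / (2 * κ) : ℝ))
        linarith
      rw [Real.log_rpow hN0] at e2
      have e3 : Real.log N = 2 * κ * (1 / (2 * κ) * Real.log N) := by field_simp
      rw [e3]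
      gcongr
    calc (Real.log N) ^ κ ≤ (2 * κ * (N : ℝ) ^ (1 / (2 * κ) : ℝ)) ^ κ := by gcongr
      _ = (2 * κ) ^ κ * (N : ℝ) ^ (1 / 2 : ℝ) := by
          rw [mul_pow, ← Real.rpow_natCast ((N : ℝ) ^ (1 / (2 * κ) : ℝ)), ← Real.rpow_mul hN0.le]
          congr 2
          field_simp
  have hhalf : (N : ℝ) ^ (1 / 2 : ℝ) * (N : ℝ) ^ (1 / 2 : ℝ) = N := by
    rw [← Real.rpow_add hN0]; norm_num
  have hNl : (N : ℝ) ^ (1 / 2 : ℝ) ≤ (2 * κ) ^ κ * (N / (Real.log N) ^ κ) := by
    rw [mul_div_assoc', le_div_iff₀ (by positivity)]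
    calc (N : ℝ) ^ (1 / 2 : ℝ) * (Real.log N) ^ κ
        ≤ (N : ℝ) ^ (1 / 2 : ℝ) * ((2 * κ) ^ κ * (N : ℝ) ^ (1 / 2 : ℝ)) := by gcongr
      _ = (2 * κ) ^ κ * ((N : ℝ) ^ (1 / 2 : ℝ) * (N : ℝ) ^ (1 / 2 : ℝ)) := by ring
      _ = _ := by rw [hhalf]
  have hly : Real.log N / (8 * κ) ≤ Real.log ((y : ℝ) + 1) := by
    have e1 : Real.log w = Real.log N / (8 * κ) := by
      rw [hw, Real.log_rpow hN0]; ring
    rw [← e1]
    exact Real.log_le_log (by linarith) hwy
  have hlN8 : 0 < Real.log N / (8 * κ) := by positivity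
  have hM : (N : ℝ) * c / (Real.log ((y : ℝ) + 1)) ^ κ ≤ c * (8 * κ) ^ κ * (N / (Real.log N) ^ κ) := by
    calc (N : ℝ) * c / (Real.log ((y : ℝ) + 1)) ^ κ ≤ (N : ℝ) * c / (Real.log N / (8 * κ)) ^ κ := by
          gcongr
      _ = c * (8 * κ) ^ κ * (N / (Real.log N) ^ κ) := by
          rw [div_pow]
          field_simp
  have hfin : κ * (2 * (y : ℝ) ^ κ + 1) ≤ 3 * κ * (N : ℝ) ^ (1 / 2 : ℝ) := by
    have : 2 * (y : ℝ) ^ κ + 1 ≤ 3 * (N : ℝ) ^ (1 / 2 : ℝ) := by linarith
    calc κ * (2 * (y : ℝ) ^ κ + 1) ≤ κ * (3 * (N : ℝ) ^ (1 / 2 : ℝ)) := by gcongr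
      _ = _ := by ring
  calc (((Icc 1 N).filter (fun m : ℕ => ∀ i, (a i * m + b i).natAbs.Prime)).card : ℝ)
      ≤ κ * (2 * (y : ℝ) ^ κ + 1) + (N : ℝ) * c / (Real.log ((y : ℝ) + 1)) ^ κ +
        (y : ℝ) ^ (4 * κ) := hmain
    _ ≤ 3 * κ * ((2 * κ) ^ κ * (N / (Real.log N) ^ κ)) + c * (8 * κ) ^ κ * (N / (Real.log N) ^ κ) +
        (2 * κ) ^ κ * (N / (Real.log N) ^ κ) := by
        have : 3 * κ * (N : ℝ) ^ (1 / 2 : ℝ) ≤ 3 * κ * ((2 * κ) ^ κ * (N / (Real.log N) ^ κ)) := by
          gcongr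
        linarith
    _ = _ := by ring

end count

end Pool.Agent.Lib.MP_dde2f1_nt.Sieve
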