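import Pool.Agent.Lib.MP_dde2f1_nt.Count
import Pool.Agent.Lib.MP_dde2f1_nt.Tuple
import Pool.Agent.Lib.MP_dde2f1_nt.Fourth

/-!
# The number of elements of `U` up to `X` is `O(X / (log X)^4)`
-/

set_option autoImplicit false

open Finset

namespace Pool.Agent.Lib.MP_dde2f1_nt

/-- slopes of the four forms, `n = 4k+3`, `k = σ m` -/
def fa3 (σ : ℤ) : Fin 4 → ℤ := ![2 * σ, 2 * σ, 18 * σ, 4 * σ]

/-- constant terms, `n = 4k+3` -/
def fb3 : Fin 4 → ℤ := ![1, -3, 13, 3]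

/-- slopes of the four forms, `n = 8k+5`, `k = σ m` -/
def fa5 (σ : ℤ) : Fin 4 → ℤ := ![2 * σ, 2 * σ, 18 * σ, 8 * σ]

/-- constant terms, `n = 8k+5` -/
def fb5 : Fin 4 → ℤ := ![1, -1, 11, 5]

/-- the `m ≤ X` with four primes -/
def A4 (a b : Fin 4 → ℤ) (X : ℕ) : Finset ℕ :=
  (Icc 1 X).filter (fun m : ℕ => ∀ i, (a i * m + b i).natAbs.Prime)

/-- the finite set containing the large elements of `U 2` -/
def T4 (X : ℕ) (e : ℤ) : Finset ℤ :=
  ((A4 (fa3 1) fb3 X).image (fun m : ℕ => e * (4 * (m : ℤ) + 3)) ∪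
    (A4 (fa3 (-1)) fb3 X).image (fun m : ℕ => e * (4 * (-(m : ℤ)) + 3))) ∪
  (((A4 (fa5 1) fb5 X).image (fun m : ℕ => e * (8 * (m : ℤ) + 5)) ∪
    (A4 (fa5 (-1)) fb5 X).image (fun m : ℕ => e * (8 * (-(m : ℤ)) + 5))) ∪
  ((range (Nat.sqrt X + 1)).image (fun q : ℕ => e * ((q : ℤ) * (q + 2))) ∪
    (range (Nat.sqrt X + 1)).image (fun q : ℕ => e * ((q : ℤ) * (q + 4)))))

lemma T4_card (X : ℕ) (e : ℤ) : (T4 X e).card ≤
    (A4 (fa3 1) fb3 X).card + (A4 (fa3 (-1)) fb3 X).card + (A4 (fa5 1) fb5 X).card +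
      (A4 (fa5 (-1)) fb5 X).card + 2 * (Nat.sqrt X + 1) := by
  unfold T4
  have c1 := card_image_le (s := A4 (fa3 1) fb3 X) (f := fun m : ℕ => e * (4 * (m : ℤ) + 3))
  have c2 := card_image_le (s := A4 (fa3 (-1)) fb3 X) (f := fun m : ℕ => e * (4 * (-(m : ℤ)) + 3))
  have c3 := card_image_le (s := A4 (fa5 1) fb5 X) (f := fun m : ℕ => e * (8 * (m : ℤ) + 5))
  have c4 := card_image_le (s := A4 (fa5 (-1)) fb5 X) (f := fun m : ℕ => e * (8 * (-(m : ℤ)) + 5))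
  have c5 := card_image_le (s := range (Nat.sqrt X + 1)) (f := fun q : ℕ => e * ((q : ℤ) * (q + 2)))
  have c6 := card_image_le (s := range (Nat.sqrt X + 1)) (f := fun q : ℕ => e * ((q : ℤ) * (q + 4)))
  rw [card_range] at c5 c6
  refine (card_union_le _ _).trans ?_
  refine (Nat.add_le_add (card_union_le _ _) ((card_union_le _ _).trans
    (Nat.add_le_add (card_union_le _ _) (card_union_le _ _)))).trans ?_
  omega

lemma mem_A4_3 (k : ℤ) (X : ℕ) (σ : ℤ) (m : ℕ) (hm : k = σ * m) (h1 : 1 ≤ m) (hX : m ≤ X)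
    (p1 : (2 * k + 1).natAbs.Prime) (p2 : (2 * k - 3).natAbs.Prime)
    (p3 : (18 * k + 13).natAbs.Prime) (p4 : (4 * k + 3).natAbs.Prime) : m ∈ A4 (fa3 σ) fb3 X := by
  rw [A4, mem_filter, mem_Icc]
  refine ⟨⟨h1, hX⟩, ?_⟩
  intro i
  fin_cases i
  · show (2 * σ * m + 1).natAbs.Prime
    rw [show 2 * σ * m + 1 = 2 * k + 1 by rw [hm]; ring]; exact p1
  · show (2 * σ * m + -3).natAbs.Prime
    rw [show 2 * σ * m + -3 = 2 * k - 3 by rw [hm]; ring]; exact p2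
  · show (18 * σ * m + 13).natAbs.Prime
    rw [show 18 * σ * m + 13 = 18 * k + 13 by rw [hm]; ring]; exact p3
  · show (4 * σ * m + 3).natAbs.Prime
    rw [show 4 * σ * m + 3 = 4 * k + 3 by rw [hm]; ring]; exact p4

lemma mem_A4_5 (k : ℤ) (X : ℕ) (σ : ℤ) (m : ℕ) (hm : k = σ * m) (h1 : 1 ≤ m) (hX : m ≤ X)
    (p1 : (2 * k + 1).natAbs.Prime) (p2 : (2 * k - 1).natAbs.Prime)
    (p3 : (18 * k + 11).natAbs.Prime) (p4 : (8 * k + 5).natAbs.Prime) : m ∈ A4 (fa5 σ) fb5 X := by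
  rw [A4, mem_filter, mem_Icc]
  refine ⟨⟨h1, hX⟩, ?_⟩
  intro i
  fin_cases i
  · show (2 * σ * m + 1).natAbs.Prime
    rw [show 2 * σ * m + 1 = 2 * k + 1 by rw [hm]; ring]; exact p1
  · show (2 * σ * m + -1).natAbs.Prime
    rw [show 2 * σ * m + -1 = 2 * k - 1 by rw [hm]; ring]; exact p2
  · show (18 * σ * m + 11).natAbs.Prime
    rw [show 18 * σ * m + 11 = 18 * k + 11 by rw [hm]; ring]; exact p3
  · show (8 * σ * m + 5).natAbs.Prime
    rw [show 8 * σ * m + 5 = 8 * k + 5 by rw [hm]; ring]; exact p4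

lemma q_le (X q : ℕ) (c m : ℤ) (hc : 0 ≤ c) (hm : m = q * (q + c)) (hX : |m| ≤ X) :
    q ∈ range (Nat.sqrt X + 1) := by
  rw [mem_range, Nat.lt_succ_iff, Nat.le_sqrt]
  have h1 : (q : ℤ) * q ≤ m := by rw [hm]; nlinarith
  have h2 : (q : ℤ) * q ≤ X := h1.trans ((le_abs_self m).trans hX)
  exact_mod_cast h2

lemma E_sub4 (X : ℕ) (n : ℤ) (hn : n ∈ E 2 X) (h : 10000000 ≤ |n|) :
    n ∈ T4 X 1 ∨ n ∈ T4 X 4 := by
  obtain ⟨⟨h4, hle⟩, hX⟩ := hn
  obtain ⟨m, e, he, hnm, hm⟩ := struct2 n h4 h (by exact_mod_cast hle)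
  have hle2 : (DQ n).encard ≤ 2 := by exact_mod_cast hle
  have hlem : (DQ m).encard ≤ 2 := by
    rcases he with rfl | rfl
    · rw [hnm, one_mul] at hle2; exact hle2
    · rw [hnm] at hle2; exact (scale m).trans hle2
  have hmX : |m| ≤ |n| := by
    rw [hnm, abs_mul]
    rcases he with rfl | rfl
    · simp
    · have := abs_nonneg m
      have h4 : |(4 : ℤ)| = 4 := rfl
      rw [h4]; omega
  have hmX' : |m| ≤ X := hmX.trans hX
  have hmbig : 1000000 ≤ |m| := by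
    rw [hnm, abs_mul] at h
    rcases he with rfl | rfl
    · rw [abs_one, one_mul] at h; omega
    · have h4 : |(4 : ℤ)| = 4 := rfl
      rw [h4] at h; omega
  have hT : n ∈ T4 X e := by
    rw [hnm]
    unfold T4
    simp only [mem_union, mem_image]
    rcases hm with ⟨k, rfl, p1, p2, p3⟩ | ⟨k, rfl, p1, p2, p3⟩
    · have hk : 1000 ≤ |k| := by
        rcases le_abs.1 hmbig with h | h
        · exact le_abs.2 (Or.inl (by omega))
        · exact le_abs.2 (Or.inr (by omega))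
      rcases prime3 k hk hlem p2 with p4 | ⟨q, hq⟩
      · left
        rcases le_abs.1 hk with h0 | h0
        · left
          refine ⟨k.natAbs, mem_A4_3 k X 1 k.natAbs (by omega) (by omega) ?_ p1 p2 p3 p4, ?_⟩
          · have := abs_of_pos (by omega : 0 < 4 * k + 3)
            omega
          · rw [show ((k.natAbs : ℕ) : ℤ) = k by omega]
        · right
          refine ⟨k.natAbs, mem_A4_3 k X (-1) k.natAbs (by omega) (by omega) ?_ p1 p2 p3 p4, ?_⟩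
          · have := abs_of_neg (by omega : 4 * k + 3 < 0)
            omega
          · rw [show ((k.natAbs : ℕ) : ℤ) = -k by omega]; ring
      · right; right; left
        exact ⟨q, q_le X q 2 _ (by norm_num) hq hmX', by rw [hq]⟩
    · have hk : 1000 ≤ |k| := by
        rcases le_abs.1 hmbig with h | h
        · exact le_abs.2 (Or.inl (by omega))
        · exact le_abs.2 (Or.inr (by omega))
      rcases prime5 k hk hlem p2 with p4 | ⟨q, hq⟩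
      · right; left
        rcases le_abs.1 hk with h0 | h0
        · left
          refine ⟨k.natAbs, mem_A4_5 k X 1 k.natAbs (by omega) (by omega) ?_ p1 p2 p3 p4, ?_⟩
          · have := abs_of_pos (by omega : 0 < 8 * k + 5)
            omega
          · rw [show ((k.natAbs : ℕ) : ℤ) = k by omega]
        · right
          refine ⟨k.natAbs, mem_A4_5 k X (-1) k.natAbs (by omega) (by omega) ?_ p1 p2 p3 p4, ?_⟩
          · have := abs_of_neg (by omega : 8 * k + 5 < 0)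
            omega
          · rw [show ((k.natAbs : ℕ) : ℤ) = -k by omega]; ring
      · right; right; right
        exact ⟨q, q_le X q 4 _ (by norm_num) hq hmX', by rw [hq]⟩
  rcases he with rfl | rfl
  · exact Or.inl hT
  · exact Or.inr hT

/-- `√X + 1 = O(X / (log X)^4)` -/
lemma sqrt_bound (X : ℕ) (hX : 2 ≤ X) :
    ((Nat.sqrt X + 1 : ℕ) : ℝ) ≤ 2 * 8 ^ 4 * (X / (Real.log X) ^ 4) := by
  have hXR : (2 : ℝ) ≤ X := by exact_mod_cast hX
  have hX0 : (0 : ℝ) < X := by linarith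
  have hl : 0 < Real.log X := Real.log_pos (by linarith)
  have h1 : ((Nat.sqrt X : ℕ) : ℝ) ≤ (X : ℝ) ^ (1 / 2 : ℝ) := by
    rw [← Real.sqrt_eq_rpow]
    exact Real.nat_sqrt_le_real_sqrt
  have h0 : (1 : ℝ) ≤ (X : ℝ) ^ (1 / 2 : ℝ) := Real.one_le_rpow (by linarith) (by norm_num)
  have hlog : (Real.log X) ^ 4 ≤ 8 ^ 4 * (X : ℝ) ^ (1 / 2 : ℝ) := by
    have e1 : Real.log X ≤ 8 * (X : ℝ) ^ (1 / 8 : ℝ) := by
      have e2 : Real.log ((X : ℝ) ^ (1 / 8 : ℝ)) ≤ (X : ℝ) ^ (1 / 8 : ℝ) := by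
        have := Real.log_le_sub_one_of_pos (Real.rpow_pos_of_pos hX0 (1 / 8 : ℝ))
        linarith
      rw [Real.log_rpow hX0] at e2
      linarith
    calc (Real.log X) ^ 4 ≤ (8 * (X : ℝ) ^ (1 / 8 : ℝ)) ^ 4 := by gcongr
      _ = 8 ^ 4 * (X : ℝ) ^ (1 / 2 : ℝ) := by
          rw [mul_pow, ← Real.rpow_natCast ((X : ℝ) ^ (1 / 8 : ℝ)), ← Real.rpow_mul hX0.le]
          norm_num
  have hhalf : (X : ℝ) ^ (1 / 2 : ℝ) * (X : ℝ) ^ (1 / 2 : ℝ) = X := by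
    rw [← Real.rpow_add hX0]; norm_num
  have h2 : (X : ℝ) ^ (1 / 2 : ℝ) ≤ 8 ^ 4 * (X / (Real.log X) ^ 4) := by
    rw [mul_div_assoc', le_div_iff₀ (by positivity)]
    calc (X : ℝ) ^ (1 / 2 : ℝ) * (Real.log X) ^ 4
        ≤ (X : ℝ) ^ (1 / 2 : ℝ) * (8 ^ 4 * (X : ℝ) ^ (1 / 2 : ℝ)) := by gcongr
      _ = 8 ^ 4 * ((X : ℝ) ^ (1 / 2 : ℝ) * (X : ℝ) ^ (1 / 2 : ℝ)) := by ring
      _ = _ := by rw [hhalf]
  push_cast
  linarith

lemma forms3 (σ : ℤ) (hσ : σ = 1 ∨ σ = -1) : (∀ i, fa3 σ i ≠ 0) ∧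
    ∀ i j, i ≠ j → fa3 σ i * fb3 j - fa3 σ j * fb3 i ≠ 0 := by
  rcases hσ with rfl | rfl <;> decide

lemma forms5 (σ : ℤ) (hσ : σ = 1 ∨ σ = -1) : (∀ i, fa5 σ i ≠ 0) ∧
    ∀ i j, i ≠ j → fa5 σ i * fb5 j - fa5 σ j * fb5 i ≠ 0 := by
  rcases hσ with rfl | rfl <;> decide

/-- the upper bound of the conjectured order of magnitude -/
theorem count4 : ∃ C : ℝ, 0 < C ∧ ∀ X : ℕ, 2 ≤ X →
    ((E 2 X).ncard : ℝ) ≤ C * X / (Real.log X) ^ 4 := by
  obtain ⟨C1, hC1, h1⟩ := Sieve.tuple_bound (fa3 1) fb3 (by norm_num) (forms3 1 (Or.inl rfl)).1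
    (forms3 1 (Or.inl rfl)).2
  obtain ⟨C2, hC2, h2⟩ := Sieve.tuple_bound (fa3 (-1)) fb3 (by norm_num) (forms3 (-1) (Or.inr rfl)).1
    (forms3 (-1) (Or.inr rfl)).2
  obtain ⟨C3, hC3, h3⟩ := Sieve.tuple_bound (fa5 1) fb5 (by norm_num) (forms5 1 (Or.inl rfl)).1
    (forms5 1 (Or.inl rfl)).2
  obtain ⟨C4, hC4, h4⟩ := Sieve.tuple_bound (fa5 (-1)) fb5 (by norm_num) (forms5 (-1) (Or.inr rfl)).1
    (forms5 (-1) (Or.inr rfl)).2
  refine ⟨20000001 * (2 * 8 ^ 4) + 2 * C1 + 2 * C2 + 2 * C3 + 2 * C4 + 4 * (2 * 8 ^ 4),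
    by positivity, fun X hX => ?_⟩
  have hsub : E 2 X ⊆ ((Icc (-10000000 : ℤ) 10000000 ∪ (T4 X 1 ∪ T4 X 4) : Finset ℤ) : Set ℤ) := by
    intro n hn
    rw [mem_coe, mem_union, mem_union]
    by_cases h : 10000000 ≤ |n|
    · exact Or.inr (E_sub4 X n hn h)
    · left
      rw [mem_Icc]
      push Not at h
      exact abs_le.1 h.le
  have k1 : (E 2 X).ncard ≤ 20000001 + ((T4 X 1).card + (T4 X 4).card) := by
    have a1 := Set.ncard_le_ncard hsub (Finset.finite_toSet _)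
    rw [Set.ncard_coe_finset] at a1
    have a2 := card_union_le (Icc (-10000000 : ℤ) 10000000) (T4 X 1 ∪ T4 X 4)
    have a3 := card_union_le (T4 X 1) (T4 X 4)
    have a4 : (Icc (-10000000 : ℤ) 10000000).card = 20000001 := by
      rw [Int.card_Icc]; rfl
    omega
  have a1 := T4_card X 1
  have a2 := T4_card X 4
  have k2 : ((E 2 X).ncard : ℝ) ≤ 20000001 + 2 * (A4 (fa3 1) fb3 X).card +
      2 * (A4 (fa3 (-1)) fb3 X).card + 2 * (A4 (fa5 1) fb5 X).card +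
      2 * (A4 (fa5 (-1)) fb5 X).card + 4 * ((Nat.sqrt X + 1 : ℕ) : ℝ) := by
    exact_mod_cast (by omega : (E 2 X).ncard ≤ 20000001 + 2 * (A4 (fa3 1) fb3 X).card +
      2 * (A4 (fa3 (-1)) fb3 X).card + 2 * (A4 (fa5 1) fb5 X).card +
      2 * (A4 (fa5 (-1)) fb5 X).card + 4 * (Nat.sqrt X + 1))
  have b1 := h1 X hX
  have b2 := h2 X hX
  have b3 := h3 X hX
  have b4 := h4 X hX
  have b5 := sqrt_bound X hX
  have b6 : (1 : ℝ) ≤ 2 * 8 ^ 4 * (X / (Real.log X) ^ 4) := by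
    refine le_trans ?_ b5
    push_cast
    have : (0 : ℝ) ≤ (Nat.sqrt X : ℕ) := by positivity
    linarith
  change ((A4 (fa3 1) fb3 X).card : ℝ) ≤ _ at b1
  change ((A4 (fa3 (-1)) fb3 X).card : ℝ) ≤ _ at b2
  change ((A4 (fa5 1) fb5 X).card : ℝ) ≤ _ at b3
  change ((A4 (fa5 (-1)) fb5 X).card : ℝ) ≤ _ at b4
  rw [mul_div_assoc] at b1 b2 b3 b4
  rw [mul_div_assoc]
  calc ((E 2 X).ncard : ℝ) ≤ _ := k2
    _ ≤ 20000001 * (2 * 8 ^ 4 * (X / (Real.log X) ^ 4)) + 2 * (C1 * (X / (Real.log X) ^ 4)) +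
      2 * (C2 * (X / (Real.log X) ^ 4)) + 2 * (C3 * (X / (Real.log X) ^ 4)) +
      2 * (C4 * (X / (Real.log X) ^ 4)) + 4 * (2 * 8 ^ 4 * (X / (Real.log X) ^ 4)) := by linarith
    _ = _ := by ring

end Pool.Agent.Lib.MP_dde2f1_nt
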