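import Pool.Agent.Lib.MP_dde2f1_nt.Quad

set_option autoImplicit false

namespace Pool.Agent.Lib.MP_dde2f1_nt

/-- divisors of `a` up to `√a` -/
def sdiv (a : ℕ) : Finset ℕ := a.divisors.filter (fun c => c * c ≤ a)

lemma fam (n g s y A B N : ℤ) (hg : 1 ≤ g) (hAB : 0 < A * B) (hs : -(2 * N) ≤ s) (hs' : s ≤ 2 * N)
    (h0 : s ≠ 0) (hN : N ≤ 9 * |B|) (hA : 10000 ≤ |A|) (hB : 10 ≤ |B|)
    (hprod : g ^ 2 * (A * B) = s ^ 2 - 4 * n) (hy : s ^ 2 - 3 * n = y ^ 2)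
    (hpar : ∀ c d : ℤ, 0 < c → 0 < d → c * d = A * B → (4 : ℤ) ∣ g * c + g * d - 2 * s) :
    ((sdiv A.natAbs).card : ℕ∞) ≤ (DQ n).encard := by
  set F : ℕ → ℤ := fun c => g * (((A.natAbs / c : ℕ) : ℤ) * |B|) with hF
  have hApos : 0 < A.natAbs := by
    rw [Int.abs_eq_natAbs] at hA
    omega
  have hinj : Set.InjOn F (sdiv A.natAbs : Set ℕ) := by
    intro c hc c' hc' h
    simp only [sdiv, Finset.coe_filter, Nat.mem_divisors, Set.mem_ofPred_eq] at hc hc'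
    simp only [hF] at h
    have h1 := mul_left_cancel₀ (by omega : g ≠ 0) h
    have h2 := mul_right_cancel₀ (by omega : |B| ≠ 0) h1
    have h3 : A.natAbs / c = A.natAbs / c' := by exact_mod_cast h2
    have h4 := Nat.mul_div_cancel' hc.1.1
    have h5 := Nat.mul_div_cancel' hc'.1.1
    rw [← h3] at h5
    have h6 : 0 < A.natAbs / c := by
      rcases Nat.eq_zero_or_pos (A.natAbs / c) with h | h
      · rw [h] at h4; omega
      · exact h
    exact Nat.eq_of_mul_eq_mul_right h6 (h4.trans h5.symm)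
  have := card_le n ((sdiv A.natAbs).image F) (by
    intro d hd
    rw [Finset.mem_image] at hd
    obtain ⟨c, hc, rfl⟩ := hd
    rw [sdiv, Finset.mem_filter, Nat.mem_divisors] at hc
    exact many n g s y A B N hg hAB hs hs' h0 hN hA hB hprod hy hpar c hc.1.1 hc.2)
  rwa [Finset.card_image_of_injOn hinj] at this

lemma odd_sum (c d : ℤ) (t : ℤ) (h : c * d = 8 * t + 5) : ∃ u, c + d = 4 * u + 2 := by
  have hc : c % 8 = 0 ∨ c % 8 = 1 ∨ c % 8 = 2 ∨ c % 8 = 3 ∨ c % 8 = 4 ∨ c % 8 = 5 ∨ c % 8 = 6 ∨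
    c % 8 = 7 := by omega
  have hd : d % 8 = 0 ∨ d % 8 = 1 ∨ d % 8 = 2 ∨ d % 8 = 3 ∨ d % 8 = 4 ∨ d % 8 = 5 ∨ d % 8 = 6 ∨
    d % 8 = 7 := by omega
  have h8 : (c * d) % 8 = 5 := by omega
  rw [Int.mul_emod] at h8
  refine ⟨(c + d) / 4, ?_⟩
  rcases hc with h1 | h1 | h1 | h1 | h1 | h1 | h1 | h1 <;>
    rcases hd with h2 | h2 | h2 | h2 | h2 | h2 | h2 | h2 <;>
      rw [h1, h2] at h8 <;> omega

lemma odd_sum' (c d : ℤ) (t : ℤ) (h : c * d = 8 * t + 1) : ∃ u, c + d = 4 * u + 2 := by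
  have hc : c % 8 = 0 ∨ c % 8 = 1 ∨ c % 8 = 2 ∨ c % 8 = 3 ∨ c % 8 = 4 ∨ c % 8 = 5 ∨ c % 8 = 6 ∨
    c % 8 = 7 := by omega
  have hd : d % 8 = 0 ∨ d % 8 = 1 ∨ d % 8 = 2 ∨ d % 8 = 3 ∨ d % 8 = 4 ∨ d % 8 = 5 ∨ d % 8 = 6 ∨
    d % 8 = 7 := by omega
  have h8 : (c * d) % 8 = 1 := by omega
  rw [Int.mul_emod] at h8
  refine ⟨(c + d) / 4, ?_⟩
  rcases hc with h1 | h1 | h1 | h1 | h1 | h1 | h1 | h1 <;>
    rcases hd with h2 | h2 | h2 | h2 | h2 | h2 | h2 | h2 <;>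
      rw [h1, h2] at h8 <;> omega

lemma even_sum (c d : ℤ) (t : ℤ) (h : c * d = 2 * t + 1) : ∃ u, c + d = 2 * u := by
  have h8 : (c * d) % 2 = 1 := by omega
  rw [Int.mul_emod] at h8
  have hc : c % 2 = 0 ∨ c % 2 = 1 := by omega
  have hd : d % 2 = 0 ∨ d % 2 = 1 := by omega
  refine ⟨(c + d) / 2, ?_⟩
  rcases hc with h1 | h1 <;> rcases hd with h2 | h2 <;> rw [h1, h2] at h8 <;> omega

lemma two_dvd_mul_succ (k : ℤ) : ∃ u, k * (k + 1) = 2 * u := by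
  obtain ⟨r, hr⟩ := Int.even_mul_succ_self k
  exact ⟨r, by omega⟩

/-- parity for `n = 4k+3`, first family -/
lemma par3 (k c d : ℤ) (h : c * d = (2 * k + 1) * (2 * k - 3)) :
    (4 : ℤ) ∣ 1 * c + 1 * d - 2 * (2 * k + 3) := by
  obtain ⟨u, hu⟩ := two_dvd_mul_succ (k - 1)
  obtain ⟨v, hv⟩ := odd_sum c d (u - 1) (by rw [h]; linear_combination 4 * hu)
  exact ⟨v - k - 1, by omega⟩

/-- parity for `n = 4k+3`, second family -/
lemma par3' (k c d : ℤ) (h : c * d = (18 * k + 13) * (2 * k + 1)) :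
    (4 : ℤ) ∣ 1 * c + 1 * d - 2 * (6 * k + 5) := by
  obtain ⟨u, hu⟩ := two_dvd_mul_succ k
  obtain ⟨v, hv⟩ := odd_sum c d (9 * u + k + 1) (by rw [h]; linear_combination 36 * hu)
  exact ⟨v - 3 * k - 2, by omega⟩

/-- parity for `n = 8k+5`, first family -/
lemma par5 (k c d : ℤ) (h : c * d = (2 * k + 1) * (2 * k - 1)) :
    (4 : ℤ) ∣ 2 * c + 2 * d - 2 * (4 * k + 4) := by
  obtain ⟨v, hv⟩ := even_sum c d (2 * k ^ 2 - 1) (by rw [h]; ring)
  exact ⟨v - 2 * k - 2, by omega⟩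

/-- parity for `n = 8k+5`, second family -/
lemma par5' (k c d : ℤ) (h : c * d = (18 * k + 11) * (2 * k + 1)) :
    (4 : ℤ) ∣ 2 * c + 2 * d - 2 * (12 * k + 8) := by
  obtain ⟨v, hv⟩ := even_sum c d (18 * k ^ 2 + 20 * k + 5) (by rw [h]; ring)
  exact ⟨v - 6 * k - 4, by omega⟩

lemma parE (j c d : ℤ) (h : c * d = (2 * j - 1) * (2 * j - 9)) :
    (4 : ℤ) ∣ 1 * c + 1 * d - 2 * (2 * j + 3) := by
  obtain ⟨u, hu⟩ := two_dvd_mul_succ j
  obtain ⟨v, hv⟩ := odd_sum' c d (u - 3 * j + 1) (by rw [h]; linear_combination 4 * hu)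
  exact ⟨v - j - 1, by omega⟩

lemma cls3 (k : ℤ) (hk : 10000 ≤ |k|) :
    ((sdiv (2 * k + 1).natAbs).card : ℕ∞) ≤ (DQ (4 * k + 3)).encard := by
  rcases le_abs.1 hk with h | h
  · refine fam (4 * k + 3) 1 (2 * k + 3) (2 * k) (2 * k + 1) (2 * k - 3) (2 * k) le_rfl
      (by nlinarith) (by omega) (by omega) (by omega) ?_ ?_ ?_ (by ring) (by ring)
      (fun c d _ _ h => par3 k c d h)
    · rw [abs_of_pos (by omega)]; omega
    · rw [abs_of_pos (by omega)]; omega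
    · rw [abs_of_pos (by omega)]; omega
  · refine fam (4 * k + 3) 1 (2 * k + 3) (2 * k) (2 * k + 1) (2 * k - 3) (-(2 * k)) le_rfl
      (by nlinarith) (by omega) (by omega) (by omega) ?_ ?_ ?_ (by ring) (by ring)
      (fun c d _ _ h => par3 k c d h)
    · rw [abs_of_neg (by omega)]; omega
    · rw [abs_of_neg (by omega)]; omega
    · rw [abs_of_neg (by omega)]; omega

lemma cls5 (k : ℤ) (hk : 10000 ≤ |k|) :
    ((sdiv (2 * k + 1).natAbs).card : ℕ∞) ≤ (DQ (8 * k + 5)).encard := by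
  rcases le_abs.1 hk with h | h
  · refine fam (8 * k + 5) 2 (4 * k + 4) (4 * k + 1) (2 * k + 1) (2 * k - 1) (4 * k) (by norm_num)
      (by nlinarith) (by omega) (by omega) (by omega) ?_ ?_ ?_ (by ring) (by ring)
      (fun c d _ _ h => par5 k c d h)
    · rw [abs_of_pos (by omega)]; omega
    · rw [abs_of_pos (by omega)]; omega
    · rw [abs_of_pos (by omega)]; omega
  · refine fam (8 * k + 5) 2 (4 * k + 4) (4 * k + 1) (2 * k + 1) (2 * k - 1) (-(4 * k))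
      (by norm_num) (by nlinarith) (by omega) (by omega) (by omega) ?_ ?_ ?_ (by ring) (by ring)
      (fun c d _ _ h => par5 k c d h)
    · rw [abs_of_neg (by omega)]; omega
    · rw [abs_of_neg (by omega)]; omega
    · rw [abs_of_neg (by omega)]; omega

lemma cls1 (k : ℤ) (hk : 10000 ≤ |k|) :
    ((sdiv k.natAbs).card : ℕ∞) ≤ (DQ (8 * k + 1)).encard := by
  rcases le_abs.1 hk with h | h
  · refine fam (8 * k + 1) 4 (4 * k + 2) (4 * k - 1) k (k - 1) (4 * k) (by norm_num)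
      (by nlinarith) (by omega) (by omega) (by omega) ?_ ?_ ?_ (by ring) (by ring)
      (fun c d _ _ h => ⟨c + d - 2 * k - 1, by ring⟩)
    · rw [abs_of_pos (by omega)]; omega
    · rw [abs_of_pos (by omega)]; omega
    · rw [abs_of_pos (by omega)]; omega
  · refine fam (8 * k + 1) 4 (4 * k + 2) (4 * k - 1) k (k - 1) (-(4 * k))
      (by norm_num) (by nlinarith) (by omega) (by omega) (by omega) ?_ ?_ ?_ (by ring) (by ring)
      (fun c d _ _ h => ⟨c + d - 2 * k - 1, by ring⟩)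
    · rw [abs_of_neg (by omega)]; omega
    · rw [abs_of_neg (by omega)]; omega
    · rw [abs_of_neg (by omega)]; omega

lemma clsE (j : ℤ) (hj : 10000 ≤ |j|) :
    ((sdiv (2 * j - 1).natAbs).card : ℕ∞) ≤ (DQ (8 * j)).encard := by
  rcases le_abs.1 hj with h | h
  · refine fam (8 * j) 1 (2 * j + 3) (2 * j - 3) (2 * j - 1) (2 * j - 9) (2 * j) le_rfl
      (by nlinarith) (by omega) (by omega) (by omega) ?_ ?_ ?_ (by ring) (by ring)
      (fun c d _ _ h => parE j c d h)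
    · rw [abs_of_pos (by omega)]; omega
    · rw [abs_of_pos (by omega)]; omega
    · rw [abs_of_pos (by omega)]; omega
  · refine fam (8 * j) 1 (2 * j + 3) (2 * j - 3) (2 * j - 1) (2 * j - 9) (-(2 * j)) le_rfl
      (by nlinarith) (by omega) (by omega) (by omega) ?_ ?_ ?_ (by ring) (by ring)
      (fun c d _ _ h => parE j c d h)
    · rw [abs_of_neg (by omega)]; omega
    · rw [abs_of_neg (by omega)]; omega
    · rw [abs_of_neg (by omega)]; omega

/-- odd case -/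
lemma odd_case (n : ℤ) (hn : n % 2 = 1) (h : 100000 ≤ |n|) :
    ∃ A f : ℤ, f ∈ ({1, 2, 4, 8} : Finset ℤ) ∧ n = 1 + f * A ∧
      ((sdiv A.natAbs).card : ℕ∞) ≤ (DQ n).encard := by
  have h8 : n % 4 = 3 ∨ n % 8 = 1 ∨ n % 8 = 5 := by omega
  rcases h8 with h8 | h8 | h8
  · obtain ⟨k, hk⟩ : ∃ k, n = 4 * k + 3 := ⟨n / 4, by omega⟩
    subst hk
    refine ⟨2 * k + 1, 2, by simp, by ring, cls3 k ?_⟩
    rcases le_abs.1 h with h | h
    · exact le_abs.2 (Or.inl (by omega))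
    · exact le_abs.2 (Or.inr (by omega))
  · obtain ⟨k, hk⟩ : ∃ k, n = 8 * k + 1 := ⟨n / 8, by omega⟩
    subst hk
    refine ⟨k, 8, by simp, by ring, cls1 k ?_⟩
    rcases le_abs.1 h with h | h
    · exact le_abs.2 (Or.inl (by omega))
    · exact le_abs.2 (Or.inr (by omega))
  · obtain ⟨k, hk⟩ : ∃ k, n = 8 * k + 5 := ⟨n / 8, by omega⟩
    subst hk
    refine ⟨2 * k + 1, 4, by simp, by ring, cls5 k ?_⟩
    rcases le_abs.1 h with h | h
    · exact le_abs.2 (Or.inl (by omega))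
    · exact le_abs.2 (Or.inr (by omega))

/-- every admissible `n` with `|n|` large: many quadruples from the divisors of a linear form -/
theorem div_bound (n : ℤ) (hn : n % 4 ≠ 2) (h : 1000000 ≤ |n|) :
    ∃ A e f : ℤ, e ∈ ({1, 4} : Finset ℤ) ∧ f ∈ ({1, 2, 4, 8} : Finset ℤ) ∧ n = e * (1 + f * A) ∧
      ((sdiv A.natAbs).card : ℕ∞) ≤ (DQ n).encard := by
  have h4 : n % 2 = 1 ∨ n % 8 = 0 ∨ n % 8 = 4 := by omega
  rcases h4 with h4 | h4 | h4
  · obtain ⟨A, f, hf, hA, hc⟩ := odd_case n h4 (by omega)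
    exact ⟨A, 1, f, by simp, hf, by rw [one_mul]; exact hA, hc⟩
  · obtain ⟨j, hj⟩ : ∃ j, n = 8 * j := ⟨n / 8, by omega⟩
    subst hj
    refine ⟨2 * j - 1, 4, 1, by simp, by simp, by ring, clsE j ?_⟩
    rcases le_abs.1 h with h | h
    · exact le_abs.2 (Or.inl (by omega))
    · exact le_abs.2 (Or.inr (by omega))
  · obtain ⟨m, hm⟩ : ∃ m, n = 4 * m := ⟨n / 4, by omega⟩
    subst hm
    have hm2 : m % 2 = 1 := by omega
    have habs : 100000 ≤ |m| := by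
      rcases le_abs.1 h with h | h
      · exact le_abs.2 (Or.inl (by omega))
      · exact le_abs.2 (Or.inr (by omega))
    obtain ⟨A, f, hf, hA, hc⟩ := odd_case m hm2 habs
    exact ⟨A, 4, f, by simp, hf, by rw [← hA], hc.trans (scale m)⟩

end Pool.Agent.Lib.MP_dde2f1_nt
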