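import Mathlib

set_option autoImplicit false

namespace Pool.Agent.Lib.MP_dde2f1_nt

/-- the set of all `D(n)`-quadruples of positive integers -/
def DQ (n : ℤ) : Set (Finset ℤ) :=
  {s : Finset ℤ | s.card = 4 ∧ (∀ a ∈ s, 0 < a) ∧
        ∀ a ∈ s, ∀ b ∈ s, a ≠ b → IsSquare (a * b + n)}

lemma dvd4 (x t : ℤ) (h : x ^ 2 = 16 * t) : (4 : ℤ) ∣ x := by
  have : (4 : ℤ) ^ 2 ∣ x ^ 2 := ⟨t, by rw [h]; norm_num⟩
  exact (Int.pow_dvd_pow_iff (by norm_num)).1 this

/-- the basic construction -/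
lemma mk (n c d s a b y N : ℤ) (hc : 0 < c) (hs : -(2 * N) ≤ s) (hs' : s ≤ 2 * N) (h0 : s ≠ 0)
    (hd : 3 * c + 4 * N < d) (hsum : c + d = 2 * (a + b)) (hab : b - a = s)
    (hcd : c * d = s ^ 2 - 4 * n) (hy : s ^ 2 - 3 * n = y ^ 2) :
    ∃ t ∈ DQ n, d ∈ t ∧ ∀ x ∈ t, x ≤ d := by
  have hN : 0 ≤ N := by omega
  have ha : c < a := by omega
  have hb : c < b := by omega
  have had : a < d := by omega
  have hbd : b < d := by omega
  have hne : a ≠ b := by omega
  have e1 : (d - c) ^ 2 = 16 * (a * b + n) := by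
    have : s ^ 2 = (b - a) ^ 2 := by rw [hab]
    have h3 : (c + d) ^ 2 = 4 * (a + b) ^ 2 := by rw [hsum]; ring
    nlinarith
  obtain ⟨r, hr⟩ := dvd4 _ _ e1
  have hab2 : a * b + n = r * r := by
    rw [hr] at e1
    nlinarith
  have hc' : c = a + b - 2 * r := by omega
  have hd' : d = a + b + 2 * r := by omega
  refine ⟨{a, b, c, d}, ⟨?_, ?_, ?_⟩, by simp, ?_⟩
  · rw [Finset.card_insert_of_notMem, Finset.card_insert_of_notMem, Finset.card_insert_of_notMem,
      Finset.card_singleton]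
    · simp; omega
    · simp; omega
    · simp; omega
  · intro x hx
    simp only [Finset.mem_insert, Finset.mem_singleton] at hx
    rcases hx with h | h | h | h <;> omega
  · have p1 : IsSquare (a * b + n) := ⟨r, hab2⟩
    have p2 : IsSquare (a * c + n) := ⟨a - r, by rw [hc']; linear_combination hab2⟩
    have p3 : IsSquare (a * d + n) := ⟨a + r, by rw [hd']; linear_combination hab2⟩
    have p4 : IsSquare (b * c + n) := ⟨b - r, by rw [hc']; linear_combination hab2⟩
    have p5 : IsSquare (b * d + n) := ⟨b + r, by rw [hd']; linear_combination hab2⟩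
    have p6 : IsSquare (c * d + n) := ⟨y, by rw [hcd]; linear_combination hy⟩
    intro x hx z hz hxz
    simp only [Finset.mem_insert, Finset.mem_singleton] at hx hz
    rcases hx with h | h | h | h <;> rcases hz with h' | h' | h' | h' <;> subst h <;> subst h' <;>
      first
        | exact absurd rfl hxz
        | assumption
        | (rw [mul_comm]; assumption)
  · intro x hx
    simp only [Finset.mem_insert, Finset.mem_singleton] at hx
    rcases hx with h | h | h | h <;> omega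

/-- many values `d` give many quadruples -/
lemma card_le (n : ℤ) (Δ : Finset ℤ) (h : ∀ d ∈ Δ, ∃ t ∈ DQ n, d ∈ t ∧ ∀ x ∈ t, x ≤ d) :
    (Δ.card : ℕ∞) ≤ (DQ n).encard := by
  choose! f hf using h
  have hinj : Set.InjOn f (Δ : Set ℤ) := by
    intro d hd e he hde
    obtain ⟨_, h1, h2⟩ := hf d hd
    obtain ⟨_, h3, h4⟩ := hf e he
    rw [hde] at h1 h2
    exact le_antisymm (h4 _ h1) (h2 _ h3)
  have hsub : f '' (Δ : Set ℤ) ⊆ DQ n := by
    rintro _ ⟨d, hd, rfl⟩
    exact (hf d hd).1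
  calc (Δ.card : ℕ∞) = (Δ : Set ℤ).encard := (Set.encard_coe_eq_coe_finsetCard _).symm
    _ = (f '' (Δ : Set ℤ)).encard := hinj.encard_image.symm
    _ ≤ (DQ n).encard := Set.encard_le_encard hsub

/-- doubling as an embedding -/
def dbl : ℤ ↪ ℤ := ⟨fun x => 2 * x, fun x y h => by simpa using h⟩

lemma dbl_apply (x : ℤ) : dbl x = 2 * x := rfl

/-- scaling by `2` -/
lemma scale (n : ℤ) : (DQ n).encard ≤ (DQ (4 * n)).encard := by
  have hinj : Function.Injective (fun t : Finset ℤ => t.map dbl) :=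
    Finset.map_injective _
  rw [← hinj.encard_image]
  apply Set.encard_le_encard
  rintro _ ⟨t, ⟨h1, h2, h3⟩, rfl⟩
  refine ⟨by simpa using h1, ?_, ?_⟩
  · intro a ha
    simp only [Finset.mem_map] at ha
    obtain ⟨x, hx, rfl⟩ := ha
    have := h2 x hx
    rw [dbl_apply]
    omega
  · intro a ha b hb hab
    simp only [Finset.mem_map] at ha hb
    obtain ⟨x, hx, rfl⟩ := ha
    obtain ⟨z, hz, rfl⟩ := hb
    obtain ⟨r, hr⟩ := h3 x hx z hz (fun h => hab (by rw [h]))
    refine ⟨2 * r, ?_⟩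
    rw [dbl_apply, dbl_apply]
    linear_combination 4 * hr

/-- divisor version: `A` and `B` have the same sign, and `g c₀ · g d₀ = g² A B = s² - 4 n` -/
lemma many (n g s y A B N : ℤ) (hg : 1 ≤ g) (hAB : 0 < A * B) (hs : -(2 * N) ≤ s) (hs' : s ≤ 2 * N)
    (h0 : s ≠ 0) (hN : N ≤ 9 * |B|) (hA : 10000 ≤ |A|) (hB : 10 ≤ |B|)
    (hprod : g ^ 2 * (A * B) = s ^ 2 - 4 * n) (hy : s ^ 2 - 3 * n = y ^ 2)
    (hpar : ∀ c d : ℤ, 0 < c → 0 < d → c * d = A * B → (4 : ℤ) ∣ g * c + g * d - 2 * s)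
    (c : ℕ) (hc : c ∣ A.natAbs) (hc2 : c * c ≤ A.natAbs) :
    ∃ t ∈ DQ n, g * (((A.natAbs / c : ℕ) : ℤ) * |B|) ∈ t ∧
      ∀ x ∈ t, x ≤ g * (((A.natAbs / c : ℕ) : ℤ) * |B|) := by
  obtain ⟨q, hq⟩ := hc
  have hApos : 0 < A.natAbs := by
    rw [Int.abs_eq_natAbs] at hA
    omega
  have hcpos : 0 < c := by
    rcases Nat.eq_zero_or_pos c with h | h
    · rw [h] at hq; omega
    · exact h
  have hqc : A.natAbs / c = q := by rw [hq]; exact Nat.mul_div_cancel_left _ hcpos
  rw [hqc]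
  have hcq : c ≤ q := by
    rw [hq] at hc2
    exact le_of_mul_le_mul_left hc2 hcpos
  have hAq : (|A| : ℤ) = c * q := by
    rw [Int.abs_eq_natAbs, hq]; push_cast; ring
  have hq100 : 100 ≤ q := by
    by_contra hlt
    push Not at hlt
    have h1 : (c : ℤ) * q ≤ 99 * 99 := by
      have : c ≤ 99 := by omega
      have h2 : q ≤ 99 := by omega
      exact_mod_cast Nat.mul_le_mul this h2
    rw [← hAq] at h1
    linarith
  have hABabs : A * B = |A| * |B| := by rw [← abs_mul, abs_of_pos hAB]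
  have hcz : (0 : ℤ) < c := by exact_mod_cast hcpos
  have hqz : (100 : ℤ) ≤ q := by exact_mod_cast hq100
  have hcqz : (c : ℤ) ≤ q := by exact_mod_cast hcq
  have hprod2 : (c : ℤ) * (q * |B|) = A * B := by rw [hABabs, hAq]; ring
  obtain ⟨a, ha⟩ := hpar c (q * |B|) hcz (by positivity) hprod2
  have h1 : g * (q * |B|) ≥ g * c * 3 + 4 * N + 1 := by
    have e1 : (q : ℤ) * |B| ≥ 3 * q + 36 * |B| + 1 := by nlinarith
    have e2 : g * (q * |B|) ≥ g * (3 * q + 36 * |B| + 1) := by gcongr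
    have e3 : g * (3 * q + 36 * |B| + 1) ≥ g * (3 * c) + 1 * (36 * |B| + 1) := by
      have : g * (3 * (c : ℤ)) ≤ g * (3 * q) := by gcongr
      nlinarith
    linarith
  refine mk n (g * c) (g * (q * |B|)) s a (a + s) y N (by positivity) hs hs' h0 (by linarith)
    (by linarith) (by ring) ?_ hy
  rw [← hprod, ← hprod2]; ring

end Pool.Agent.Lib.MP_dde2f1_nt
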