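import Pool.Agent.Lib.MP_dde2f1_nt.Fam

set_option autoImplicit false

namespace Pool.Agent.Lib.MP_dde2f1_nt

/-- three different maxima give three quadruples -/
lemma three (n d1 d2 d3 : ℤ) (h12 : d1 ≠ d2) (h13 : d1 ≠ d3) (h23 : d2 ≠ d3)
    (h1 : ∃ t ∈ DQ n, d1 ∈ t ∧ ∀ x ∈ t, x ≤ d1) (h2 : ∃ t ∈ DQ n, d2 ∈ t ∧ ∀ x ∈ t, x ≤ d2)
    (h3 : ∃ t ∈ DQ n, d3 ∈ t ∧ ∀ x ∈ t, x ≤ d3) : ¬ (DQ n).encard ≤ 2 := by
  intro hle
  have h := card_le n {d1, d2, d3} (by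
    intro d hd
    simp only [Finset.mem_insert, Finset.mem_singleton] at hd
    rcases hd with rfl | rfl | rfl
    · exact h1
    · exact h2
    · exact h3)
  have hc : ({d1, d2, d3} : Finset ℤ).card = 3 := by
    rw [Finset.card_insert_of_notMem, Finset.card_insert_of_notMem, Finset.card_singleton]
    · simpa using h23
    · simp only [Finset.mem_insert, Finset.mem_singleton, not_or]
      exact ⟨h12, h13⟩
  rw [hc] at h
  have := h.trans hle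
  exact absurd this (by decide)

/-- `n = 8k+1` -/
lemma three1 (k : ℤ) (hk : 100 ≤ |k|) : ¬ (DQ (8 * k + 1)).encard ≤ 2 := by
  have hk2 : 10000 ≤ k ^ 2 := by rw [← sq_abs]; nlinarith
  have hs : ∀ c : ℤ, |c| ≤ 50 → c * k ≤ k ^ 2 / 2 := by
    intro c hc
    have h1 : |c * k| ≤ k ^ 2 / 2 := by
      rw [abs_mul, ← sq_abs k]
      have : |c| * |k| * 2 ≤ |k| ^ 2 := by nlinarith [abs_nonneg k, abs_nonneg c]
      omega
    exact (le_abs_self _).trans h1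
  have e1 : 100 * 100 ≤ k ^ 2 := by linarith
  refine three _ (4 * k * (k - 1)) (2 * k * (k - 1)) (4 * k * (9 * k + 1)) ?_ ?_ ?_ ?_ ?_ ?_
  · nlinarith [hs 1 (by norm_num), hs (-1) (by norm_num)]
  · nlinarith [hs 1 (by norm_num), hs (-1) (by norm_num)]
  · nlinarith [hs 1 (by norm_num), hs (-1) (by norm_num)]
  · have : ∃ N, -(2 * N) ≤ 4 * k + 2 ∧ 4 * k + 2 ≤ 2 * N ∧ 3 * 4 + 4 * N < 4 * k * (k - 1) := by
      rcases le_abs.1 hk with h | h
      · exact ⟨2 * k + 1, by omega, by omega, by nlinarith⟩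
      · exact ⟨-(2 * k + 1), by omega, by omega, by nlinarith⟩
    obtain ⟨N, a1, a2, a3⟩ := this
    exact mk (8 * k + 1) 4 (4 * k * (k - 1)) (4 * k + 2) (k ^ 2 - 3 * k) (k ^ 2 + k + 2)
      (4 * k - 1) N (by norm_num) a1 a2 (by omega) a3 (by ring) (by ring) (by ring) (by ring)
  · obtain ⟨u, hu⟩ := two_dvd_mul_succ k
    have : ∃ N, -(2 * N) ≤ 4 * k + 2 ∧ 4 * k + 2 ≤ 2 * N ∧ 3 * 8 + 4 * N < 2 * k * (k - 1) := by
      rcases le_abs.1 hk with h | h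
      · exact ⟨2 * k + 1, by omega, by omega, by nlinarith⟩
      · exact ⟨-(2 * k + 1), by omega, by omega, by nlinarith⟩
    obtain ⟨N, a1, a2, a3⟩ := this
    exact mk (8 * k + 1) 8 (2 * k * (k - 1)) (4 * k + 2) (u - 3 * k + 1) (u + k + 3)
      (4 * k - 1) N (by norm_num) a1 a2 (by omega) a3 (by linear_combination 2 * hu) (by ring)
      (by ring) (by ring)
  · have : ∃ N, -(2 * N) ≤ 12 * k + 2 ∧ 12 * k + 2 ≤ 2 * N ∧
        3 * 4 + 4 * N < 4 * k * (9 * k + 1) := by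
      rcases le_abs.1 hk with h | h
      · exact ⟨6 * k + 1, by omega, by omega, by nlinarith⟩
      · exact ⟨-(6 * k + 1), by omega, by omega, by nlinarith⟩
    obtain ⟨N, a1, a2, a3⟩ := this
    exact mk (8 * k + 1) 4 (4 * k * (9 * k + 1)) (12 * k + 2) (9 * k ^ 2 - 5 * k)
      (9 * k ^ 2 + 7 * k + 2) (12 * k + 1) N (by norm_num) a1 a2 (by omega) a3 (by ring) (by ring)
      (by ring) (by ring)

/-- `n = 16k+8` -/
lemma three8 (k : ℤ) (hk : 100 ≤ |k|) : ¬ (DQ (16 * k + 8)).encard ≤ 2 := by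
  have hk2 : 10000 ≤ k ^ 2 := by rw [← sq_abs]; nlinarith
  have hkk : 100 * k ≤ k ^ 2 := by rcases le_abs.1 hk with h | h <;> nlinarith
  have hkk' : -(100 * k) ≤ k ^ 2 := by rcases le_abs.1 hk with h | h <;> nlinarith
  refine three _ ((4 * k + 1) * (4 * k - 7)) ((36 * k + 17) * (4 * k + 1))
    ((2 * k - 17) * (2 * k - 1)) ?_ ?_ ?_ ?_ ?_ ?_
  · nlinarith
  · nlinarith
  · nlinarith
  · have : ∃ N, -(2 * N) ≤ 4 * k + 5 ∧ 4 * k + 5 ≤ 2 * N ∧
        3 * 1 + 4 * N < (4 * k + 1) * (4 * k - 7) := by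
      rcases le_abs.1 hk with h | h
      · exact ⟨2 * k + 3, by omega, by omega, by nlinarith⟩
      · exact ⟨-(2 * k + 2), by omega, by omega, by nlinarith⟩
    obtain ⟨N, a1, a2, a3⟩ := this
    exact mk _ 1 _ (4 * k + 5) (4 * k ^ 2 - 8 * k - 4) (4 * k ^ 2 - 4 * k + 1) (4 * k - 1) N
      (by norm_num) a1 a2 (by omega) a3 (by ring) (by ring) (by ring) (by ring)
  · have : ∃ N, -(2 * N) ≤ 12 * k + 7 ∧ 12 * k + 7 ≤ 2 * N ∧
        3 * 1 + 4 * N < (36 * k + 17) * (4 * k + 1) := by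
      rcases le_abs.1 hk with h | h
      · exact ⟨6 * k + 4, by omega, by omega, by nlinarith⟩
      · exact ⟨-(6 * k + 3), by omega, by omega, by nlinarith⟩
    obtain ⟨N, a1, a2, a3⟩ := this
    exact mk _ 1 _ (12 * k + 7) (36 * k ^ 2 + 20 * k + 1) (36 * k ^ 2 + 32 * k + 8) (12 * k + 5) N
      (by norm_num) a1 a2 (by omega) a3 (by ring) (by ring) (by ring) (by ring)
  · have : ∃ N, -(2 * N) ≤ 2 * k + 7 ∧ 2 * k + 7 ≤ 2 * N ∧
        3 * 1 + 4 * N < (2 * k - 17) * (2 * k - 1) := by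
      rcases le_abs.1 hk with h | h
      · exact ⟨k + 4, by omega, by omega, by nlinarith⟩
      · exact ⟨-(k + 3), by omega, by omega, by nlinarith⟩
    obtain ⟨N, a1, a2, a3⟩ := this
    exact mk _ 1 _ (2 * k + 7) (k ^ 2 - 10 * k + 1) (k ^ 2 - 8 * k + 8) (5 - 2 * k) N
      (by norm_num) a1 a2 (by omega) a3 (by ring) (by ring) (by ring) (by ring)

/-- `n = 16k` -/
lemma three0 (k : ℤ) (hk : 100 ≤ |k|) : ¬ (DQ (16 * k)).encard ≤ 2 := by
  have hk2 : 10000 ≤ k ^ 2 := by rw [← sq_abs]; nlinarith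
  have hkk : 100 * k ≤ k ^ 2 := by rcases le_abs.1 hk with h | h <;> nlinarith
  have hkk' : -(100 * k) ≤ k ^ 2 := by rcases le_abs.1 hk with h | h <;> nlinarith
  have q1 : ∃ t ∈ DQ (16 * k), (4 * k - 1) * (4 * k - 9) ∈ t ∧
      ∀ x ∈ t, x ≤ (4 * k - 1) * (4 * k - 9) := by
    have : ∃ N, -(2 * N) ≤ 4 * k + 3 ∧ 4 * k + 3 ≤ 2 * N ∧
        3 * 1 + 4 * N < (4 * k - 1) * (4 * k - 9) := by
      rcases le_abs.1 hk with h | h
      · exact ⟨2 * k + 2, by omega, by omega, by nlinarith⟩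
      · exact ⟨-(2 * k + 1), by omega, by omega, by nlinarith⟩
    obtain ⟨N, a1, a2, a3⟩ := this
    exact mk _ 1 _ (4 * k + 3) (4 * k ^ 2 - 12 * k + 1) (4 * k ^ 2 - 8 * k + 4) (4 * k - 3) N
      (by norm_num) a1 a2 (by omega) a3 (by ring) (by ring) (by ring) (by ring)
  have q2 : ∃ t ∈ DQ (16 * k), (36 * k - 1) * (4 * k - 1) ∈ t ∧
      ∀ x ∈ t, x ≤ (36 * k - 1) * (4 * k - 1) := by
    have : ∃ N, -(2 * N) ≤ 12 * k + 1 ∧ 12 * k + 1 ≤ 2 * N ∧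
        3 * 1 + 4 * N < (36 * k - 1) * (4 * k - 1) := by
      rcases le_abs.1 hk with h | h
      · exact ⟨6 * k + 1, by omega, by omega, by nlinarith⟩
      · exact ⟨-(6 * k), by omega, by omega, by nlinarith⟩
    obtain ⟨N, a1, a2, a3⟩ := this
    exact mk _ 1 _ (12 * k + 1) (36 * k ^ 2 - 16 * k) (36 * k ^ 2 - 4 * k + 1) (12 * k - 1) N
      (by norm_num) a1 a2 (by omega) a3 (by ring) (by ring) (by ring) (by ring)
  have hpar : k % 2 = 0 ∨ k % 2 = 1 := by omega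
  rcases hpar with hpar | hpar
  · obtain ⟨j, rfl⟩ : ∃ j, k = 2 * j := ⟨k / 2, by omega⟩
    refine three _ _ _ (2 * ((2 * j - 9) * (2 * j - 1))) ?_ ?_ ?_ q1 q2 ?_
    · nlinarith
    · nlinarith
    · nlinarith
    · have : ∃ N, -(2 * N) ≤ 4 * j + 6 ∧ 4 * j + 6 ≤ 2 * N ∧
          3 * 2 + 4 * N < 2 * ((2 * j - 9) * (2 * j - 1)) := by
        rcases le_abs.1 hk with h | h
        · exact ⟨2 * j + 3, by omega, by omega, by nlinarith⟩
        · exact ⟨-(2 * j + 3), by omega, by omega, by nlinarith⟩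
      obtain ⟨N, a1, a2, a3⟩ := this
      exact mk _ 2 _ (4 * j + 6) (2 * j ^ 2 - 12 * j + 2) (2 * j ^ 2 - 8 * j + 8) (6 - 4 * j) N
        (by norm_num) a1 a2 (by omega) a3 (by ring) (by ring) (by ring) (by ring)
  · obtain ⟨j, rfl⟩ : ∃ j, k = 2 * j + 1 := ⟨k / 2, by omega⟩
    refine three _ _ _ ((2 * j + 1 - 9) * (2 * j + 1 - 1)) ?_ ?_ ?_ q1 q2 ?_
    · nlinarith
    · nlinarith
    · nlinarith
    · have : ∃ N, -(2 * N) ≤ 4 * j + 8 ∧ 4 * j + 8 ≤ 2 * N ∧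
          3 * 4 + 4 * N < (2 * j + 1 - 9) * (2 * j + 1 - 1) := by
        rcases le_abs.1 hk with h | h
        · exact ⟨2 * j + 4, by omega, by omega, by nlinarith⟩
        · exact ⟨-(2 * j + 4), by omega, by omega, by nlinarith⟩
      obtain ⟨N, a1, a2, a3⟩ := this
      exact mk _ 4 _ (4 * j + 8) (j ^ 2 - 6 * j - 3) (j ^ 2 - 2 * j + 5) (4 - 4 * j) N
        (by norm_num) a1 a2 (by rcases le_abs.1 hk with h | h <;> omega) a3 (by ring) (by ring)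
        (by ring) (by ring)

/-- a composite number has a divisor `c ≥ 2` with `c² ≤ a` -/
lemma exists_small (a : ℕ) (ha : 2 ≤ a) (h : ¬ a.Prime) : ∃ c, 2 ≤ c ∧ c ∣ a ∧ c * c ≤ a := by
  refine ⟨a.minFac, (Nat.minFac_prime (by omega)).two_le, Nat.minFac_dvd a, ?_⟩
  have := Nat.minFac_sq_le_self (by omega : 0 < a) h
  rwa [sq] at this

lemma div_lt (a c : ℕ) (ha : 0 < a) (hc : 2 ≤ c) : a / c < a := Nat.div_lt_self ha hc

lemma struct_aux (n g A B P : ℤ) (hg : 1 ≤ g) (hA : 10000 ≤ |A|) (hB : 10000 ≤ |B|)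
    (hBP : |B| < |P|)
    (F1 : ∀ c : ℕ, c ∣ A.natAbs → c * c ≤ A.natAbs →
      ∃ t ∈ DQ n, g * (((A.natAbs / c : ℕ) : ℤ) * |B|) ∈ t ∧
        ∀ x ∈ t, x ≤ g * (((A.natAbs / c : ℕ) : ℤ) * |B|))
    (F2 : ∀ c : ℕ, c ∣ B.natAbs → c * c ≤ B.natAbs →
      ∃ t ∈ DQ n, g * (((B.natAbs / c : ℕ) : ℤ) * |A|) ∈ t ∧
        ∀ x ∈ t, x ≤ g * (((B.natAbs / c : ℕ) : ℤ) * |A|))
    (F4 : ∀ c : ℕ, c ∣ P.natAbs → c * c ≤ P.natAbs →
      ∃ t ∈ DQ n, g * (((P.natAbs / c : ℕ) : ℤ) * |A|) ∈ t ∧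
        ∀ x ∈ t, x ≤ g * (((P.natAbs / c : ℕ) : ℤ) * |A|))
    (hPc : ∀ c : ℤ, c * |B| ≠ |P|)
    (hle : (DQ n).encard ≤ 2) : A.natAbs.Prime ∧ B.natAbs.Prime ∧ P.natAbs.Prime := by
  have a1 : (A.natAbs : ℤ) = |A| := (Int.abs_eq_natAbs A).symm
  have b1 : (B.natAbs : ℤ) = |B| := (Int.abs_eq_natAbs B).symm
  have p1 : (P.natAbs : ℤ) = |P| := (Int.abs_eq_natAbs P).symm
  have hAp : 0 < |A| := by omega
  have hBp : 0 < |B| := by omega
  have hgp : 0 < g := by omega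
  -- the two baseline quadruples
  have q1 := F1 1 (one_dvd _) (by omega)
  have q4 := F4 1 (one_dvd _) (by omega)
  rw [Nat.div_one, a1] at q1
  rw [Nat.div_one, p1] at q4
  have hlt14 : g * (|A| * |B|) < g * (|P| * |A|) := by
    rw [mul_comm |P| |A|]
    gcongr
  refine ⟨?_, ?_, ?_⟩
  · by_contra hn
    obtain ⟨c, hc2, hcd, hcc⟩ := exists_small _ (by omega) hn
    have hlt : g * (((A.natAbs / c : ℕ) : ℤ) * |B|) < g * (|A| * |B|) := by
      have := div_lt A.natAbs c (by omega) hc2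
      have h2 : ((A.natAbs / c : ℕ) : ℤ) < |A| := by rw [← a1]; exact_mod_cast this
      gcongr
    exact three n _ _ _ hlt14.ne hlt.ne' (hlt.trans hlt14).ne' q1 q4 (F1 c hcd hcc) hle
  · by_contra hn
    obtain ⟨c, hc2, hcd, hcc⟩ := exists_small _ (by omega) hn
    have hlt : g * (((B.natAbs / c : ℕ) : ℤ) * |A|) < g * (|A| * |B|) := by
      have := div_lt B.natAbs c (by omega) hc2
      have h2 : ((B.natAbs / c : ℕ) : ℤ) < |B| := by rw [← b1]; exact_mod_cast this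
      rw [mul_comm |A| |B|]
      gcongr
    exact three n _ _ _ hlt14.ne hlt.ne' (hlt.trans hlt14).ne' q1 q4 (F2 c hcd hcc) hle
  · by_contra hn
    obtain ⟨c, hc2, hcd, hcc⟩ := exists_small _ (by omega) hn
    have hlt : g * (((P.natAbs / c : ℕ) : ℤ) * |A|) < g * (|P| * |A|) := by
      have := div_lt P.natAbs c (by omega) hc2
      have h2 : ((P.natAbs / c : ℕ) : ℤ) < |P| := by rw [← p1]; exact_mod_cast this
      gcongr
    refine three n _ _ _ hlt14.ne ?_ hlt.ne' q1 q4 (F4 c hcd hcc) hle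
    intro h
    have h2 := mul_left_cancel₀ hgp.ne' h
    rw [mul_comm |A| |B|] at h2
    have h3 := mul_right_cancel₀ hAp.ne' h2
    apply hPc c
    rw [h3, ← p1]
    have := Nat.mul_div_cancel' hcd
    exact_mod_cast this

/-- `c |B| ≠ |P|` when `P = 9 B + e` with `0 < e < |B|` -/
lemma hPc_aux (B P e : ℤ) (he : 0 < e) (heB : e < |B|) (hP : P = 9 * B + e) (c : ℤ) :
    c * |B| ≠ |P| := by
  intro h
  have h1 : |c * B| = |P| := by
    rw [abs_mul, ← h]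
    have hc : 0 ≤ c := by
      by_contra hneg
      push Not at hneg
      have : c * |B| < 0 := mul_neg_of_neg_of_pos hneg (by omega)
      have := abs_nonneg P
      omega
    rw [abs_of_nonneg hc]
  have hdvd : B ∣ e := by
    rcases abs_eq_abs.1 h1 with h2 | h2
    · exact ⟨c - 9, by rw [hP] at h2; linear_combination -h2⟩
    · exact ⟨-c - 9, by rw [hP] at h2; linear_combination h2⟩
  have := Int.le_of_dvd he ((abs_dvd _ _).2 hdvd)
  omega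

lemma struct3 (k : ℤ) (hk : 100000 ≤ |k|) (hle : (DQ (4 * k + 3)).encard ≤ 2) :
    (2 * k + 1).natAbs.Prime ∧ (2 * k - 3).natAbs.Prime ∧ (18 * k + 13).natAbs.Prime := by
  obtain ⟨N, M, h1, h2, h3, h4, h5, h6, h7, h8, h9, h10, h11, h12, h13⟩ : ∃ N M : ℤ,
      -(2 * N) ≤ 2 * k + 3 ∧ 2 * k + 3 ≤ 2 * N ∧ N ≤ 9 * |2 * k - 3| ∧ N ≤ 9 * |2 * k + 1| ∧
      -(2 * M) ≤ 6 * k + 5 ∧ 6 * k + 5 ≤ 2 * M ∧ M ≤ 9 * |2 * k + 1| ∧ M ≤ 9 * |18 * k + 13| ∧
      10000 ≤ |2 * k + 1| ∧ 10000 ≤ |2 * k - 3| ∧ |2 * k - 3| < |18 * k + 13| ∧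
      0 < (2 * k + 1) * (2 * k - 3) ∧ 0 < (18 * k + 13) * (2 * k + 1) := by
    rcases le_abs.1 hk with h | h
    · refine ⟨2 * k, 6 * k, by omega, by omega, ?_, ?_, by omega, by omega, ?_, ?_, ?_, ?_, ?_,
        by nlinarith, by nlinarith⟩ <;>
        rw [abs_of_pos (by omega)] <;> try omega
      rw [abs_of_pos (by omega)]; omega
    · refine ⟨-2 * k, -6 * k, by omega, by omega, ?_, ?_, by omega, by omega, ?_, ?_, ?_, ?_, ?_,
        by nlinarith, by nlinarith⟩ <;>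
        rw [abs_of_neg (by omega)] <;> try omega
      rw [abs_of_neg (by omega)]; omega
  have hc3 : ∀ c : ℕ, 10000 ≤ |18 * k + 13| := fun _ => by omega
  refine struct_aux (4 * k + 3) 1 (2 * k + 1) (2 * k - 3) (18 * k + 13) le_rfl h9 h10 h11
    ?_ ?_ ?_ ?_ hle
  · intro c hc hcc
    exact many (4 * k + 3) 1 (2 * k + 3) (2 * k) (2 * k + 1) (2 * k - 3) N le_rfl h12 h1 h2
      (by omega) h3 h9 (by omega) (by ring) (by ring) (fun c d _ _ h => par3 k c d h) c hc hcc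
  · intro c hc hcc
    exact many (4 * k + 3) 1 (2 * k + 3) (2 * k) (2 * k - 3) (2 * k + 1) N le_rfl (by linarith)
      h1 h2 (by omega) h4 h10 (by omega) (by ring) (by ring)
      (fun c d _ _ h => par3 k c d (by rw [h]; ring)) c hc hcc
  · intro c hc hcc
    exact many (4 * k + 3) 1 (6 * k + 5) (6 * k + 4) (18 * k + 13) (2 * k + 1) M le_rfl h13
      h5 h6 (by omega) h7 (hc3 0) (by omega) (by ring) (by ring)
      (fun c d _ _ h => par3' k c d h) c hc hcc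
  · exact hPc_aux _ _ 40 (by norm_num) (by omega) (by ring)

lemma struct5 (k : ℤ) (hk : 100000 ≤ |k|) (hle : (DQ (8 * k + 5)).encard ≤ 2) :
    (2 * k + 1).natAbs.Prime ∧ (2 * k - 1).natAbs.Prime ∧ (18 * k + 11).natAbs.Prime := by
  obtain ⟨N, M, h1, h2, h3, h4, h5, h6, h7, h8, h9, h10, h11, h12, h13⟩ : ∃ N M : ℤ,
      -(2 * N) ≤ 4 * k + 4 ∧ 4 * k + 4 ≤ 2 * N ∧ N ≤ 9 * |2 * k - 1| ∧ N ≤ 9 * |2 * k + 1| ∧
      -(2 * M) ≤ 12 * k + 8 ∧ 12 * k + 8 ≤ 2 * M ∧ M ≤ 9 * |2 * k + 1| ∧ M ≤ 9 * |18 * k + 11| ∧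
      10000 ≤ |2 * k + 1| ∧ 10000 ≤ |2 * k - 1| ∧ |2 * k - 1| < |18 * k + 11| ∧
      0 < (2 * k + 1) * (2 * k - 1) ∧ 0 < (18 * k + 11) * (2 * k + 1) := by
    rcases le_abs.1 hk with h | h
    · refine ⟨4 * k, 7 * k, by omega, by omega, ?_, ?_, by omega, by omega, ?_, ?_, ?_, ?_, ?_,
        by nlinarith, by nlinarith⟩ <;>
        rw [abs_of_pos (by omega)] <;> try omega
      rw [abs_of_pos (by omega)]; omega
    · refine ⟨-4 * k, -7 * k, by omega, by omega, ?_, ?_, by omega, by omega, ?_, ?_, ?_, ?_, ?_,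
        by nlinarith, by nlinarith⟩ <;>
        rw [abs_of_neg (by omega)] <;> try omega
      rw [abs_of_neg (by omega)]; omega
  have hc3 : ∀ c : ℕ, 10000 ≤ |18 * k + 11| := fun _ => by omega
  have hs1 : 4 * k + 4 ≠ 0 := by rcases le_abs.1 hk with h | h <;> omega
  refine struct_aux (8 * k + 5) 2 (2 * k + 1) (2 * k - 1) (18 * k + 11) (by norm_num) h9 h10 h11
    ?_ ?_ ?_ ?_ hle
  · intro c hc hcc
    exact many (8 * k + 5) 2 (4 * k + 4) (4 * k + 1) (2 * k + 1) (2 * k - 1) N (by norm_num) h12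
      h1 h2 hs1 h3 h9 (by omega) (by ring) (by ring) (fun c d _ _ h => par5 k c d h) c hc hcc
  · intro c hc hcc
    exact many (8 * k + 5) 2 (4 * k + 4) (4 * k + 1) (2 * k - 1) (2 * k + 1) N (by norm_num)
      (by linarith) h1 h2 hs1 h4 h10 (by omega) (by ring) (by ring)
      (fun c d _ _ h => par5 k c d (by rw [h]; ring)) c hc hcc
  · intro c hc hcc
    exact many (8 * k + 5) 2 (12 * k + 8) (12 * k + 7) (18 * k + 11) (2 * k + 1) M (by norm_num)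
      h13 h5 h6 (by omega) h7 (hc3 0) (by omega) (by ring) (by ring)
      (fun c d _ _ h => par5' k c d h) c hc hcc
  · exact hPc_aux _ _ 20 (by norm_num) (by omega) (by ring)

lemma odd_struct (m : ℤ) (hm : m % 2 = 1) (h : 1000000 ≤ |m|) (hle : (DQ m).encard ≤ 2) :
    (∃ k, m = 4 * k + 3 ∧ (2 * k + 1).natAbs.Prime ∧ (2 * k - 3).natAbs.Prime ∧
      (18 * k + 13).natAbs.Prime) ∨
    (∃ k, m = 8 * k + 5 ∧ (2 * k + 1).natAbs.Prime ∧ (2 * k - 1).natAbs.Prime ∧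
      (18 * k + 11).natAbs.Prime) := by
  have h8 : m % 4 = 3 ∨ m % 8 = 1 ∨ m % 8 = 5 := by omega
  rcases h8 with h8 | h8 | h8
  · left
    obtain ⟨k, rfl⟩ : ∃ k, m = 4 * k + 3 := ⟨m / 4, by omega⟩
    refine ⟨k, rfl, struct3 k ?_ hle⟩
    rcases le_abs.1 h with h | h
    · exact le_abs.2 (Or.inl (by omega))
    · exact le_abs.2 (Or.inr (by omega))
  · exfalso
    obtain ⟨k, rfl⟩ : ∃ k, m = 8 * k + 1 := ⟨m / 8, by omega⟩
    refine three1 k ?_ hle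
    rcases le_abs.1 h with h | h
    · exact le_abs.2 (Or.inl (by omega))
    · exact le_abs.2 (Or.inr (by omega))
  · right
    obtain ⟨k, rfl⟩ : ∃ k, m = 8 * k + 5 := ⟨m / 8, by omega⟩
    refine ⟨k, rfl, struct5 k ?_ hle⟩
    rcases le_abs.1 h with h | h
    · exact le_abs.2 (Or.inl (by omega))
    · exact le_abs.2 (Or.inr (by omega))

/-- structure of the large exceptional integers -/
theorem struct2 (n : ℤ) (hn : n % 4 ≠ 2) (h : 10000000 ≤ |n|) (hle : (DQ n).encard ≤ 2) :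
    ∃ m e : ℤ, (e = 1 ∨ e = 4) ∧ n = e * m ∧
    ((∃ k, m = 4 * k + 3 ∧ (2 * k + 1).natAbs.Prime ∧ (2 * k - 3).natAbs.Prime ∧
      (18 * k + 13).natAbs.Prime) ∨
    (∃ k, m = 8 * k + 5 ∧ (2 * k + 1).natAbs.Prime ∧ (2 * k - 1).natAbs.Prime ∧
      (18 * k + 11).natAbs.Prime)) := by
  have h4 : n % 2 = 1 ∨ n % 16 = 0 ∨ n % 16 = 8 ∨ n % 8 = 4 := by omega
  rcases h4 with h4 | h4 | h4 | h4
  · exact ⟨n, 1, Or.inl rfl, by ring, odd_struct n h4 (by omega) hle⟩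
  · exfalso
    obtain ⟨k, rfl⟩ : ∃ k, n = 16 * k := ⟨n / 16, by omega⟩
    refine three0 k ?_ hle
    rcases le_abs.1 h with h | h
    · exact le_abs.2 (Or.inl (by omega))
    · exact le_abs.2 (Or.inr (by omega))
  · exfalso
    obtain ⟨k, rfl⟩ : ∃ k, n = 16 * k + 8 := ⟨n / 16, by omega⟩
    refine three8 k ?_ hle
    rcases le_abs.1 h with h | h
    · exact le_abs.2 (Or.inl (by omega))
    · exact le_abs.2 (Or.inr (by omega))
  · obtain ⟨m, rfl⟩ : ∃ m, n = 4 * m := ⟨n / 4, by omega⟩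
    refine ⟨m, 4, Or.inr rfl, rfl, odd_struct m (by omega) ?_ ((scale m).trans hle)⟩
    rcases le_abs.1 h with h | h
    · exact le_abs.2 (Or.inl (by omega))
    · exact le_abs.2 (Or.inr (by omega))

end Pool.Agent.Lib.MP_dde2f1_nt
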